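import Mathlib

/-!
# Hall gaps: Wirtinger's inequality on the gaps of a closed set of zeros

* `wirt`: `∫_a^b ‖f‖² ≤ ((b - a)/π)² ∫_a^b ‖f'‖²` if `f a = f b = 0`;
* `chain`: weighted form on the line: `∫ w‖f‖² ≤ (1 + e) (D/π)² ∫ w‖f'‖² + ∫_Long w‖f‖²`, `Long` the set of the
  points which lie in no gap of length `≤ D` of the closed set `Z` of zeros of `f`.
-/

set_option autoImplicit false

open MeasureTheory Set Filter Topology

namespace Pool.Agent.Helper49.HG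

variable {E : Type*} [NormedAddCommGroup E] [InnerProductSpace ℝ E]

/-- Auxiliary inequality with a slightly longer interval. -/
theorem wirt_aux {a b : ℝ} (hab : a ≤ b) {f f' : ℝ → E} (hf : ∀ x ∈ Icc a b, HasDerivAt f (f' x) x)
    (hc : ContinuousOn f' (Icc a b)) (ha : f a = 0) (hb : f b = 0) {ε : ℝ} (hε : 0 < ε) :
    (Real.pi / (b - a + 2 * ε)) ^ 2 * ∫ x in a..b, ‖f x‖ ^ 2 ≤ ∫ x in a..b, ‖f' x‖ ^ 2 := by
  set k : ℝ := Real.pi / (b - a + 2 * ε) with hk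
  have hl : 0 < b - a + 2 * ε := by linarith
  have hkp : 0 < k := div_pos Real.pi_pos hl
  have hsin : ∀ x ∈ Icc a b, 0 < Real.sin (k * (x - a + ε)) := by
    intro x hx
    apply Real.sin_pos_of_pos_of_lt_pi
    · have : 0 < x - a + ε := by linarith [hx.1]
      positivity
    · have h1 : x - a + ε < b - a + 2 * ε := by linarith [hx.2]
      calc k * (x - a + ε) < k * (b - a + 2 * ε) := mul_lt_mul_of_pos_left h1 hkp
        _ = Real.pi := by rw [hk]; field_simp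
  set h : ℝ → ℝ := fun x => k * Real.cos (k * (x - a + ε)) / Real.sin (k * (x - a + ε)) with hh
  have hfc : ContinuousOn f (Icc a b) := fun x hx => (hf x hx).continuousAt.continuousWithinAt
  have hhc : ContinuousOn h (Icc a b) := by
    refine ContinuousOn.div (by fun_prop) (by fun_prop) fun x hx => (hsin x hx).ne'
  have hhd : ∀ x ∈ Icc a b, HasDerivAt h (-(k ^ 2) - h x ^ 2) x := by
    intro x hx
    have hs := (hsin x hx).ne'
    have h1 : HasDerivAt (fun x : ℝ => k * (x - a + ε)) k x := by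
      simpa using (((hasDerivAt_id x).sub_const a).add_const ε).const_mul k
    have h2 : HasDerivAt (fun x : ℝ => k * Real.cos (k * (x - a + ε)))
        (k * (-Real.sin (k * (x - a + ε)) * k)) x := (h1.cos).const_mul k
    have h3 : HasDerivAt (fun x : ℝ => Real.sin (k * (x - a + ε))) (Real.cos (k * (x - a + ε)) * k) x := h1.sin
    have h4 : HasDerivAt h _ x := h2.div h3 hs
    refine h4.congr_deriv ?_
    simp only [hh]
    field_simp
  -- the function whose integral vanishes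
  set G : ℝ → ℝ := fun x => (-(k ^ 2) - h x ^ 2) * ‖f x‖ ^ 2 + h x * (2 * inner ℝ (f x) (f' x)) with hG
  have hGd : ∀ x ∈ uIcc a b, HasDerivAt (fun x => h x * ‖f x‖ ^ 2) (G x) x := by
    intro x hx
    rw [uIcc_of_le hab] at hx
    exact (hhd x hx).mul (hf x hx).norm_sq
  have hGc : ContinuousOn G (Icc a b) := by
    have h5 : ContinuousOn (fun x => inner ℝ (f x) (f' x)) (Icc a b) := hfc.inner hc
    have h6 : ContinuousOn (fun x => ‖f x‖ ^ 2) (Icc a b) := hfc.norm.pow 2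
    exact ((continuousOn_const.sub (hhc.pow 2)).mul h6).add (hhc.mul (continuousOn_const.mul h5))
  have hGi : IntervalIntegrable G volume a b := by
    apply ContinuousOn.intervalIntegrable; rwa [uIcc_of_le hab]
  have hint : ∫ x in a..b, G x = 0 := by
    rw [intervalIntegral.integral_eq_sub_of_hasDerivAt hGd hGi, ha, hb]; simp
  have hfi : IntervalIntegrable (fun x => ‖f x‖ ^ 2) volume a b := by
    apply ContinuousOn.intervalIntegrable; rw [uIcc_of_le hab]; exact hfc.norm.pow 2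
  have hfi' : IntervalIntegrable (fun x => ‖f' x‖ ^ 2) volume a b := by
    apply ContinuousOn.intervalIntegrable; rw [uIcc_of_le hab]; exact hc.norm.pow 2
  have key : ∀ x ∈ Icc a b, k ^ 2 * ‖f x‖ ^ 2 + G x ≤ ‖f' x‖ ^ 2 := by
    intro x _
    have h7 : ‖f' x - h x • f x‖ ^ 2 = ‖f' x‖ ^ 2 - 2 * inner ℝ (f' x) (h x • f x) + ‖h x • f x‖ ^ 2 :=
      norm_sub_sq_real _ _
    rw [inner_smul_right, norm_smul, mul_pow, Real.norm_eq_abs, sq_abs, real_inner_comm] at h7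
    have h8 : 0 ≤ ‖f' x - h x • f x‖ ^ 2 := by positivity
    rw [hG]
    simp only
    nlinarith
  have := intervalIntegral.integral_mono_on hab ((hfi.const_mul (k ^ 2)).add hGi) hfi' key
  rw [intervalIntegral.integral_add (hfi.const_mul _) hGi, intervalIntegral.integral_const_mul, hint] at this
  linarith

/-- **Wirtinger's inequality** with two zeros. -/
theorem wirt {a b : ℝ} (hab : a ≤ b) {f f' : ℝ → E} (hf : ∀ x ∈ Icc a b, HasDerivAt f (f' x) x)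
    (hc : ContinuousOn f' (Icc a b)) (ha : f a = 0) (hb : f b = 0) :
    ∫ x in a..b, ‖f x‖ ^ 2 ≤ ((b - a) / Real.pi) ^ 2 * ∫ x in a..b, ‖f' x‖ ^ 2 := by
  have h1 : ∀ ε : ℝ, 0 < ε → ∫ x in a..b, ‖f x‖ ^ 2 ≤
      ((b - a + 2 * ε) / Real.pi) ^ 2 * ∫ x in a..b, ‖f' x‖ ^ 2 := by
    intro ε hε
    have h2 := wirt_aux hab hf hc ha hb hε
    have hl : 0 < b - a + 2 * ε := by linarith
    have hpi := Real.pi_pos
    have h3 : (0:ℝ) < (Real.pi / (b - a + 2 * ε)) ^ 2 := by positivity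
    rw [← le_div_iff₀' h3] at h2
    refine h2.trans (le_of_eq ?_)
    field_simp
  have h4 : Tendsto (fun ε : ℝ => ((b - a + 2 * ε) / Real.pi) ^ 2 * ∫ x in a..b, ‖f' x‖ ^ 2) (𝓝[>] 0)
      (𝓝 (((b - a + 2 * 0) / Real.pi) ^ 2 * ∫ x in a..b, ‖f' x‖ ^ 2)) := by
    apply tendsto_nhdsWithin_of_tendsto_nhds
    apply Continuous.tendsto
    fun_prop
  rw [mul_zero, add_zero] at h4
  exact ge_of_tendsto h4 (eventually_nhdsWithin_of_forall fun ε hε => h1 ε hε)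

/-- The points outside `Z` whose gap of `Z` is longer than `D` (or unbounded). -/
def LongSet (Z : Set ℝ) (D : ℝ) : Set ℝ := {x | x ∉ Z ∧ ∀ a ∈ Z, ∀ b ∈ Z, a < x → x < b → D < b - a}

/-- The short gaps of `Z`. -/
def shortGaps (Z : Set ℝ) (D : ℝ) : Set (ℝ × ℝ) :=
  {p | p.1 ∈ Z ∧ p.2 ∈ Z ∧ p.1 < p.2 ∧ p.2 - p.1 ≤ D ∧ ∀ z ∈ Z, ¬ (p.1 < z ∧ z < p.2)}

theorem shortGaps_disjoint (Z : Set ℝ) (D : ℝ) :
    (shortGaps Z D).PairwiseDisjoint fun p : ℝ × ℝ => Ioo p.1 p.2 := by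
  intro p hp q hq hpq
  by_contra hcon
  obtain ⟨x, hx1, hx2⟩ := Set.not_disjoint_iff.1 hcon
  simp only [mem_Ioo] at hx1 hx2
  obtain ⟨hp1, hp2, _, _, hp5⟩ := hp
  obtain ⟨hq1, hq2, _, _, hq5⟩ := hq
  apply hpq
  have e1 : p.1 = q.1 := by
    rcases lt_trichotomy p.1 q.1 with h | h | h
    · exact absurd ⟨h, hx2.1.trans hx1.2⟩ (hp5 _ hq1)
    · exact h
    · exact absurd ⟨h, hx1.1.trans hx2.2⟩ (hq5 _ hp1)
  have e2 : p.2 = q.2 := by
    rcases lt_trichotomy p.2 q.2 with h | h | h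
    · exact absurd ⟨hx2.1.trans hx1.2, h⟩ (hq5 _ hp2)
    · exact h
    · exact absurd ⟨hx1.1.trans hx2.2, h⟩ (hp5 _ hq2)
  exact Prod.ext e1 e2

theorem shortGaps_countable (Z : Set ℝ) (D : ℝ) : (shortGaps Z D).Countable :=
  (shortGaps_disjoint Z D).countable_of_isOpen (fun _ _ => isOpen_Ioo) fun _ hp => nonempty_Ioo.2 hp.2.2.1

/-- A point outside `Z` and not in a long gap lies in a short gap. -/
theorem mem_shortGap {Z : Set ℝ} (hZ : IsClosed Z) {D x : ℝ} (hx : x ∉ Z) (hl : x ∉ LongSet Z D) :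
    ∃ p ∈ shortGaps Z D, x ∈ Ioo p.1 p.2 := by
  have h1 : ∃ a ∈ Z, ∃ b ∈ Z, a < x ∧ x < b ∧ b - a ≤ D := by
    by_contra hcon
    apply hl
    refine ⟨hx, fun a ha b hb hax hxb => ?_⟩
    by_contra h2
    exact hcon ⟨a, ha, b, hb, hax, hxb, not_lt.1 h2⟩
  obtain ⟨a, ha, b, hb, hax, hxb, hab⟩ := h1
  have hA : IsClosed (Z ∩ Iic x) := hZ.inter isClosed_Iic
  have hB : IsClosed (Z ∩ Ici x) := hZ.inter isClosed_Ici
  have hA2 : BddAbove (Z ∩ Iic x) := ⟨x, fun y hy => hy.2⟩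
  have hB2 : BddBelow (Z ∩ Ici x) := ⟨x, fun y hy => hy.2⟩
  have hA3 := hA.csSup_mem ⟨a, ha, hax.le⟩ hA2
  have hB3 := hB.csInf_mem ⟨b, hb, hxb.le⟩ hB2
  have hA4 : a ≤ sSup (Z ∩ Iic x) := le_csSup hA2 ⟨ha, hax.le⟩
  have hB4 : sInf (Z ∩ Ici x) ≤ b := csInf_le hB2 ⟨hb, hxb.le⟩
  have hA5 : sSup (Z ∩ Iic x) < x := lt_of_le_of_ne hA3.2 fun h => hx (h ▸ hA3.1)
  have hB5 : x < sInf (Z ∩ Ici x) := lt_of_le_of_ne hB3.2 fun h => hx (h ▸ hB3.1)
  refine ⟨(sSup (Z ∩ Iic x), sInf (Z ∩ Ici x)), ⟨hA3.1, hB3.1, hA5.trans hB5, by simp only; linarith, ?_⟩, hA5, hB5⟩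
  rintro z hz ⟨h1, h2⟩
  simp only at h1 h2
  rcases le_total z x with h | h
  · exact absurd (le_csSup hA2 ⟨hz, h⟩) (not_le.2 h1)
  · exact absurd (csInf_le hB2 ⟨hz, h⟩) (not_le.2 h2)

theorem isOpen_shortUnion (Z : Set ℝ) (D : ℝ) : IsOpen (⋃ p : shortGaps Z D, Ioo p.1.1 p.1.2) :=
  isOpen_iUnion fun _ => isOpen_Ioo

theorem LongSet_eq {Z : Set ℝ} (hZ : IsClosed Z) (D : ℝ) :
    LongSet Z D = (Z ∪ ⋃ p : shortGaps Z D, Ioo p.1.1 p.1.2)ᶜ := by
  ext x
  constructor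
  · rintro ⟨h1, h2⟩ (h3 | h3)
    · exact h1 h3
    · obtain ⟨⟨p, hp⟩, hx⟩ := mem_iUnion.1 h3
      have := h2 p.1 hp.1 p.2 hp.2.1 hx.1 hx.2
      exact absurd hp.2.2.2.1 (not_le.2 this)
  · intro h
    by_contra hcon
    apply h
    by_cases hx : x ∈ Z
    · exact Or.inl hx
    · obtain ⟨p, hp, hxp⟩ := mem_shortGap hZ hx hcon
      exact Or.inr (mem_iUnion.2 ⟨⟨p, hp⟩, hxp⟩)

theorem measurableSet_LongSet {Z : Set ℝ} (hZ : IsClosed Z) (D : ℝ) : MeasurableSet (LongSet Z D) := by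
  rw [LongSet_eq hZ]
  exact (hZ.measurableSet.union (isOpen_shortUnion Z D).measurableSet).compl

/-- Weighted inequality on one short gap. -/
theorem gap_le {a b D e : ℝ} (hab : a < b) (hD : b - a ≤ D) (he : 0 ≤ e) {f f' : ℝ → E} {w : ℝ → ℝ}
    (hf : ∀ x, HasDerivAt f (f' x) x) (hc : Continuous f') (ha : f a = 0) (hb : f b = 0)
    (hw : Continuous w) (hw0 : ∀ x, 0 ≤ w x) (hwr : ∀ x y, |x - y| ≤ D → w x ≤ (1 + e) * w y) :
    ∫ x in Ioo a b, w x * ‖f x‖ ^ 2 ≤ (1 + e) * (D / Real.pi) ^ 2 * ∫ x in Ioo a b, w x * ‖f' x‖ ^ 2 := by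
  obtain ⟨x₀, hx₀, hmin⟩ := isCompact_Icc.exists_isMinOn (nonempty_Icc.2 hab.le) hw.continuousOn (s := Icc a b)
  have hfc : Continuous f := continuous_iff_continuousAt.2 fun x => (hf x).continuousAt
  rw [← integral_Ioc_eq_integral_Ioo, ← integral_Ioc_eq_integral_Ioo, ← intervalIntegral.integral_of_le hab.le,
    ← intervalIntegral.integral_of_le hab.le]
  have i1 : IntervalIntegrable (fun x => ‖f x‖ ^ 2) volume a b := (hfc.norm.pow 2).intervalIntegrable a b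
  have i2 : IntervalIntegrable (fun x => ‖f' x‖ ^ 2) volume a b := (hc.norm.pow 2).intervalIntegrable a b
  have i3 : IntervalIntegrable (fun x => w x * ‖f x‖ ^ 2) volume a b := (hw.mul (hfc.norm.pow 2)).intervalIntegrable a b
  have i4 : IntervalIntegrable (fun x => w x * ‖f' x‖ ^ 2) volume a b := (hw.mul (hc.norm.pow 2)).intervalIntegrable a b
  have h1 : ∫ x in a..b, w x * ‖f x‖ ^ 2 ≤ ((1 + e) * w x₀) * ∫ x in a..b, ‖f x‖ ^ 2 := by
    rw [← intervalIntegral.integral_const_mul]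
    refine intervalIntegral.integral_mono_on hab.le i3 (i1.const_mul _) fun x hx => ?_
    apply mul_le_mul_of_nonneg_right _ (by positivity)
    apply hwr
    rw [abs_le]
    constructor <;> linarith [hx.1, hx.2, hx₀.1, hx₀.2]
  have h2 : ∫ x in a..b, ‖f x‖ ^ 2 ≤ (D / Real.pi) ^ 2 * ∫ x in a..b, ‖f' x‖ ^ 2 := by
    refine (wirt hab.le (fun x _ => hf x) hc.continuousOn ha hb).trans ?_
    apply mul_le_mul_of_nonneg_right
    · have hpi := Real.pi_pos
      have : (b - a) / Real.pi ≤ D / Real.pi := by gcongr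
      have h0 : 0 ≤ (b - a) / Real.pi := by
        apply div_nonneg _ hpi.le; linarith
      gcongr
    · exact intervalIntegral.integral_nonneg hab.le fun x _ => by positivity
  have h3 : w x₀ * ∫ x in a..b, ‖f' x‖ ^ 2 ≤ ∫ x in a..b, w x * ‖f' x‖ ^ 2 := by
    rw [← intervalIntegral.integral_const_mul]
    refine intervalIntegral.integral_mono_on hab.le (i2.const_mul _) i4 fun x hx => ?_
    apply mul_le_mul_of_nonneg_right (hmin hx) (by positivity)
  have hwx := hw0 x₀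
  calc ∫ x in a..b, w x * ‖f x‖ ^ 2 ≤ ((1 + e) * w x₀) * ∫ x in a..b, ‖f x‖ ^ 2 := h1
    _ ≤ ((1 + e) * w x₀) * ((D / Real.pi) ^ 2 * ∫ x in a..b, ‖f' x‖ ^ 2) := by
        apply mul_le_mul_of_nonneg_left h2; positivity
    _ = (1 + e) * (D / Real.pi) ^ 2 * (w x₀ * ∫ x in a..b, ‖f' x‖ ^ 2) := by ring
    _ ≤ (1 + e) * (D / Real.pi) ^ 2 * ∫ x in a..b, w x * ‖f' x‖ ^ 2 := by
        apply mul_le_mul_of_nonneg_left h3; positivity

/-- **Wirtinger's inequality on the gaps** of a closed set `Z` of zeros of `f`, weighted, on the whole line. -/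
theorem chain {Z : Set ℝ} (hZ : IsClosed Z) {D e : ℝ} (he : 0 ≤ e) {f f' : ℝ → E} {w : ℝ → ℝ}
    (hf : ∀ x, HasDerivAt f (f' x) x) (hc : Continuous f') (hfZ : ∀ x ∈ Z, f x = 0)
    (hw : Continuous w) (hw0 : ∀ x, 0 ≤ w x) (hwr : ∀ x y, |x - y| ≤ D → w x ≤ (1 + e) * w y)
    (hi : Integrable fun x => w x * ‖f x‖ ^ 2) (hi' : Integrable fun x => w x * ‖f' x‖ ^ 2) :
    ∫ x, w x * ‖f x‖ ^ 2 ≤ (1 + e) * (D / Real.pi) ^ 2 * (∫ x, w x * ‖f' x‖ ^ 2) +
      ∫ x in LongSet Z D, w x * ‖f x‖ ^ 2 := by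
  set S : Set ℝ := ⋃ p : shortGaps Z D, Ioo p.1.1 p.1.2 with hS
  have hSm : MeasurableSet S := (isOpen_shortUnion Z D).measurableSet
  have hLm := measurableSet_LongSet hZ D
  have : Countable (shortGaps Z D) := (shortGaps_countable Z D).to_subtype
  have h1 := integral_add_compl hLm hi
  have h2 : ∫ x in (LongSet Z D)ᶜ, w x * ‖f x‖ ^ 2 = ∫ x in S, w x * ‖f x‖ ^ 2 := by
    apply setIntegral_eq_of_subset_of_forall_sdiff_eq_zero hLm.compl
    · intro x hx hl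
      rw [LongSet_eq hZ] at hl
      exact hl (Or.inr hx)
    · rintro x ⟨hx1, hx2⟩
      rw [LongSet_eq hZ, compl_compl] at hx1
      rcases hx1 with h | h
      · rw [hfZ x h]; simp
      · exact absurd h hx2
  have hd : Pairwise (Function.onFun Disjoint fun p : shortGaps Z D => Ioo p.1.1 p.1.2) := by
    intro p q hpq
    exact shortGaps_disjoint Z D p.2 q.2 fun h => hpq (Subtype.ext h)
  have h3 := hasSum_integral_iUnion (fun p : shortGaps Z D => measurableSet_Ioo) hd hi.integrableOn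
  have h4 := (hasSum_integral_iUnion (fun p : shortGaps Z D => measurableSet_Ioo) hd hi'.integrableOn).mul_left
    ((1 + e) * (D / Real.pi) ^ 2)
  have h5 : (∫ x in S, w x * ‖f x‖ ^ 2) ≤ (1 + e) * (D / Real.pi) ^ 2 * (∫ x in S, w x * ‖f' x‖ ^ 2) := by
    refine hasSum_le (fun p => ?_) h3 h4
    obtain ⟨p, hp⟩ := p
    exact gap_le hp.2.2.1 hp.2.2.2.1 he hf hc (hfZ _ hp.1) (hfZ _ hp.2.1) hw hw0 hwr
  have h6 : ∫ x in S, w x * ‖f' x‖ ^ 2 ≤ ∫ x, w x * ‖f' x‖ ^ 2 :=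
    setIntegral_le_integral hi' (Eventually.of_forall fun x => mul_nonneg (hw0 x) (by positivity))
  have h7 : (1 + e) * (D / Real.pi) ^ 2 * (∫ x in S, w x * ‖f' x‖ ^ 2) ≤
      (1 + e) * (D / Real.pi) ^ 2 * (∫ x, w x * ‖f' x‖ ^ 2) := by
    apply mul_le_mul_of_nonneg_left h6
    positivity
  rw [h2] at h1
  linarith [h1, h5, h7]

/-- The Poisson weight varies little on short intervals. -/
theorem pw_ratio {W d τ x y : ℝ} (hW : 0 < W) (h : |x - y| ≤ d) :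
    W / (Real.pi * (W ^ 2 + (x - τ) ^ 2)) ≤ (1 + (d / W + (d / W) ^ 2)) * (W / (Real.pi * (W ^ 2 + (y - τ) ^ 2))) := by
  have hpi := Real.pi_pos
  have hd : 0 ≤ d := (abs_nonneg _).trans h
  have hA : 0 < W ^ 2 + (x - τ) ^ 2 := by positivity
  have hB : 0 < W ^ 2 + (y - τ) ^ 2 := by positivity
  have key : W ^ 2 + (y - τ) ^ 2 ≤ (1 + (d / W + (d / W) ^ 2)) * (W ^ 2 + (x - τ) ^ 2) := by
    have e1 : (1 + (d / W + (d / W) ^ 2)) * (W ^ 2 + (x - τ) ^ 2) =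
        W ^ 2 + (x - τ) ^ 2 + (d * W + d ^ 2) + (d / W + (d / W) ^ 2) * (x - τ) ^ 2 := by
      field_simp
      ring
    rw [e1]
    have h1 : (y - τ) ^ 2 ≤ (x - τ) ^ 2 + 2 * (d * |x - τ|) + d ^ 2 := by
      have h2 : |y - τ| ≤ |x - τ| + d := by
        calc |y - τ| = |(x - τ) - (x - y)| := by ring_nf
          _ ≤ |x - τ| + |x - y| := abs_sub _ _
          _ ≤ |x - τ| + d := by linarith
      have h3 : |y - τ| ^ 2 ≤ (|x - τ| + d) ^ 2 := by gcongr
      rw [sq_abs] at h3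
      have h4 : |x - τ| ^ 2 = (x - τ) ^ 2 := sq_abs _
      nlinarith
    have h5 : 2 * (d * |x - τ|) ≤ d * W + d / W * (x - τ) ^ 2 := by
      have h6 : |x - τ| ^ 2 = (x - τ) ^ 2 := sq_abs _
      have h7 : 0 ≤ d / W * (|x - τ| - W) ^ 2 := by positivity
      have h8 : d / W * (|x - τ| - W) ^ 2 = d * W + d / W * (x - τ) ^ 2 - 2 * (d * |x - τ|) := by
        rw [← h6]; field_simp; ring
      linarith
    have h9 : 0 ≤ (d / W) ^ 2 * (x - τ) ^ 2 := by positivity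
    nlinarith
  rw [← mul_div_assoc, div_le_div_iff₀ (by positivity) (by positivity)]
  calc W * (Real.pi * (W ^ 2 + (y - τ) ^ 2))
      = (W * Real.pi) * (W ^ 2 + (y - τ) ^ 2) := by ring
    _ ≤ (W * Real.pi) * ((1 + (d / W + (d / W) ^ 2)) * (W ^ 2 + (x - τ) ^ 2)) :=
        mul_le_mul_of_nonneg_left key (by positivity)
    _ = (1 + (d / W + (d / W) ^ 2)) * W * (Real.pi * (W ^ 2 + (x - τ) ^ 2)) := by ring

end Pool.Agent.Helper49.HG
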