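import Pool.Agent.Helper69.HG.Mol

/-!
# Hall gaps, block EX: cell mollifiers exist; they are squares

`al`: coefficients of `(1 - x)^(1/2)`; `bt T ε b`: multiplicative extension, cut at `Om_j ≤ b + j`; `conv bt bt` is a cell
mollifier.
-/

set_option autoImplicit false

open Finset ArithmeticFunction
open scoped ArithmeticFunction.Moebius

namespace Pool.Agent.Helper49.HG

open Pool.Agent.Helper69.HG

/-- coefficients of `(1-x)^(1/2)` -/
noncomputable def al : ℕ → ℝ
  | 0 => 1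
  | (k + 1) => -(2 * (catalan k : ℝ) / 4 ^ (k + 1))

lemma al_zero : al 0 = 1 := rfl

lemma al_succ (k : ℕ) : al (k + 1) = -(2 * (catalan k : ℝ) / 4 ^ (k + 1)) := rfl

lemma al_abs_succ (k : ℕ) : |al (k + 1)| = 2 * (catalan k : ℝ) / 4 ^ (k + 1) := by
  rw [al_succ, abs_neg, abs_of_nonneg (by positivity)]

lemma al_in (n : ℕ) : ∑ ij ∈ antidiagonal n, (2 * (catalan ij.1 : ℝ) / 4 ^ (ij.1 + 1)) * (2 * (catalan ij.2 : ℝ) / 4 ^ (ij.2 + 1)) =
    4 * (catalan (n + 1) : ℝ) / 4 ^ (n + 2) := by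
  rw [catalan_succ']
  push_cast
  rw [Finset.mul_sum, Finset.sum_div]
  refine Finset.sum_congr rfl fun ij hij => ?_
  have h := mem_antidiagonal.1 hij
  have h2 : (4 : ℝ) ^ (n + 2) = 4 ^ (ij.1 + 1) * 4 ^ (ij.2 + 1) := by
    rw [← pow_add]; congr 1; omega
  rw [h2]
  field_simp
  ring

/-- `(1-x)^(1/2)` squared is `1 - x` -/
lemma al_conv (k : ℕ) : ∑ ij ∈ antidiagonal k, al ij.1 * al ij.2 = if k = 0 then 1 else if k = 1 then -1 else 0 := by
  rcases k with _ | _ | n
  · simp [al_zero]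
  · rw [Finset.Nat.sum_antidiagonal_succ]
    simp [al_zero, al_succ]
    norm_num
  · rw [Finset.Nat.sum_antidiagonal_succ, Finset.Nat.sum_antidiagonal_succ']
    simp only [al_succ, al_zero]
    have h : ∑ p ∈ antidiagonal n, -(2 * (catalan p.1 : ℝ) / 4 ^ (p.1 + 1)) * -(2 * (catalan p.2 : ℝ) / 4 ^ (p.2 + 1)) =
        4 * (catalan (n + 1) : ℝ) / 4 ^ (n + 2) := by
      rw [← al_in]
      exact Finset.sum_congr rfl fun p _ => by ring
    rw [h, if_neg (by omega), if_neg (by omega)]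
    ring

lemma catalan_le (n : ℕ) : (2 * (catalan (n + 1) : ℝ)) ≤ 4 ^ (n + 1) := by
  have h1 : (n + 2) * catalan (n + 1) = Nat.centralBinom (n + 1) := by
    have := succ_mul_catalan_eq_centralBinom (n + 1)
    simpa [Nat.succ_eq_add_one, add_assoc] using this
  have h2 : Nat.centralBinom (n + 1) ≤ 4 ^ (n + 1) := by
    rw [Nat.centralBinom_eq_two_mul_choose]
    refine (Nat.choose_le_two_pow _ _).trans ?_
    rw [pow_mul]; norm_num
  have h3 : 2 * catalan (n + 1) ≤ 4 ^ (n + 1) := by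
    calc 2 * catalan (n + 1) ≤ (n + 2) * catalan (n + 1) := Nat.mul_le_mul_right _ (by omega)
      _ ≤ 4 ^ (n + 1) := by rw [h1]; exact h2
  exact_mod_cast h3

lemma al_abs_conv (k : ℕ) : ∑ ij ∈ antidiagonal k, |al ij.1| * |al ij.2| ≤ 1 := by
  rcases k with _ | _ | n
  · simp [al_zero]
  · rw [Finset.Nat.sum_antidiagonal_succ]
    simp only [al_abs_succ, al_zero]
    norm_num [al_abs_succ, al_zero]
  · rw [Finset.Nat.sum_antidiagonal_succ, Finset.Nat.sum_antidiagonal_succ']
    simp only [al_abs_succ, al_zero, abs_one]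
    rw [al_in]
    have h := catalan_le n
    have h4 : (4 : ℝ) ^ (n + 2) = 4 * 4 ^ (n + 1) := by ring
    have h5 : (0 : ℝ) < 4 ^ (n + 1) := by positivity
    have e : 1 * (2 * (catalan (n + 1) : ℝ) / 4 ^ (n + 1 + 1)) + (2 * (catalan (n + 1) : ℝ) / 4 ^ (n + 1 + 1) * 1 +
        4 * (catalan (n + 1) : ℝ) / 4 ^ (n + 2)) = (2 * (catalan (n + 1) : ℝ)) / 4 ^ (n + 1) := by
      rw [h4]
      field_simp
      ring
    rw [e, div_le_one h5]
    exact h

/-- absolute values of the coefficients -/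
noncomputable def alb (k : ℕ) : ℝ := |al k|

lemma alb_zero : alb 0 = 1 := by simp [alb, al_zero]

lemma alb_nonneg (k : ℕ) : 0 ≤ alb k := abs_nonneg _

/-- multiplicative extension -/
noncomputable def mf (g : ℕ → ℝ) : ArithmeticFunction ℝ :=
  ⟨fun n => if n = 0 then 0 else n.factorization.prod fun _ k => g k, if_pos rfl⟩

lemma mf_apply (g : ℕ → ℝ) {n : ℕ} (hn : n ≠ 0) : mf g n = n.factorization.prod fun _ k => g k := by
  change (if n = 0 then (0 : ℝ) else _) = _
  rw [if_neg hn]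

lemma mf_mult (g : ℕ → ℝ) : (mf g).IsMultiplicative := by
  rw [IsMultiplicative.iff_ne_zero]
  refine ⟨by rw [mf_apply g one_ne_zero]; simp, fun {m n} hm hn hmn => ?_⟩
  rw [mf_apply g hm, mf_apply g hn, mf_apply g (mul_ne_zero hm hn), Nat.factorization_mul_of_coprime hmn]
  exact Finsupp.prod_add_index_of_disjoint (Nat.Coprime.disjoint_primeFactors hmn) _

lemma mf_pp {g : ℕ → ℝ} (h0 : g 0 = 1) {p : ℕ} (hp : p.Prime) (k : ℕ) : mf g (p ^ k) = g k := by
  rw [mf_apply g (pow_ne_zero _ hp.ne_zero), hp.factorization_pow, Finsupp.prod_single_index h0]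

lemma mul_pp (f g : ArithmeticFunction ℝ) {p : ℕ} (hp : p.Prime) (k : ℕ) :
    (f * g) (p ^ k) = ∑ ij ∈ antidiagonal k, f (p ^ ij.1) * g (p ^ ij.2) := by
  rw [ArithmeticFunction.mul_apply, Nat.sum_divisorsAntidiagonal (fun i j => f i * g j), Nat.divisors_prime_pow hp,
    Finset.sum_map, Finset.Nat.sum_antidiagonal_eq_sum_range_succ_mk]
  refine Finset.sum_congr rfl fun i hi => ?_
  simp only [Function.Embedding.coeFn_mk]
  rw [Nat.pow_div (by rw [mem_range] at hi; omega) hp.pos]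

lemma mf_al_sq : mf al * mf al = ((μ : ArithmeticFunction ℤ) : ArithmeticFunction ℝ) := by
  rw [IsMultiplicative.eq_iff_eq_on_prime_powers _ ((mf_mult al).mul (mf_mult al)) _
    isMultiplicative_moebius.intCast]
  intro p k hp
  rw [mul_pp _ _ hp]
  simp only [mf_pp al_zero hp]
  rw [al_conv]
  rcases Nat.eq_zero_or_pos k with rfl | hk
  · simp
  · rw [if_neg hk.ne', intCoe_apply, moebius_apply_prime_pow hp hk.ne']
    split_ifs <;> simp

lemma mf_abs (n : ℕ) : |mf al n| = mf alb n := by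
  rcases eq_or_ne n 0 with rfl | hn
  · simp
  · rw [mf_apply _ hn, mf_apply _ hn, Finsupp.prod, Finsupp.prod, Finset.abs_prod]
    rfl

lemma mf_abs_conv (n : ℕ) : (mf alb * mf alb) n ≤ 1 := by
  rcases eq_or_ne n 0 with rfl | hn
  · simp
  rw [IsMultiplicative.multiplicative_factorization _ ((mf_mult alb).mul (mf_mult alb)) hn, Finsupp.prod]
  apply Finset.prod_le_one
  · intro p hp
    rw [mul_pp _ _ (Nat.prime_of_mem_primeFactors hp)]
    simp only [mf_pp alb_zero (Nat.prime_of_mem_primeFactors hp)]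
    exact Finset.sum_nonneg fun _ _ => mul_nonneg (alb_nonneg _) (alb_nonneg _)
  · intro p hp
    rw [mul_pp _ _ (Nat.prime_of_mem_primeFactors hp)]
    simp only [mf_pp alb_zero (Nat.prime_of_mem_primeFactors hp)]
    exact al_abs_conv _

/-! ### cells -/

lemma om_mul (T ε : ℝ) (j : ℕ) {m n : ℕ} (hm : m ≠ 0) (hn : n ≠ 0) : Om T ε j (m * n) = Om T ε j m + Om T ε j n := by
  classical
  unfold Om
  rw [((Nat.perm_primeFactorsList_mul hm hn).filter _).length_eq, List.filter_append, List.length_append]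

lemma om_one (T ε : ℝ) (j : ℕ) : Om T ε j 1 = 0 := by
  unfold Om; simp

lemma om_le_of_dvd (T ε : ℝ) (j : ℕ) {d n : ℕ} (hn : n ≠ 0) (hd : d ∣ n) : Om T ε j d ≤ Om T ε j n := by
  obtain ⟨e, rfl⟩ := hd
  rw [om_mul T ε j (left_ne_zero_of_mul hn) (right_ne_zero_of_mul hn)]
  omega

lemma om_pos (T ε : ℝ) {j p n : ℕ} (hn : n ≠ 0) (hp : InCell T ε j p) (hd : p ∣ n) : 0 < Om T ε j n := by
  classical
  unfold Om
  rw [List.length_pos_iff_exists_mem]
  exact ⟨p, List.mem_filter.2 ⟨(Nat.mem_primeFactorsList hn).2 ⟨hp.1, hd⟩, by simpa using hp⟩⟩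

/-- every prime up to `T^ε` is in a cell -/
lemma exists_cell {T ε : ℝ} (hT : 1 < T) {p : ℕ} (hp : p.Prime) (hpT : (p : ℝ) ≤ T ^ ε) :
    ∃ j, InCell T ε j p := by
  classical
  have hp2 : (2 : ℝ) ≤ p := by exact_mod_cast hp.two_le
  have hT0 : 0 < T := by linarith
  have hex : ∃ j : ℕ, T ^ (ε / 2 ^ (j + 1)) < (p : ℝ) := by
    have h1 : Filter.Tendsto (fun j : ℕ => T ^ (ε / 2 ^ (j + 1))) Filter.atTop (nhds (T ^ (0 : ℝ))) := by
      have h2 : Filter.Tendsto (fun j : ℕ => ε / (2 : ℝ) ^ (j + 1)) Filter.atTop (nhds 0) := by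
        have h3 : Filter.Tendsto (fun j : ℕ => (2 : ℝ) ^ (j + 1)) Filter.atTop Filter.atTop :=
          (tendsto_pow_atTop_atTop_of_one_lt (by norm_num)).comp (Filter.tendsto_add_atTop_nat 1)
        exact h3.const_div_atTop ε
      exact (Real.continuous_const_rpow hT0.ne').continuousAt.tendsto.comp h2
    rw [Real.rpow_zero] at h1
    exact (h1.eventually (gt_mem_nhds (show (1 : ℝ) < p by linarith))).exists
  refine ⟨Nat.find hex, hp, Nat.find_spec hex, ?_⟩
  rcases Nat.eq_zero_or_pos (Nat.find hex) with h | h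
  · rw [h]; simpa using hpT
  · have h1 := Nat.find_min hex (m := Nat.find hex - 1) (by omega)
    rw [not_lt, Nat.sub_add_cancel h] at h1
    exact h1

/-- the square root mollifier -/
noncomputable def bt (T ε : ℝ) (b n : ℕ) : ℝ := by
  classical
  exact if (∀ p : ℕ, p.Prime → p ∣ n → (p : ℝ) ≤ T ^ ε) ∧ ∀ j, Om T ε j n ≤ b + j then mf al n else 0

lemma bt_pos {T ε : ℝ} {b n : ℕ} (h : (∀ p : ℕ, p.Prime → p ∣ n → (p : ℝ) ≤ T ^ ε) ∧ ∀ j, Om T ε j n ≤ b + j) :
    bt T ε b n = mf al n := by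
  unfold bt; exact if_pos h

lemma bt_neg {T ε : ℝ} {b n : ℕ} (h : ¬ ((∀ p : ℕ, p.Prime → p ∣ n → (p : ℝ) ≤ T ^ ε) ∧ ∀ j, Om T ε j n ≤ b + j)) :
    bt T ε b n = 0 := by
  unfold bt; exact if_neg h

lemma bt_abs_le (T ε : ℝ) (b n : ℕ) : |bt T ε b n| ≤ mf alb n := by
  by_cases h : (∀ p : ℕ, p.Prime → p ∣ n → (p : ℝ) ≤ T ^ ε) ∧ ∀ j, Om T ε j n ≤ b + j
  · rw [bt_pos h, mf_abs]
  · rw [bt_neg h, abs_zero, ← mf_abs]; positivity

lemma bt_zero (T ε : ℝ) (b : ℕ) : bt T ε b 0 = 0 := by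
  by_cases h : (∀ p : ℕ, p.Prime → p ∣ 0 → (p : ℝ) ≤ T ^ ε) ∧ ∀ j, Om T ε j 0 ≤ b + j
  · rw [bt_pos h]; simp
  · rw [bt_neg h]

/-- `bt` is multiplicative over the cells -/
lemma bt_mul {T ε : ℝ} {b m n : ℕ} (hm : m ≠ 0) (hn : n ≠ 0) (hmn : m.Coprime n)
    (h : ∀ j, Om T ε j m = 0 ∨ Om T ε j n = 0) : bt T ε b (m * n) = bt T ε b m * bt T ε b n := by
  have hiff : ((∀ p : ℕ, p.Prime → p ∣ m * n → (p : ℝ) ≤ T ^ ε) ∧ ∀ j, Om T ε j (m * n) ≤ b + j) ↔
      ((∀ p : ℕ, p.Prime → p ∣ m → (p : ℝ) ≤ T ^ ε) ∧ ∀ j, Om T ε j m ≤ b + j) ∧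
      ((∀ p : ℕ, p.Prime → p ∣ n → (p : ℝ) ≤ T ^ ε) ∧ ∀ j, Om T ε j n ≤ b + j) := by
    constructor
    · rintro ⟨h1, h2⟩
      refine ⟨⟨fun p hp hd => h1 p hp (hd.mul_right n), fun j => ?_⟩, fun p hp hd => h1 p hp (hd.mul_left m), fun j => ?_⟩
      · have := h2 j
        rw [om_mul T ε j hm hn] at this; omega
      · have := h2 j
        rw [om_mul T ε j hm hn] at this; omega
    · rintro ⟨⟨h1, h2⟩, h3, h4⟩
      refine ⟨fun p hp hd => ?_, fun j => ?_⟩
      · rcases (hp.dvd_mul).1 hd with h5 | h5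
        · exact h1 p hp h5
        · exact h3 p hp h5
      · rw [om_mul T ε j hm hn]
        rcases h j with h5 | h5
        · rw [h5, zero_add]; exact h4 j
        · rw [h5, add_zero]; exact h2 j
  by_cases h1 : (∀ p : ℕ, p.Prime → p ∣ m → (p : ℝ) ≤ T ^ ε) ∧ ∀ j, Om T ε j m ≤ b + j
  · by_cases h2 : (∀ p : ℕ, p.Prime → p ∣ n → (p : ℝ) ≤ T ^ ε) ∧ ∀ j, Om T ε j n ≤ b + j
    · rw [bt_pos (hiff.2 ⟨h1, h2⟩), bt_pos h1, bt_pos h2, (mf_mult al).map_mul_of_coprime hmn]
    · rw [bt_neg fun h3 => h2 (hiff.1 h3).2, bt_neg h2, mul_zero]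
  · rw [bt_neg fun h3 => h1 (hiff.1 h3).1, bt_neg h1, zero_mul]

lemma sum_divisors_coprime {m n : ℕ} (hmn : m.Coprime n) (f : ℕ → ℝ) :
    ∑ d ∈ (m * n).divisors, f d = ∑ d ∈ m.divisors, ∑ e ∈ n.divisors, f (d * e) := by
  rw [← Finset.sum_product', Nat.divisors_mul, Finset.mul_def, Finset.sum_image]
  intro x hx y hy h
  exact hmn.mul_injOn_divisors hx hy h

lemma conv_zero (a r : ℕ → ℝ) : conv a r 0 = 0 := by unfold conv; simp

lemma conv_eq_mul (f g : ArithmeticFunction ℝ) (n : ℕ) : conv f g n = (f * g) n := by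
  rw [ArithmeticFunction.mul_apply, Nat.sum_divisorsAntidiagonal (fun i j => f i * g j)]
  rfl

/-- block EX, strong form -/
theorem isCM_bt {T ε : ℝ} (b : ℕ) (hT : 1 < T) (hε : 0 < ε) : IsCM T ε b (conv (bt T ε b) (bt T ε b)) := by
  have hbig : ∀ n p : ℕ, p.Prime → p ∣ n → T ^ ε < (p : ℝ) → bt T ε b n = 0 := fun n p hp hd h =>
    bt_neg fun h2 => absurd (h2.1 p hp hd) (not_le.2 h)
  have hcbig : ∀ n p : ℕ, p.Prime → p ∣ n → T ^ ε < (p : ℝ) → conv (bt T ε b) (bt T ε b) n = 0 := by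
    intro n p hp hd h
    unfold conv
    refine Finset.sum_eq_zero fun d hd2 => ?_
    have h3 := Nat.mem_divisors.1 hd2
    have h4 : p ∣ d * (n / d) := by rw [Nat.mul_div_cancel' h3.1]; exact hd
    rcases (hp.dvd_mul).1 h4 with h5 | h5
    · rw [hbig d p hp h5 h, zero_mul]
    · rw [hbig (n / d) p hp h5 h, mul_zero]
  refine ⟨?_, ?_, hcbig, ?_, ?_, ?_⟩
  · unfold conv
    rw [Nat.divisors_one, Finset.sum_singleton]
    have h1 : bt T ε b 1 = 1 := by
      rw [bt_pos ⟨fun p hp hd => absurd (Nat.dvd_one.1 hd) hp.ne_one, fun j => by rw [om_one]; omega⟩]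
      exact (mf_mult al).1
    simp [h1]
  · intro m n hm hn hmn
    by_cases hex : ∃ p : ℕ, p.Prime ∧ T ^ ε < (p : ℝ) ∧ (p ∣ m ∨ p ∣ n)
    · obtain ⟨p, hp, hpT, h⟩ := hex
      rcases h with h | h
      · rw [hcbig m p hp h hpT, hcbig (m * n) p hp (h.mul_right n) hpT, zero_mul]
      · rw [hcbig n p hp h hpT, hcbig (m * n) p hp (h.mul_left m) hpT, mul_zero]
    · push Not at hex
      have hcop : m.Coprime n := by
        rw [Nat.coprime_iff_gcd_eq_one]
        by_contra hg
        obtain ⟨p, hp, hpg⟩ := Nat.exists_prime_and_dvd hg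
        have h1 := hpg.trans (Nat.gcd_dvd_left m n)
        have h2 := hpg.trans (Nat.gcd_dvd_right m n)
        have h3 : (p : ℝ) ≤ T ^ ε := by
          by_contra h4
          exact (hex p hp (not_le.1 h4)).1 h1
        obtain ⟨j, hj⟩ := exists_cell hT hp h3
        rcases hmn j with h5 | h5
        · exact absurd h5 (om_pos T ε hm hj h1).ne'
        · exact absurd h5 (om_pos T ε hn hj h2).ne'
      unfold conv
      rw [sum_divisors_coprime hcop, Finset.sum_mul_sum]
      refine Finset.sum_congr rfl fun d hd => Finset.sum_congr rfl fun e he => ?_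
      have hd1 := (Nat.mem_divisors.1 hd).1
      have he1 := (Nat.mem_divisors.1 he).1
      have hd0 : d ≠ 0 := fun h => hm (by rw [h] at hd1; exact Nat.eq_zero_of_zero_dvd hd1)
      have he0 : e ≠ 0 := fun h => hn (by rw [h] at he1; exact Nat.eq_zero_of_zero_dvd he1)
      have e1 : m * n / (d * e) = (m / d) * (n / e) := Nat.mul_div_mul_comm hd1 he1
      have hmd : m / d ∣ m := Nat.div_dvd_of_dvd hd1
      have hne : n / e ∣ n := Nat.div_dvd_of_dvd he1
      have hmd0 : m / d ≠ 0 := fun h => hm (by rw [h] at hmd; exact Nat.eq_zero_of_zero_dvd hmd)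
      have hne0 : n / e ≠ 0 := fun h => hn (by rw [h] at hne; exact Nat.eq_zero_of_zero_dvd hne)
      rw [e1, bt_mul hd0 he0 (Nat.Coprime.coprime_dvd_left hd1 (Nat.Coprime.coprime_dvd_right he1 hcop)),
        bt_mul hmd0 hne0 (Nat.Coprime.coprime_dvd_left hmd (Nat.Coprime.coprime_dvd_right hne hcop))]
      · ring
      · intro j
        rcases hmn j with h | h
        · exact Or.inl (Nat.le_zero.1 (h ▸ om_le_of_dvd T ε j hm hmd))
        · exact Or.inr (Nat.le_zero.1 (h ▸ om_le_of_dvd T ε j hn hne))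
      · intro j
        rcases hmn j with h | h
        · exact Or.inl (Nat.le_zero.1 (h ▸ om_le_of_dvd T ε j hm hd1))
        · exact Or.inr (Nat.le_zero.1 (h ▸ om_le_of_dvd T ε j hn he1))
  · intro n j h
    unfold conv
    refine Finset.sum_eq_zero fun d hd => ?_
    obtain ⟨hd1, hn0⟩ := Nat.mem_divisors.1 hd
    have hnd : n = d * (n / d) := (Nat.mul_div_cancel' hd1).symm
    have hd0 : d ≠ 0 := fun h2 => hn0 (by rw [h2] at hd1; exact Nat.eq_zero_of_zero_dvd hd1)
    have hnd0 : n / d ≠ 0 := fun h2 => hn0 (by rw [hnd, h2, mul_zero])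
    have h1 : Om T ε j n = Om T ε j d + Om T ε j (n / d) := by
      conv_lhs => rw [hnd]
      exact om_mul T ε j hd0 hnd0
    rcases le_or_gt (Om T ε j d) (b + j) with h2 | h2
    · have h3 : b + j < Om T ε j (n / d) := by omega
      rw [bt_neg (n := n / d) fun h4 => absurd (h4.2 j) (not_le.2 h3), mul_zero]
    · rw [bt_neg (n := d) fun h4 => absurd (h4.2 j) (not_le.2 h2), zero_mul]
  · intro n j hn hcell hom
    have h1 : ∀ d, d ∣ n → bt T ε b d = mf al d := by
      intro d hd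
      apply bt_pos
      constructor
      · intro p hp hpd
        refine (hcell p hp (hpd.trans hd)).2.2.trans ?_
        apply Real.rpow_le_rpow_of_exponent_le hT.le
        apply div_le_self hε.le
        exact one_le_pow₀ (by norm_num)
      · intro i
        rcases eq_or_ne i j with rfl | hij
        · exact (om_le_of_dvd T ε i hn hd).trans hom
        · have h2 : Om T ε i n = 0 := by
            classical
            unfold Om
            rw [List.length_eq_zero_iff, List.filter_eq_nil_iff]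
            intro p hp hpi
            have hp1 := (Nat.mem_primeFactorsList hn).1 hp
            have h3 := hcell p hp1.1 hp1.2
            have h4 : InCell T ε i p := by simpa using hpi
            rcases lt_or_gt_of_ne hij with h5 | h5
            · have h6 : T ^ (ε / 2 ^ j) ≤ T ^ (ε / 2 ^ (i + 1)) := by
                apply Real.rpow_le_rpow_of_exponent_le hT.le
                apply div_le_div_of_nonneg_left hε.le (by positivity)
                exact pow_le_pow_right₀ (by norm_num) (by omega)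
              exact absurd (h3.2.2.trans h6) (not_le.2 h4.2.1)
            · have h6 : T ^ (ε / 2 ^ i) ≤ T ^ (ε / 2 ^ (j + 1)) := by
                apply Real.rpow_le_rpow_of_exponent_le hT.le
                apply div_le_div_of_nonneg_left hε.le (by positivity)
                exact pow_le_pow_right₀ (by norm_num) (by omega)
              exact absurd (h4.2.2.trans h6) (not_le.2 h3.2.1)
          have := om_le_of_dvd T ε i hn hd
          omega
    have h2 : conv (bt T ε b) (bt T ε b) n = conv (mf al) (mf al) n := by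
      unfold conv
      refine Finset.sum_congr rfl fun d hd => ?_
      have hd1 := (Nat.mem_divisors.1 hd).1
      rw [h1 d hd1, h1 (n / d) (Nat.div_dvd_of_dvd hd1)]
    rw [h2, conv_eq_mul, mf_al_sq, intCoe_apply]
  · intro n
    unfold conv
    refine (Finset.abs_sum_le_sum_abs _ _).trans ?_
    have h := mf_abs_conv n
    rw [← conv_eq_mul] at h
    refine le_trans (Finset.sum_le_sum fun d _ => ?_) h
    rw [abs_mul]
    exact mul_le_mul (bt_abs_le T ε b d) (bt_abs_le T ε b (n / d)) (abs_nonneg _) (by rw [← mf_abs]; positivity)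

/-! ### supports -/

lemma sum_cells (b J : ℕ) : ∑ j ∈ range J, ((b : ℝ) + j) / 2 ^ j = 2 * b + 2 - (b + J + 1) * 2 / 2 ^ J := by
  induction J with
  | zero => simp; ring
  | succ J ih =>
    rw [sum_range_succ, ih, pow_succ]
    push_cast
    field_simp
    ring

lemma list_log_le {T ε : ℝ} (hT : 1 < T) (hε : 0 < ε) (J : ℕ) (l : List ℕ)
    (h : ∀ p ∈ l, p.Prime ∧ ∃ j < J, InCell T ε j p) :
    Real.log (l.prod : ℕ) ≤ ∑ j ∈ range J, (((by classical exact (l.filter (fun p => InCell T ε j p)).length) : ℕ) : ℝ) *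
      (ε / 2 ^ j * Real.log T) := by
  classical
  induction l with
  | nil => simp
  | cons p l ih =>
    have h1 := h p (List.mem_cons_self ..)
    have ih' := ih fun q hq => h q (List.mem_cons_of_mem _ hq)
    have hl : ((l.prod : ℕ) : ℝ) ≠ 0 := by
      have : l.prod ≠ 0 := by
        apply List.prod_ne_zero
        intro h0
        exact (h 0 (List.mem_cons_of_mem _ h0)).1.ne_zero rfl
      exact_mod_cast this
    have hp0 : (p : ℝ) ≠ 0 := by exact_mod_cast h1.1.ne_zero
    rw [List.prod_cons, Nat.cast_mul, Real.log_mul hp0 hl]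
    have hlogT : 0 < Real.log T := Real.log_pos hT
    obtain ⟨j₀, hj₀, hc⟩ := h1.2
    have e1 : ∀ j, (((p :: l).filter (fun p => InCell T ε j p)).length : ℝ) =
        ((l.filter (fun p => InCell T ε j p)).length : ℝ) + if InCell T ε j p then 1 else 0 := by
      intro j
      rw [List.filter_cons]
      by_cases hj : InCell T ε j p
      · simp [hj]
      · simp [hj]
    have e2 : Real.log p ≤ ∑ j ∈ range J, (if InCell T ε j p then (1 : ℝ) else 0) * (ε / 2 ^ j * Real.log T) := by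
      have h3 : Real.log p ≤ ε / 2 ^ j₀ * Real.log T := by
        have h4 : 0 < T := by linarith
        rw [← Real.log_rpow h4]
        exact Real.log_le_log (by exact_mod_cast h1.1.pos) hc.2.2
      refine h3.trans ?_
      have h5 := Finset.single_le_sum (f := fun j => (if InCell T ε j p then (1 : ℝ) else 0) * (ε / 2 ^ j * Real.log T))
        (fun j _ => by split_ifs <;> positivity) (mem_range.2 hj₀)
      simp only [hc, if_true, one_mul] at h5
      exact h5
    calc Real.log p + Real.log (l.prod : ℕ) ≤ _ := add_le_add e2 ih'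
      _ = _ := by
        rw [← Finset.sum_add_distrib]
        refine Finset.sum_congr rfl fun j _ => ?_
        rw [e1]
        ring

/-- numbers with primes `≤ T^ε` and `Om_j ≤ c (b + j)` are `≤ T^(c ε (2b+2))` -/
theorem size_le {T ε : ℝ} (hT : 1 < T) (hε : 0 < ε) (b c : ℕ) {n : ℕ} (hn : n ≠ 0)
    (h1 : ∀ p : ℕ, p.Prime → p ∣ n → (p : ℝ) ≤ T ^ ε) (h2 : ∀ j, Om T ε j n ≤ c * (b + j)) :
    (n : ℝ) ≤ T ^ (c * (ε * (2 * b + 2))) := by
  classical
  have hT0 : 0 < T := by linarith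
  have hlogT : 0 < Real.log T := Real.log_pos hT
  have hn0 : (0 : ℝ) < n := by exact_mod_cast Nat.pos_of_ne_zero hn
  have hcell : ∀ p ∈ n.primeFactorsList, ∃ j, InCell T ε j p := by
    intro p hp
    have hp1 := (Nat.mem_primeFactorsList hn).1 hp
    exact exists_cell hT hp1.1 (h1 p hp1.1 hp1.2)
  choose! jj hjj using hcell
  obtain ⟨J, hJ⟩ : ∃ J : ℕ, ∀ p ∈ n.primeFactorsList, jj p < J := by
    refine ⟨(n.primeFactorsList.toFinset.sup jj) + 1, fun p hp => Nat.lt_succ_of_le ?_⟩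
    exact Finset.le_sup (f := jj) (List.mem_toFinset.2 hp)
  have h3 := list_log_le hT hε J n.primeFactorsList fun p hp =>
    ⟨((Nat.mem_primeFactorsList hn).1 hp).1, jj p, hJ p hp, hjj p hp⟩
  rw [Nat.prod_primeFactorsList hn] at h3
  have h4 : Real.log n ≤ c * (ε * (2 * b + 2)) * Real.log T := by
    refine h3.trans ?_
    calc _ ≤ ∑ j ∈ range J, ((c : ℝ) * (b + j)) * (ε / 2 ^ j * Real.log T) := by
          refine Finset.sum_le_sum fun j _ => ?_
          apply mul_le_mul_of_nonneg_right _ (by positivity)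
          have := h2 j
          unfold Om at this
          exact_mod_cast this
      _ = c * ε * Real.log T * ∑ j ∈ range J, ((b : ℝ) + j) / 2 ^ j := by
          rw [Finset.mul_sum]
          exact Finset.sum_congr rfl fun j _ => by ring
      _ ≤ c * ε * Real.log T * (2 * b + 2) := by
          apply mul_le_mul_of_nonneg_left _ (by positivity)
          rw [sum_cells]
          have : 0 ≤ ((b : ℝ) + J + 1) * 2 / 2 ^ J := by positivity
          linarith
      _ = _ := by ring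
  calc (n : ℝ) = Real.exp (Real.log n) := (Real.exp_log hn0).symm
    _ ≤ Real.exp (c * (ε * (2 * b + 2)) * Real.log T) := Real.exp_le_exp.2 h4
    _ = T ^ (c * (ε * (2 * b + 2))) := by rw [Real.rpow_def_of_pos hT0]; ring_nf

/-- the length of `bt` -/
theorem bt_len {T ε : ℝ} (hT : 1 < T) (hε : 0 < ε) (b : ℕ) {n : ℕ} (h : bt T ε b n ≠ 0) :
    n ≠ 0 ∧ (n : ℝ) ≤ T ^ (ε * (2 * b + 2)) := by
  have hn : n ≠ 0 := fun h0 => h (by rw [h0, bt_zero])
  have h1 : (∀ p : ℕ, p.Prime → p ∣ n → (p : ℝ) ≤ T ^ ε) ∧ ∀ j, Om T ε j n ≤ b + j := by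
    by_contra hcon
    exact h (bt_neg hcon)
  refine ⟨hn, ?_⟩
  have := size_le hT hε b 1 hn h1.1 (fun j => by rw [one_mul]; exact h1.2 j)
  simpa using this

/-- the length of a cell mollifier -/
theorem cm_len {T ε : ℝ} (hT : 1 < T) (hε : 0 < ε) {b : ℕ} {a : ℕ → ℝ} (ha : IsCM T ε b a) {n : ℕ} (hn : n ≠ 0)
    (h : a n ≠ 0) : (n : ℝ) ≤ T ^ (2 * (ε * (2 * b + 2))) := by
  have := size_le hT hε b 2 hn (fun p hp hd => by
    by_contra hcon
    exact h (ha.big n p hp hd (not_le.1 hcon))) (fun j => by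
    by_contra hcon
    exact h (ha.supp n j (not_le.1 hcon)))
  simpa using this

/-- `|bt| ≤ 1` -/
theorem bt_le_one (T ε : ℝ) (b n : ℕ) : |bt T ε b n| ≤ 1 := by
  refine (bt_abs_le T ε b n).trans ?_
  rcases eq_or_ne n 0 with rfl | hn
  · simp
  rw [mf_apply _ hn, Finsupp.prod]
  refine Finset.prod_le_one (fun p _ => alb_nonneg _) fun p _ => ?_
  have h1 := al_abs_conv (n.factorization p)
  have h2 : |al 0| * |al (n.factorization p)| ≤ ∑ ij ∈ antidiagonal (n.factorization p), |al ij.1| * |al ij.2| :=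
    Finset.single_le_sum (f := fun ij : ℕ × ℕ => |al ij.1| * |al ij.2|) (fun _ _ => by positivity)
      (mem_antidiagonal.2 (zero_add _) : (0, n.factorization p) ∈ antidiagonal (n.factorization p))
  rw [al_zero, abs_one, one_mul] at h2
  exact h2.trans h1

theorem ex : ∀ (T ε : ℝ) (b : ℕ), 1 < T → 0 < ε → ∃ a : ℕ → ℝ, IsCM T ε b a :=
  fun _ _ b hT hε => ⟨_, isCM_bt b hT hε⟩

end Pool.Agent.Helper49.HG
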