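import Pool.Agent.Helper49.HG.Ne

/-!
# Hall gaps, NG: very long gaps are rare
-/

set_option autoImplicit false

namespace Pool.Agent.Helper49.HG

open Complex Set MeasureTheory Filter Topology
open scoped FourierTransform SchwartzMap ComplexConjugate
open Pool.Agent.HL9 Pool.Agent.Helper69.HG Pool.Agent.Helper44.HL
open Pool.Agent.Helper57.ED hiding qq

noncomputable section

lemma log_dev {T t : ℝ} (hT : 2 ≤ T) (ht : t ∈ Icc T (2 * T + 1)) : |Real.log (t / (2 * Real.pi)) - Real.log T| ≤ 2 := by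
  have hT0 : 0 < T := by linarith
  have ht0 : 0 < t := by linarith [ht.1]
  have hp : 0 < 2 * Real.pi := by positivity
  have e : Real.log (t / (2 * Real.pi)) - Real.log T = Real.log (t / (2 * Real.pi) / T) :=
    (Real.log_div (show t / (2 * Real.pi) ≠ 0 by positivity) hT0.ne').symm
  have hx : 0 < t / (2 * Real.pi) / T := by positivity
  have he : (7 : ℝ) ≤ Real.exp 2 := by
    have h1 := Real.exp_one_gt_d9
    have h2 : Real.exp 2 = Real.exp 1 * Real.exp 1 := by rw [← Real.exp_add]; norm_num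
    rw [h2]; nlinarith
  have hpi := Real.pi_lt_d2
  have hpi2 := Real.pi_gt_three
  rw [e, abs_le]
  constructor
  · rw [Real.le_log_iff_exp_le hx, Real.exp_neg]
    have h1 : (Real.exp 2)⁻¹ ≤ 7⁻¹ := inv_anti₀ (by norm_num) he
    refine h1.trans ?_
    rw [le_div_iff₀ hT0, le_div_iff₀ hp]
    have := ht.1
    nlinarith
  · rw [Real.log_le_iff_le_exp hx]
    refine le_trans ?_ (le_trans (by norm_num : (1 : ℝ) ≤ 7) he)
    rw [div_le_iff₀ hT0, div_le_iff₀ hp]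
    have := ht.2
    nlinarith

theorem ng_core {T s A IA IB I₇ : ℝ} (X : ℕ) (β : ℕ → ℝ) (hT : 2 ≤ T) (hs : 1 ≤ s) (hA : 0 < A) (hH : A / s ≤ 1)
    (hAi : Integrable (fun t : ℝ => PW (T + 1 / 2) (t - 3 * T / 2) * ‖fA s (Real.log T / 2) X β t‖ ^ 2))
    (hAI : ∫ t : ℝ, PW (T + 1 / 2) (t - 3 * T / 2) * ‖fA s (Real.log T / 2) X β t‖ ^ 2 ≤ IA)
    (hBi : Integrable (fun t : ℝ => PW (T + 1 / 2) (t - 3 * T / 2) * ‖fB s X β t‖ ^ 2))
    (hBI : ∫ t : ℝ, PW (T + 1 / 2) (t - 3 * T / 2) * ‖fB s X β t‖ ^ 2 ≤ IB)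
    (hFi : Integrable (fun t : ℝ => PW (T + 1 / 2) (t - 3 * T / 2) * (‖ze t‖ * ‖Mo X β (1 / 2 + I * t)‖ ^ 2) ^ 2))
    (hFI : ∫ t : ℝ, PW (T + 1 / 2) (t - 3 * T / 2) * (‖ze t‖ * ‖Mo X β (1 / 2 + I * t)‖ ^ 2) ^ 2 ≤ I₇) :
    volume {t : ℝ | t ∈ Icc T (2 * T) ∧ ∀ u ∈ Ioo t (t + 2 * (A / s)), ze u ≠ 0} ≤
      ENNReal.ofReal (160 * T * IA) + ENNReal.ofReal (640 * T * ((∫ v in {v : ℝ | A ≤ |v|}, kk v) * MK 2 * I₇)) +
      ENNReal.ofReal (160 * T * (((13 / T + 1 / s) * MK 2) * ((13 / T + 1 / s) * MK 4) * I₇)) +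
      ENNReal.ofReal (160 * T * IB) := by
  have hT0 : 0 < T := by linarith
  have hs0 : 0 < s := by linarith
  set F : ℝ → ℝ := fun t => ‖ze t‖ * ‖Mo X β (1 / 2 + I * t)‖ ^ 2 with hF
  have hFc : Continuous F := continuous_ze44.norm.mul ((Mo_cont X β).norm.pow 2)
  have hF0 : ∀ t, 0 ≤ F t := fun t => by rw [hF]; positivity
  set H : ℝ := A / s with hHd
  have hH0 : 0 < H := by positivity
  have v1 := markov_pw hT hAi hAI
  have v2 := meas_tail hT hs A hF0 hFc.measurable hFi hFI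
  have v3 := meas_err hT hs hF0 hFc.measurable hFi hFI
  have v4 := markov_pw hT hBi hBI
  set S1 := {t : ℝ | t ∈ Icc T (2 * T + 1) ∧ 1 / 4 ≤ ‖fA s (Real.log T / 2) X β t‖} with hS1
  set S2 := {t : ℝ | t ∈ Icc T (2 * T + 1) ∧ 1 / 8 ≤ ∫ u, K1 s A u * F (t - u)} with hS2
  set S3 := {t : ℝ | t ∈ Icc T (2 * T + 1) ∧ 1 / 4 ≤ ∫ u, K2 s T u * F (t - u)} with hS3
  set S4 := {t : ℝ | t ∈ Icc T (2 * T + 1) ∧ 1 / 4 ≤ ‖fB s X β t‖} with hS4
  have hsub : {t : ℝ | t ∈ Icc T (2 * T) ∧ ∀ u ∈ Ioo t (t + 2 * H), ze u ≠ 0} ⊆ (fun t => t + H) ⁻¹' (S1 ∪ S2 ∪ S3 ∪ S4) := by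
    rintro t ⟨ht, hz⟩
    rw [mem_preimage]
    set t' : ℝ := t + H with ht'
    have hI : t' ∈ Icc T (2 * T + 1) := ⟨by linarith [ht.1], by linarith [ht.2]⟩
    have ht0 : 0 < t' := by linarith [hI.1]
    have hz' : ∀ u ∈ Ioo (t' - H) (t' + H), ze u ≠ 0 := fun u hu => hz u ⟨by linarith [hu.1], by linarith [hu.2]⟩
    have hp := point_ineq (s := s) (H := H) (L₀ := Real.log T) (t := t') X β hs0 hH0 ht0 hz'
    have eb : (∫ u in {u : ℝ | H ≤ |u|}, s * kk (s * u) * (‖ze (t' - u)‖ * ‖Mo X β (1 / 2 + I * ((t' - u : ℝ) : ℂ))‖ ^ 2)) =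
        ∫ u, K1 s A u * F (t' - u) := by
      rw [← integral_indicator (K1_set_meas s A)]
      congr 1
      funext u
      unfold K1
      by_cases h : A / s ≤ |u|
      · rw [indicator_of_mem (show u ∈ {u : ℝ | A / s ≤ |u|} from h), indicator_of_mem (show u ∈ {u : ℝ | A / s ≤ |u|} from h)]
      · rw [indicator_of_notMem (show u ∉ {u : ℝ | A / s ≤ |u|} from h), indicator_of_notMem (show u ∉ {u : ℝ | A / s ≤ |u|} from h),
          zero_mul]
    have ec : (∫ u : ℝ, s * kk (s * u) * (13 * (1 + u ^ 2) / t' + |u| * |Real.log (t' / (2 * Real.pi)) - Real.log T| / 2) *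
        (‖ze (t' - u)‖ * ‖Mo X β (1 / 2 + I * ((t' - u : ℝ) : ℂ))‖ ^ 2)) ≤ ∫ u, K2 s T u * F (t' - u) := by
      obtain ⟨M, hM⟩ := Mo_bdd X β
      have hM0 : 0 ≤ M := (norm_nonneg _).trans (hM 0)
      have hFb : ∀ u, F (t' - u) ≤ 5 * (1 + |t'|) * M ^ 2 * (1 + |u|) := by
        intro u
        have h1 : ‖ze (t' - u)‖ ≤ 5 * (1 + |t' - u|) := nzhl49 (t' - u)
        have h2 : |t' - u| ≤ |t'| + |u| := abs_sub _ _
        have h3 : ‖Mo X β (1 / 2 + I * ((t' - u : ℝ) : ℂ))‖ ^ 2 ≤ M ^ 2 := pow_le_pow_left₀ (norm_nonneg _) (hM _) 2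
        have h4 : 5 * (1 + |t' - u|) ≤ 5 * (1 + |t'|) * (1 + |u|) := by
          have := mul_nonneg (abs_nonneg t') (abs_nonneg u)
          nlinarith
        calc F (t' - u) ≤ (5 * (1 + |t'|) * (1 + |u|)) * M ^ 2 := by
              apply mul_le_mul (h1.trans h4) h3 (sq_nonneg _) (by positivity)
          _ = _ := by ring
      have hg : Integrable (fun u : ℝ => s * kk (s * u) * ((13 * (1 + u ^ 2) / T + |u|) * F (t' - u))) := by
        refine int_wg44 hs0 (m := 3) (A := 14 * (5 * (1 + |t'|) * M ^ 2)) ?_ (fun u => ?_)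
        · exact (by fun_prop : Continuous fun u : ℝ => 13 * (1 + u ^ 2) / T + |u|).mul (hFc.comp (continuous_const.sub continuous_id))
        · have ha := abs_nonneg u
          have h0 : 0 ≤ 13 * (1 + u ^ 2) / T + |u| := by positivity
          rw [abs_of_nonneg (mul_nonneg h0 (hF0 _))]
          have h1 : 13 * (1 + u ^ 2) / T + |u| ≤ 14 * (1 + |u|) ^ 2 := by
            have h2 : 13 * (1 + u ^ 2) / T ≤ 13 * (1 + u ^ 2) := div_le_self (by positivity) (by linarith)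
            nlinarith [sq_abs u]
          calc (13 * (1 + u ^ 2) / T + |u|) * F (t' - u) ≤ (14 * (1 + |u|) ^ 2) * (5 * (1 + |t'|) * M ^ 2 * (1 + |u|)) :=
                mul_le_mul h1 (hFb u) (hF0 _) (by positivity)
            _ = _ := by ring
      refine integral_mono_of_nonneg (Eventually.of_forall fun u => ?_) ?_ (Eventually.of_forall fun u => ?_)
      · have := kk_nonneg (s * u)
        show 0 ≤ s * kk (s * u) * (13 * (1 + u ^ 2) / t' + |u| * |Real.log (t' / (2 * Real.pi)) - Real.log T| / 2) *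
          (‖ze (t' - u)‖ * ‖Mo X β (1 / 2 + I * ((t' - u : ℝ) : ℂ))‖ ^ 2)
        positivity
      · refine hg.congr (Eventually.of_forall fun u => ?_)
        show s * kk (s * u) * ((13 * (1 + u ^ 2) / T + |u|) * F (t' - u)) = K2 s T u * F (t' - u)
        unfold K2; ring
      · show s * kk (s * u) * (13 * (1 + u ^ 2) / t' + |u| * |Real.log (t' / (2 * Real.pi)) - Real.log T| / 2) * F (t' - u) ≤
          K2 s T u * F (t' - u)
        apply mul_le_mul_of_nonneg_right _ (hF0 _)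
        unfold K2
        have hk := kk_nonneg (s * u)
        apply mul_le_mul_of_nonneg_left _ (by positivity)
        have h1 := log_dev hT hI
        have h2 : 13 * (1 + u ^ 2) / t' ≤ 13 * (1 + u ^ 2) / T := div_le_div_of_nonneg_left (by positivity) hT0 hI.1
        have h3 := mul_le_mul_of_nonneg_left h1 (abs_nonneg u)
        linarith
    rw [eb] at hp
    by_contra hcon
    simp only [mem_union, not_or] at hcon
    obtain ⟨⟨⟨n1, n2⟩, n3⟩, n4⟩ := hcon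
    have m1 : ‖fA s (Real.log T / 2) X β t'‖ < 1 / 4 := by
      by_contra h; exact n1 ⟨hI, not_lt.1 h⟩
    have m2 : ∫ u, K1 s A u * F (t' - u) < 1 / 8 := by
      by_contra h; exact n2 ⟨hI, not_lt.1 h⟩
    have m3 : ∫ u, K2 s T u * F (t' - u) < 1 / 4 := by
      by_contra h; exact n3 ⟨hI, not_lt.1 h⟩
    have m4 : ‖fB s X β t'‖ < 1 / 4 := by
      by_contra h; exact n4 ⟨hI, not_lt.1 h⟩
    linarith
  refine (measure_mono hsub).trans ?_
  rw [measure_preimage_add_right]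
  refine (measure_union_le _ _).trans (add_le_add ((measure_union_le _ _).trans (add_le_add ((measure_union_le _ _).trans
    (add_le_add v1 v2)) v3)) v4)

/-- very long gaps are rare -/
theorem ng (hCS : CS) (hSV : SV) : NG := by
  obtain ⟨C₇, hC₇, b₇, h7⟩ := Pool.Agent.Helper33.HG.n7 hCS hSV
  obtain ⟨-, c₀, C₀, hc₀, hC₀, hCS⟩ := hCS
  obtain ⟨D, hD⟩ := dqq
  intro e he
  obtain ⟨b₆, h6⟩ := Pool.Agent.Helper66.HG.n6 (e / 2560) (by positivity)
  obtain ⟨b₁, h1⟩ := hSV 1 1 one_pos one_pos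
  set b : ℕ := max b₆ (max b₁ b₇) with hb
  obtain ⟨ε₁, hε₁, h1⟩ := h1 b ((le_max_left _ _).trans (le_max_right _ _))
  obtain ⟨ε₇, hε₇, h7⟩ := h7 b ((le_max_right _ _).trans (le_max_right _ _))
  have h6 := h6 b (le_max_left _ _)
  have hb0 : (0 : ℝ) ≤ b := Nat.cast_nonneg _
  set ε : ℝ := min (min ε₁ ε₇) (min (1 / 80) (1 / (80 * (2 * b + 2)))) with hεd
  have hε : 0 < ε := by rw [hεd]; positivity
  have hε1 : ε ≤ ε₁ := (min_le_left _ _).trans (min_le_left _ _)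
  have hε7 : ε ≤ ε₇ := (min_le_left _ _).trans (min_le_right _ _)
  have hε80 : ε ≤ 1 / 80 := (min_le_right _ _).trans (min_le_left _ _)
  have hθ : ε * (2 * b + 2) ≤ 1 / 80 := by
    have h2 : ε ≤ 1 / (80 * (2 * b + 2)) := (min_le_right _ _).trans (min_le_right _ _)
    rw [le_div_iff₀ (by positivity)] at h2
    linarith
  clear_value ε
  obtain ⟨T₁, h1⟩ := h1 ε hε hε1
  obtain ⟨T₇, h7⟩ := h7 ε hε hε7
  obtain ⟨T₂, h2⟩ := hCS ε hε (by linarith)
  set cq : ℝ := ∫ y, qq y ^ 2 with hcq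
  have hcq0 : 0 ≤ cq := integral_nonneg fun y => sq_nonneg _
  set K : ℝ := max (8 / ε) (5120 * cq * C₀ / (ε * e)) with hK
  have hK1 : 8 / ε ≤ K := le_max_left _ _
  have hK2 : 5120 * cq * C₀ / (ε * e) ≤ K := le_max_right _ _
  have hK0 : 0 < K := lt_of_lt_of_le (by positivity) hK1
  clear_value K
  have hKθ : 4 / (ε * (2 * b + 2)) ≤ K := by
    refine le_trans ?_ hK1
    rw [div_le_div_iff₀ (by positivity) hε]
    nlinarith [mul_nonneg hε.le hb0]
  have hM2 := MK_nonneg 2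
  have hM4 := MK_nonneg 4
  obtain ⟨A, hA, htail⟩ := tail_kk (δ := e / (2560 * ((MK 2 + 1) * (C₇ / ε)))) (by positivity)
  obtain ⟨l1, l2⟩ := tiny_lim D
  have l3 : Tendsto (fun T : ℝ => 160 * (((13 / T + 1 / (Real.log T / K)) * MK 2) * ((13 / T + 1 / (Real.log T / K)) * MK 4) *
      (C₇ / ε))) atTop (𝓝 0) := by
    have q1 : Tendsto (fun T : ℝ => 13 / T) atTop (𝓝 0) := tendsto_const_nhds.div_atTop tendsto_id
    have q2 : Tendsto (fun T : ℝ => 1 / (Real.log T / K)) atTop (𝓝 0) :=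
      tendsto_const_nhds.div_atTop (Real.tendsto_log_atTop.atTop_div_const hK0)
    have q3 := q1.add q2
    have q4 := (((q3.mul_const (MK 2)).mul (q3.mul_const (MK 4))).mul_const (C₇ / ε)).const_mul 160
    simpa using q4
  have ev : ∀ᶠ T : ℝ in atTop, 2 ≤ T ∧ K ≤ Real.log T ∧ A * K ≤ Real.log T ∧ 2 ≤ T ^ (ε / 2) ∧
      (2 * (16 * (1 + 2 * D) * T ^ (-(1 / 4) : ℝ) + 4 * T ^ 2 * Real.exp (-(T ^ (1 / 4 : ℝ) / 2))) +
        4 * Aq ^ 2 * T ^ (-(1 / 4) : ℝ)) ≤ e / 1280 ∧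
      (2 * (T ^ 4 * Real.exp (-(T ^ (1 / 2 : ℝ)))) + 4 * Aq ^ 2 * T ^ (-(1 / 4) : ℝ)) ≤ e / 1280 ∧
      160 * (((13 / T + 1 / (Real.log T / K)) * MK 2) * ((13 / T + 1 / (Real.log T / K)) * MK 4) * (C₇ / ε)) ≤ e / 4 ∧
      T₁ ≤ T ∧ T₂ ≤ T ∧ T₇ ≤ T := by
    filter_upwards [eventually_ge_atTop 2, Real.tendsto_log_atTop.eventually_ge_atTop K,
      Real.tendsto_log_atTop.eventually_ge_atTop (A * K),
      (tendsto_rpow_atTop (by positivity : 0 < ε / 2)).eventually_ge_atTop 2,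
      l1.eventually_le_const (by positivity : (0 : ℝ) < e / 1280), l2.eventually_le_const (by positivity : (0 : ℝ) < e / 1280),
      l3.eventually_le_const (by positivity : (0 : ℝ) < e / 4), eventually_ge_atTop T₁, eventually_ge_atTop T₂,
      eventually_ge_atTop T₇] with T g1 g2 g3 g4 g5 g6 g7 g8 g9 g10
    exact ⟨g1, g2, g3, g4, g5, g6, g7, g8, g9, g10⟩
  obtain ⟨T₀, hT₀⟩ := eventually_atTop.1 ev
  refine ⟨2 * (A * K), T₀, by positivity, fun T hT => ?_⟩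
  obtain ⟨g1, g2, g3, g4, g5, g6, g7, g8, g9, g10⟩ := hT₀ T hT
  have hT0 : 0 < T := by linarith
  have hT1 : 1 < T := by linarith
  have hL : 0 < Real.log T := Real.log_pos hT1
  set β : ℕ → ℝ := bt T ε b with hβ
  set a : ℕ → ℝ := conv β β with ha
  have hCM : IsCM T ε b a := isCM_bt b hT1 hε
  set X : ℕ := ⌊T ^ (ε * (2 * b + 2))⌋₊ with hX
  have hβX : ∀ n, β n ≠ 0 → n ≤ X := by
    intro n hn
    rw [hX]
    exact Nat.le_floor (bt_len hT1 hε b hn).2
  have hXM : X * X ≤ XM T := by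
    unfold XM
    apply Nat.le_floor
    have h3 : (X : ℝ) ≤ T ^ (ε * (2 * b + 2)) := Nat.floor_le (by positivity)
    push_cast
    calc (X : ℝ) * X ≤ T ^ (ε * (2 * b + 2)) * T ^ (ε * (2 * b + 2)) := mul_le_mul h3 h3 (Nat.cast_nonneg _) (by positivity)
      _ = T ^ (ε * (2 * b + 2) + ε * (2 * b + 2)) := (Real.rpow_add hT0 _ _).symm
      _ ≤ T ^ (1 / 40 : ℝ) := Real.rpow_le_rpow_of_exponent_le hT1.le (by linarith)
  have hasupp : ∀ n, a n ≠ 0 → n ≤ X * X := fun n hn => conv_supp hβX n hn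
  set s : ℝ := Real.log T / K with hs
  have hs1 : 1 ≤ s := by rw [hs, le_div_iff₀ hK0]; linarith
  have hs0 : 0 < s := by linarith
  have hH : A / s ≤ 1 := by rw [hs, div_div_eq_mul_div, div_le_one hL]; exact g3
  obtain ⟨a1, a2⟩ := n8a_ineq (T := T) (K := K) (D := D) (ε := ε) (b := b) hT1 hε hθ hKθ g2 hD X rfl (3 * T / 2)
  obtain ⟨b1, b2⟩ := n8b_ineq (T := T) (K := K) (ε := ε) (b := b) g1 hε hε80 hθ hK1 g2 X rfl (3 * T / 2) g4
  obtain ⟨f1, f2⟩ := h7 T g10 a hCM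
  have eF : ∀ t : ℝ, (‖ze t‖ * ‖Mo X β (1 / 2 + I * t)‖ ^ 2) ^ 2 = ‖ze t‖ ^ 2 * ‖Mo (XM T) a (1 / 2 + I * t)‖ ^ 2 := by
    intro t
    rw [Mo_ext hXM hasupp, ← sq_Mo hβX, norm_pow, mul_pow]
  simp only [← eF] at f1 f2
  have hcore := ng_core X β g1 hs1 hA hH a1 a2 b1 b2 f1 f2
  have e1 : 2 * (A * K) / Real.log T = 2 * (A / s) := by
    rw [hs]; field_simp
  rw [e1]
  refine hcore.trans ?_
  -- the four parts
  have hV : Real.log T * Vp T ε ≤ C₀ / ε := (h2 T g9).2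
  have hQ : Ql (X * X) a (1 / 2) ≤ 2 * Vp T ε := by
    have h3 := (h1 T g8 a hCM (1 / 2) le_rfl (by
      have : 0 < 1 / Real.log T := by positivity
      linarith)).1
    rw [Ql_ext hXM hasupp] at h3
    have h4 := (abs_le.1 h3).2
    linarith
  have p1 : 160 * T * (2 * (Real.log T / K * cq * Ql (X * X) a (1 / 2) + 16 * (1 + 2 * D) * T ^ (-(1 / 4) : ℝ) +
      4 * T ^ 2 * Real.exp (-(T ^ (1 / 4 : ℝ) / 2))) + 4 * Aq ^ 2 * T ^ (-(1 / 4) : ℝ)) ≤ e / 4 * T := by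
    have q1 : Real.log T / K * cq * Ql (X * X) a (1 / 2) ≤ e / 2560 := by
      have q2 : Real.log T / K * cq * Ql (X * X) a (1 / 2) ≤ Real.log T / K * cq * (2 * Vp T ε) :=
        mul_le_mul_of_nonneg_left hQ (by positivity)
      have q3 : Real.log T / K * cq * (2 * Vp T ε) = 2 * cq * (Real.log T * Vp T ε) / K := by ring
      have q4 : 2 * cq * (Real.log T * Vp T ε) / K ≤ 2 * cq * (C₀ / ε) / K :=
        div_le_div_of_nonneg_right (mul_le_mul_of_nonneg_left hV (by positivity)) hK0.le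
      have q5 : 2 * cq * (C₀ / ε) / K ≤ e / 2560 := by
        rw [div_le_iff₀ (by positivity)] at hK2
        rw [div_le_iff₀ hK0, ← mul_div_assoc, div_le_iff₀ hε]
        nlinarith
      linarith
    nlinarith
  have p2 : 640 * T * ((∫ v in {v : ℝ | A ≤ |v|}, kk v) * MK 2 * (C₇ / ε)) ≤ e / 4 * T := by
    have i0 : 0 ≤ ∫ v in {v : ℝ | A ≤ |v|}, kk v := integral_nonneg fun v => kk_nonneg v
    have hCε : 0 < C₇ / ε := by positivity
    have q1 : (∫ v in {v : ℝ | A ≤ |v|}, kk v) * MK 2 * (C₇ / ε) ≤ e / 2560 := by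
      rw [le_div_iff₀ (by positivity)] at htail
      have q2 : (∫ v in {v : ℝ | A ≤ |v|}, kk v) * (MK 2 * (C₇ / ε)) ≤ (∫ v in {v : ℝ | A ≤ |v|}, kk v) * ((MK 2 + 1) * (C₇ / ε)) := by
        apply mul_le_mul_of_nonneg_left _ i0
        apply mul_le_mul_of_nonneg_right _ hCε.le
        linarith
      rw [le_div_iff₀ (by norm_num)]
      linarith
    nlinarith
  have p3 : 160 * T * (((13 / T + 1 / s) * MK 2) * ((13 / T + 1 / s) * MK 4) * (C₇ / ε)) ≤ e / 4 * T := by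
    have := mul_le_mul_of_nonneg_right g7 hT0.le
    linarith
  have p4 : 160 * T * (2 * ((∑ m ∈ Finset.Icc 2 ⌊T ^ ε⌋₊, lam a m ^ 2 / m) + T ^ 4 * Real.exp (-(T ^ (1 / 2 : ℝ)))) +
      4 * Aq ^ 2 * T ^ (-(1 / 4) : ℝ)) ≤ e / 4 * T := by
    have q1 := h6 ε T hε hT1 a hCM
    nlinarith
  have r : ENNReal.ofReal (e * T) = ENNReal.ofReal (e / 4 * T) + ENNReal.ofReal (e / 4 * T) + ENNReal.ofReal (e / 4 * T) +
      ENNReal.ofReal (e / 4 * T) := by
    rw [← ENNReal.ofReal_add (by positivity) (by positivity), ← ENNReal.ofReal_add (by positivity) (by positivity),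
      ← ENNReal.ofReal_add (by positivity) (by positivity)]
    congr 1; ring
  rw [r]
  exact add_le_add (add_le_add (add_le_add (ENNReal.ofReal_le_ofReal p1) (ENNReal.ofReal_le_ofReal p2))
    (ENNReal.ofReal_le_ofReal p3)) (ENNReal.ofReal_le_ofReal p4)

end

end Pool.Agent.Helper49.HG
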