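import Pool.Agent.Helper57.ED.PoA

/-!
# Hall gaps, NG: mean squares of exponential sums with the Poisson weight
-/

set_option autoImplicit false

open MeasureTheory Set Filter Topology

namespace Pool.Agent.Helper49.HG

open Pool.Agent.Helper57.ED

theorem ft_PW_pos {W : ℝ} (τ : ℝ) {ω : ℝ} (hW : 0 < W) (hω : 0 ≤ ω) :
    ∫ t : ℝ, (PW W (t - τ) : ℂ) * Complex.exp (-(ω * (t * Complex.I))) =
      Complex.exp (-(ω * ((W : ℝ) + τ * Complex.I))) := by
  have hd : DifferentiableOn ℂ (fun s : ℂ => Complex.exp (-(ω * s))) {s : ℂ | (-1 : ℝ) < s.re} := by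
    apply Differentiable.differentiableOn
    fun_prop
  have h := poisson_bdd (f := fun s : ℂ => Complex.exp (-(ω * s))) (c := -1) (σ := 0) (W := W) (τ := τ) (K := 1)
    (by norm_num) hd (fun s hs => by
      rw [Complex.norm_exp]
      apply Real.exp_le_one_iff.2
      simp only [Complex.neg_re, Complex.mul_re, Complex.ofReal_re, Complex.ofReal_im, zero_mul, sub_zero]
      have := mul_nonneg hω hs
      linarith) hW
  simp only [Complex.ofReal_zero, zero_add] at h
  exact h.symm

/-- the Fourier transform of the Poisson weight -/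
theorem cos_PW {W : ℝ} (τ ω : ℝ) (hW : 0 < W) :
    Integrable (fun t : ℝ => PW W (t - τ) * Real.cos (ω * t)) ∧
      ∫ t : ℝ, PW W (t - τ) * Real.cos (ω * t) = Real.exp (-(W * |ω|)) * Real.cos (ω * τ) := by
  have hPI : Integrable (fun t : ℝ => PW W (t - τ)) := (integral_PW hW).1.comp_sub_right τ
  have hcont : Continuous (fun t : ℝ => PW W (t - τ)) := by
    unfold PW
    apply Continuous.div (by fun_prop) (by fun_prop)
    intro t
    have := Real.pi_pos
    positivity
  have hint : ∀ ω : ℝ, Integrable (fun t : ℝ => PW W (t - τ) * Real.cos (ω * t)) := by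
    intro ω
    refine hPI.mul_bdd (c := 1) (by fun_prop) (Eventually.of_forall fun t => ?_)
    rw [Real.norm_eq_abs]; exact Real.abs_cos_le_one _
  refine ⟨hint ω, ?_⟩
  have hpos : ∀ ω : ℝ, 0 ≤ ω → ∫ t : ℝ, PW W (t - τ) * Real.cos (ω * t) = Real.exp (-(W * ω)) * Real.cos (ω * τ) := by
    intro ω hω
    have h := ft_PW_pos τ hW hω
    have hI : Integrable (fun t : ℝ => (PW W (t - τ) : ℂ) * Complex.exp (-(ω * (t * Complex.I)))) := by
      refine hPI.ofReal.mul_bdd (c := 1) (by fun_prop) (Eventually.of_forall fun t => ?_)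
      rw [Complex.norm_exp]
      simp
    have h2 := congrArg Complex.re h
    rw [← RCLike.re_eq_complex_re, ← integral_re hI] at h2
    simp only [RCLike.re_eq_complex_re] at h2
    have e1 : ∀ t : ℝ, ((PW W (t - τ) : ℂ) * Complex.exp (-(ω * (t * Complex.I)))).re = PW W (t - τ) * Real.cos (ω * t) := by
      intro t
      rw [Complex.re_ofReal_mul, Complex.exp_re]
      simp
    have e2 : (Complex.exp (-(ω * ((W : ℝ) + τ * Complex.I)))).re = Real.exp (-(W * ω)) * Real.cos (ω * τ) := by
      rw [Complex.exp_re]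
      simp
      ring_nf
      simp
    simp only [e1, e2] at h2
    exact h2
  rcases le_total 0 ω with h | h
  · rw [abs_of_nonneg h]; exact hpos ω h
  · have h1 := hpos (-ω) (by linarith)
    rw [abs_of_nonpos h]
    simpa [neg_mul, Real.cos_neg] using h1

variable {ι : Type*}

lemma sq_sum (s : Finset ι) (C lam : ι → ℝ) (t : ℝ) :
    ‖∑ i ∈ s, (C i : ℂ) * Complex.exp (-(Complex.I * (lam i * t)))‖ ^ 2 =
      ∑ i ∈ s, ∑ j ∈ s, C i * C j * Real.cos ((lam i - lam j) * t) := by
  have h1 : ∀ i, (C i : ℂ) * Complex.exp (-(Complex.I * (lam i * t))) =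
      ((C i * Real.cos (lam i * t) : ℝ) : ℂ) + ((-(C i * Real.sin (lam i * t)) : ℝ) : ℂ) * Complex.I := by
    intro i
    have e : -(Complex.I * (lam i * t)) = ((-(lam i * t) : ℝ) : ℂ) * Complex.I := by push_cast; ring
    rw [e]
    apply Complex.ext
    · rw [Complex.re_ofReal_mul, Complex.exp_ofReal_mul_I_re]
      simp only [Complex.add_re, Complex.ofReal_re, Complex.mul_re, Complex.ofReal_im, Complex.I_re, Complex.I_im,
        Real.cos_neg]
      ring
    · rw [Complex.im_ofReal_mul, Complex.exp_ofReal_mul_I_im]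
      simp only [Complex.add_im, Complex.ofReal_re, Complex.mul_im, Complex.ofReal_im, Complex.I_re, Complex.I_im,
        Real.sin_neg]
      ring
  simp only [h1]
  rw [Finset.sum_add_distrib, ← Finset.sum_mul, ← Complex.ofReal_sum, ← Complex.ofReal_sum, ← Complex.normSq_eq_norm_sq,
    Complex.normSq_add_mul_I, Finset.sum_neg_distrib, neg_sq, sq, sq, Finset.sum_mul_sum, Finset.sum_mul_sum,
    ← Finset.sum_add_distrib]
  refine Finset.sum_congr rfl fun i _ => ?_
  rw [← Finset.sum_add_distrib]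
  refine Finset.sum_congr rfl fun j _ => ?_
  rw [sub_mul, Real.cos_sub]
  ring

/-- mean square with the Poisson weight, exact -/
theorem pw_sq {W : ℝ} (τ : ℝ) (hW : 0 < W) (s : Finset ι) (C lam : ι → ℝ) :
    Integrable (fun t : ℝ => PW W (t - τ) * ‖∑ i ∈ s, (C i : ℂ) * Complex.exp (-(Complex.I * (lam i * t)))‖ ^ 2) ∧
    ∫ t : ℝ, PW W (t - τ) * ‖∑ i ∈ s, (C i : ℂ) * Complex.exp (-(Complex.I * (lam i * t)))‖ ^ 2 =
      ∑ i ∈ s, ∑ j ∈ s, C i * C j * (Real.exp (-(W * |lam i - lam j|)) * Real.cos ((lam i - lam j) * τ)) := by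
  have e : (fun t : ℝ => PW W (t - τ) * ‖∑ i ∈ s, (C i : ℂ) * Complex.exp (-(Complex.I * (lam i * t)))‖ ^ 2) =
      fun t : ℝ => ∑ i ∈ s, ∑ j ∈ s, C i * C j * (PW W (t - τ) * Real.cos ((lam i - lam j) * t)) := by
    funext t
    rw [sq_sum, Finset.mul_sum]
    refine Finset.sum_congr rfl fun i _ => ?_
    rw [Finset.mul_sum]
    exact Finset.sum_congr rfl fun j _ => by ring
  have hI : ∀ i j, Integrable (fun t : ℝ => C i * C j * (PW W (t - τ) * Real.cos ((lam i - lam j) * t))) :=
    fun i j => (cos_PW τ _ hW).1.const_mul _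
  rw [e]
  constructor
  · exact integrable_finsetSum _ fun i _ => integrable_finsetSum _ fun j _ => hI i j
  · rw [integral_finsetSum _ fun i _ => integrable_finsetSum _ fun j _ => hI i j]
    refine Finset.sum_congr rfl fun i _ => ?_
    rw [integral_finsetSum _ fun j _ => hI i j]
    refine Finset.sum_congr rfl fun j _ => ?_
    rw [integral_const_mul, (cos_PW τ _ hW).2]

open Classical in
/-- mean square with separated frequencies: diagonal plus a tiny term -/
theorem pw_le {W : ℝ} (τ : ℝ) (hW : 0 < W) (s : Finset ι) (C lam : ι → ℝ) {δ : ℝ}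
    (hδ : ∀ i ∈ s, ∀ j ∈ s, lam i ≠ lam j → δ ≤ |lam i - lam j|) :
    ∫ t : ℝ, PW W (t - τ) * ‖∑ i ∈ s, (C i : ℂ) * Complex.exp (-(Complex.I * (lam i * t)))‖ ^ 2 ≤
      (∑ i ∈ s, ∑ j ∈ s, if lam i = lam j then C i * C j else 0) + (∑ i ∈ s, |C i|) ^ 2 * Real.exp (-(W * δ)) := by
  rw [(pw_sq τ hW s C lam).2, sq, Finset.sum_mul_sum, Finset.sum_mul, ← Finset.sum_add_distrib]
  refine Finset.sum_le_sum fun i hi => ?_
  rw [Finset.sum_mul, ← Finset.sum_add_distrib]
  refine Finset.sum_le_sum fun j hj => ?_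
  split_ifs with h
  · rw [h, sub_self, abs_zero, mul_zero, neg_zero, Real.exp_zero, zero_mul, Real.cos_zero, mul_one, mul_one]
    have : 0 ≤ |C i| * |C j| * Real.exp (-(W * δ)) := by positivity
    linarith
  · rw [zero_add]
    have h1 : Real.exp (-(W * |lam i - lam j|)) ≤ Real.exp (-(W * δ)) := by
      apply Real.exp_le_exp.2
      have := mul_le_mul_of_nonneg_left (hδ i hi j hj h) hW.le
      linarith
    calc C i * C j * (Real.exp (-(W * |lam i - lam j|)) * Real.cos ((lam i - lam j) * τ)) ≤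
          |C i * C j * (Real.exp (-(W * |lam i - lam j|)) * Real.cos ((lam i - lam j) * τ))| := le_abs_self _
      _ = |C i| * |C j| * (Real.exp (-(W * |lam i - lam j|)) * |Real.cos ((lam i - lam j) * τ)|) := by
          rw [abs_mul, abs_mul, abs_mul, Real.abs_exp]
      _ ≤ |C i| * |C j| * (Real.exp (-(W * δ)) * 1) := by
          gcongr
          exact Real.abs_cos_le_one _
      _ = _ := by ring

end Pool.Agent.Helper49.HG
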