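import Pool.Agent.Helper9.HL.Conv
import Pool.Agent.Helper49.HG.Pw

/-!
# Hall gaps, NG: multipliers applied to zeta times a Dirichlet polynomial
-/

set_option autoImplicit false

namespace Pool.Agent.Helper49.HG

open Complex Set MeasureTheory Filter Topology
open scoped FourierTransform SchwartzMap
open Pool.Agent.HL9 Pool.Agent.Helper57.ED

noncomputable section

/-- translate -/
def sh (q : 𝓢(ℝ, ℂ)) (a : ℝ) : 𝓢(ℝ, ℂ) := q.compSubConstCLM ℂ a

lemma sh_apply (q : 𝓢(ℝ, ℂ)) (a y : ℝ) : sh q a y = q (y - a) := rfl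

lemma Kq_sh (q : 𝓢(ℝ, ℂ)) (a u : ℝ) : Kq (sh q a) u = cexp (-(I * u * a)) * Kq q u := by
  rw [Kq_eq, Kq_eq, mul_left_comm]
  congr 1
  rw [← integral_const_mul, ← integral_sub_right_eq_self (fun y : ℝ => cexp (-(I * u * a)) * (cexp (-(I * u * y)) * q y)) a]
  apply integral_congr_ae
  filter_upwards with y
  rw [sh_apply, ← mul_assoc, ← Complex.exp_add]
  congr 2
  push_cast
  ring

lemma KL_sh (q : 𝓢(ℝ, ℂ)) (a s u : ℝ) : KL (sh q a) s u = cexp (-(I * u * (s * a : ℝ))) * KL q s u := by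
  unfold KL
  rw [Kq_sh]
  have e : -(I * ((s * u : ℝ) : ℂ) * a) = -(I * u * ((s * a : ℝ) : ℂ)) := by push_cast; ring
  rw [e]
  ring

lemma nzhl49 (t : ℝ) : ‖riemannZeta (hl t)‖ ≤ 5 * (1 + |t|) := by
  have h1 := norm_EN_le (le_refl 1) t
  have h2 := norm_PN_le (le_refl 1) t
  have e : riemannZeta (hl t) = EN 1 t + (1 - PN 1 t) := by
    unfold EN PN
    simp
  rw [e]
  simp only [Nat.cast_one, Real.one_rpow, mul_one] at h1 h2
  have h3 : ‖(1 : ℂ) - PN 1 t‖ ≤ 1 + 2 := (norm_sub_le _ _).trans (by rw [norm_one]; linarith)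
  have h4 := abs_nonneg t
  calc ‖EN 1 t + (1 - PN 1 t)‖ ≤ ‖EN 1 t‖ + ‖(1 : ℂ) - PN 1 t‖ := norm_add_le _ _
    _ ≤ 2 * (1 + |t|) + 3 := by linarith
    _ ≤ 5 * (1 + |t|) := by linarith

lemma iKLz49 (q : 𝓢(ℝ, ℂ)) {s : ℝ} (hs : 0 < s) (t : ℝ) :
    Integrable fun u : ℝ => KL q s u * riemannZeta (hl (t - u)) := by
  have h := (integrable_KL_mul q hs t).const_mul 5
  refine h.mono' (((continuous_KL q s).mul (continuous_zeta_hl.comp
    (continuous_const.sub continuous_id))).aestronglyMeasurable) (Eventually.of_forall fun u => ?_)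
  rw [norm_mul]
  calc ‖KL q s u‖ * ‖riemannZeta (hl (t - u))‖ ≤ ‖KL q s u‖ * (5 * (1 + |t - u|)) :=
        mul_le_mul_of_nonneg_left (nzhl49 _) (norm_nonneg _)
    _ = _ := by ring

/-- bound for the pole term -/
theorem pole_le (q : 𝓢(ℝ, ℂ)) {B : ℝ} (hB : ∀ y, B < |y| → q y = 0) {s : ℝ} (hs : 0 < s) (a t : ℝ) :
    ‖∫ y : ℝ, sh q a (y / s) * cexp (y * (1 - hl t))‖ ≤
      (∫ y : ℝ, ‖deriv q y‖) * Real.exp (s * (a + B) / 2) / ‖1 - hl t‖ := by
  have hz : (1 - hl t) ≠ 0 := one_sub_hl_ne t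
  have hz0 : 0 < ‖1 - hl t‖ := norm_pos_iff.2 hz
  have hre : (1 - hl t).re = 1 / 2 := one_sub_hl_re t
  generalize 1 - hl t = z at hz hz0 hre
  have hqd : Differentiable ℝ q := q.differentiable
  have hqd' : Continuous (deriv q) := (q.smooth 1).continuous_deriv le_rfl
  have hdz : ∀ y, B < |y| → deriv q y = 0 := by
    intro y hy
    have h1 : q =ᶠ[𝓝 y] fun _ => 0 := by
      have : ∀ᶠ x in 𝓝 y, B < |x| := (continuous_abs.tendsto y).eventually (lt_mem_nhds hy)
      exact this.mono fun x hx => hB x hx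
    rw [h1.deriv_eq]; simp
  have hdi : Integrable (deriv q) := by
    have := (SchwartzMap.derivCLM ℝ ℂ q).integrable (μ := volume)
    exact this.congr (Eventually.of_forall fun y => SchwartzMap.derivCLM_apply ..)
  set u : ℝ → ℂ := fun y => sh q a (y / s) with hu
  set u' : ℝ → ℂ := fun y => deriv q (y / s - a) * ((1 / s : ℝ) : ℂ) with hu'
  set v : ℝ → ℂ := fun y => cexp (y * z) / z with hv
  set v' : ℝ → ℂ := fun y => cexp (y * z) with hv'
  have hder_u : ∀ y, HasDerivAt u (u' y) y := by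
    intro y
    have h1 : HasDerivAt (fun y : ℝ => y / s - a) (1 / s) y := ((hasDerivAt_id y).div_const s).sub_const a
    have h2 := (hqd (y / s - a)).hasDerivAt.scomp y h1
    refine h2.congr_deriv ?_
    rw [hu', real_smul, mul_comm]
  have hder_v : ∀ y : ℝ, HasDerivAt v (v' y) y := by
    intro y
    have h1 : HasDerivAt (fun y : ℝ => (y : ℂ) * z) z y := by
      simpa using (hasDerivAt_id y).ofReal_comp.mul_const z
    have h2 := (h1.cexp).div_const z
    refine h2.congr_deriv ?_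
    rw [hv']; field_simp
  have hcs : ∀ (f : ℝ → ℂ), Continuous f → (∀ y, B < |y / s - a| → f y = 0) → Integrable f := by
    intro f hf h0
    apply hf.integrable_of_hasCompactSupport
    apply HasCompactSupport.intro (isCompact_Icc (a := s * (a - |B|)) (b := s * (a + |B|)))
    intro y hy
    apply h0
    by_contra hcon
    apply hy
    have h3 := (abs_le.1 ((not_lt.1 hcon).trans (le_abs_self B)))
    constructor
    · have : a - |B| ≤ y / s := by linarith [h3.1]
      rw [le_div_iff₀ hs] at this; linarith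
    · have : y / s ≤ a + |B| := by linarith [h3.2]
      rw [div_le_iff₀ hs] at this; linarith
  have hcu : Continuous u := continuous_iff_continuousAt.2 fun y => (hder_u y).continuousAt
  have hcv : Continuous v := continuous_iff_continuousAt.2 fun y => (hder_v y).continuousAt
  have hcu' : Continuous u' := by
    rw [hu']
    exact (hqd'.comp (by fun_prop)).mul continuous_const
  have hcv' : Continuous v' := by rw [hv']; fun_prop
  have hu0 : ∀ y, B < |y / s - a| → u y = 0 := fun y hy => hB _ hy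
  have hu0' : ∀ y, B < |y / s - a| → u' y = 0 := fun y hy => by
    rw [hu']; simp only; rw [hdz _ hy, zero_mul]
  have hibp := integral_mul_deriv_eq_deriv_mul_of_integrable (u := u) (v := v) (u' := u') (v' := v') (fun y _ => hder_u y) (fun y _ => hder_v y)
    (hcs _ (hcu.mul hcv') fun y hy => by simp only [Pi.mul_apply]; rw [hu0 y hy, zero_mul])
    (hcs _ (hcu'.mul hcv) fun y hy => by simp only [Pi.mul_apply]; rw [hu0' y hy, zero_mul])
    (hcs _ (hcu.mul hcv) fun y hy => by simp only [Pi.mul_apply]; rw [hu0 y hy, zero_mul])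
  have hmain : ∫ y : ℝ, sh q a (y / s) * cexp (y * z) = -∫ y, u' y * v y := hibp
  rw [hmain, norm_neg]
  have hbd : ∀ y, ‖u' y * v y‖ ≤ Real.exp (s * (a + B) / 2) / ‖z‖ * (‖deriv q (y / s - a)‖ * (1 / s)) := by
    intro y
    by_cases hy : B < |y / s - a|
    · rw [hu0' y hy, zero_mul, norm_zero]
      have : 0 ≤ 1 / s := by positivity
      positivity
    · have h4 : y / s - a ≤ B := (le_abs_self _).trans (not_lt.1 hy)
      have h5 : y ≤ s * (a + B) := by
        have : y / s ≤ a + B := by linarith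
        rw [div_le_iff₀ hs] at this; linarith
      have h6 : ‖v y‖ ≤ Real.exp (s * (a + B) / 2) / ‖z‖ := by
        rw [hv]
        simp only
        rw [norm_div, Complex.norm_exp]
        apply div_le_div_of_nonneg_right _ hz0.le
        apply Real.exp_le_exp.2
        rw [Complex.re_ofReal_mul, hre]
        linarith
      have h7 : ‖u' y‖ = ‖deriv q (y / s - a)‖ * (1 / s) := by
        rw [hu']
        simp only
        rw [norm_mul, norm_real, Real.norm_of_nonneg (by positivity)]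
      rw [norm_mul, h7]
      calc ‖deriv q (y / s - a)‖ * (1 / s) * ‖v y‖ ≤ ‖deriv q (y / s - a)‖ * (1 / s) * (Real.exp (s * (a + B) / 2) / ‖z‖) := by
            apply mul_le_mul_of_nonneg_left h6
            have : 0 ≤ 1 / s := by positivity
            positivity
        _ = _ := by ring
  have hcomp : ∫ y : ℝ, ‖deriv q (y / s - a)‖ = s * ∫ y : ℝ, ‖deriv q y‖ := by
    have h8 := Measure.integral_comp_div (fun y : ℝ => ‖deriv q (y - a)‖) s
    rw [h8, abs_of_pos hs, smul_eq_mul, integral_sub_right_eq_self (fun y : ℝ => ‖deriv q y‖) a]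
  have hint : Integrable (fun y : ℝ => ‖deriv q (y / s - a)‖) :=
    ((hdi.norm.comp_sub_right a).comp_div hs.ne')
  refine (norm_integral_le_of_norm_le ((hint.mul_const (1 / s)).const_mul _) (Eventually.of_forall hbd)).trans (le_of_eq ?_)
  rw [integral_const_mul, integral_mul_const, hcomp]
  field_simp

variable {ι : Type*}

/-- exponential sum -/
def ES (J : Finset ι) (c μ : ι → ℝ) (t : ℝ) : ℂ := ∑ i ∈ J, (c i : ℂ) * cexp (-(I * (μ i * t)))

theorem conv_ES (q : 𝓢(ℝ, ℂ)) {s : ℝ} (hs : 0 < s) (y₀ : ℝ) (J : Finset ι) (c μ : ι → ℝ) (t : ℝ) :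
    Integrable (fun u : ℝ => KL q s u * cexp (-(I * u * y₀)) * (riemannZeta (hl (t - u)) * ES J c μ (t - u))) ∧
    ∫ u : ℝ, KL q s u * cexp (-(I * u * y₀)) * (riemannZeta (hl (t - u)) * ES J c μ (t - u)) =
      ∑ i ∈ J, (c i : ℂ) * cexp (-(I * (μ i * t))) * CZ (sh q ((y₀ - μ i) / s)) s t := by
  have e : (fun u : ℝ => KL q s u * cexp (-(I * u * y₀)) * (riemannZeta (hl (t - u)) * ES J c μ (t - u))) =
      fun u : ℝ => ∑ i ∈ J, (c i : ℂ) * cexp (-(I * (μ i * t))) *
        (KL (sh q ((y₀ - μ i) / s)) s u * riemannZeta (hl (t - u))) := by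
    funext u
    unfold ES
    rw [Finset.mul_sum, Finset.mul_sum]
    refine Finset.sum_congr rfl fun i _ => ?_
    rw [KL_sh]
    have e1 : s * ((y₀ - μ i) / s) = y₀ - μ i := by field_simp
    rw [e1]
    have e2 : cexp (-(I * (μ i * ((t - u : ℝ) : ℂ)))) = cexp (-(I * (μ i * t))) * cexp (I * u * μ i) := by
      rw [← Complex.exp_add]; congr 1; push_cast; ring
    have e3 : cexp (-(I * u * ((y₀ - μ i : ℝ) : ℂ))) = cexp (-(I * u * y₀)) * cexp (I * u * μ i) := by
      rw [← Complex.exp_add]; congr 1; push_cast; ring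
    rw [e2, e3]
    ring
  have hI : ∀ i, Integrable (fun u : ℝ => (c i : ℂ) * cexp (-(I * (μ i * t))) *
        (KL (sh q ((y₀ - μ i) / s)) s u * riemannZeta (hl (t - u)))) := by
    intro i
    apply Integrable.const_mul
    exact iKLz49 _ hs t
  rw [e]
  refine ⟨integrable_finsetSum _ fun i _ => hI i, ?_⟩
  rw [integral_finsetSum _ fun i _ => hI i]
  refine Finset.sum_congr rfl fun i _ => ?_
  rw [integral_const_mul]
  rfl

/-- coefficients of the main part -/
def mc (qr : ℝ → ℝ) (s y₀ : ℝ) (c μ : ι → ℝ) (x : ι × ℕ) : ℝ :=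
  c x.1 * (x.2 : ℝ) ^ (-(1 / 2) : ℝ) * qr ((Real.log x.2 + μ x.1 - y₀) / s)

/-- frequencies of the main part -/
def ml (μ : ι → ℝ) (x : ι × ℕ) : ℝ := μ x.1 + Real.log x.2

/-- the pole part -/
def PP (q : 𝓢(ℝ, ℂ)) (s y₀ : ℝ) (J : Finset ι) (c μ : ι → ℝ) (t : ℝ) : ℂ :=
  ∑ i ∈ J, (c i : ℂ) * cexp (-(I * (μ i * t))) * ∫ y : ℝ, sh q ((y₀ - μ i) / s) (y / s) * cexp (y * (1 - hl t))

theorem conv_main (q : 𝓢(ℝ, ℂ)) {qr : ℝ → ℝ} (hqr : ∀ y, q y = (qr y : ℂ)) {B : ℝ} (hB : ∀ y, B < |y| → qr y = 0)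
    {s : ℝ} (hs : 0 < s) (y₀ : ℝ) (J : Finset ι) (c μ : ι → ℝ) {N : ℕ} (hN : 1 ≤ N)
    (hNB : ∀ i ∈ J, y₀ - μ i + s * B ≤ Real.log N) (t : ℝ) :
    ∫ u : ℝ, KL q s u * cexp (-(I * u * y₀)) * (riemannZeta (hl (t - u)) * ES J c μ (t - u)) =
      ES (J ×ˢ Finset.Icc 1 N) (mc qr s y₀ c μ) (ml μ) t - PP q s y₀ J c μ t := by
  rw [(conv_ES q hs y₀ J c μ t).2]
  unfold ES PP
  rw [Finset.sum_product, ← Finset.sum_sub_distrib]
  refine Finset.sum_congr rfl fun i hi => ?_
  rw [conv_eq (sh q ((y₀ - μ i) / s)) hs hN ?_ t, mul_sub]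
  · congr 1
    rw [Finset.mul_sum]
    refine Finset.sum_congr rfl fun n hn => ?_
    have hn1 := (Finset.mem_Icc.1 hn).1
    have hn0 : (0 : ℝ) < n := by exact_mod_cast hn1
    have hnc : (n : ℂ) ≠ 0 := by exact_mod_cast (show n ≠ 0 by omega)
    rw [sh_apply, hqr]
    unfold mc ml
    simp only
    have e1 : Real.log n / s - (y₀ - μ i) / s = (Real.log n + μ i - y₀) / s := by ring
    have e2 : (n : ℂ) ^ (-hl t) = (((n : ℝ) ^ (-(1 / 2) : ℝ) : ℝ) : ℂ) * cexp (-(I * (Real.log n * t))) := by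
      rw [Complex.ofReal_cpow hn0.le, Complex.ofReal_natCast, Complex.cpow_def_of_ne_zero hnc,
        Complex.cpow_def_of_ne_zero hnc, ← Complex.exp_add, ← Complex.natCast_log]
      congr 1
      unfold hl
      push_cast
      ring
    have e3 : cexp (-(I * (((μ i + Real.log n : ℝ) : ℂ) * t))) = cexp (-(I * (μ i * t))) * cexp (-(I * (Real.log n * t))) := by
      rw [← Complex.exp_add]; congr 1; push_cast; ring
    rw [e1, e2, e3]
    push_cast
    ring
  · intro y hy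
    rw [sh_apply, hqr]
    have h1 : B < y / s - (y₀ - μ i) / s := by
      rw [← sub_div, lt_div_iff₀ hs]
      have := hNB i hi
      linarith
    rw [hB _ (h1.trans_le (le_abs_self _)), Complex.ofReal_zero]

/-- the pole part is small -/
theorem norm_PP_le (q : 𝓢(ℝ, ℂ)) {B : ℝ} (hB : ∀ y, B < |y| → q y = 0) {s : ℝ} (hs : 0 < s) (y₀ : ℝ) (J : Finset ι)
    (c μ : ι → ℝ) {M₀ : ℝ} (hM : ∀ i ∈ J, -M₀ ≤ μ i) (t : ℝ) :
    ‖PP q s y₀ J c μ t‖ ≤ (∑ i ∈ J, |c i|) * ((∫ y : ℝ, ‖deriv q y‖) * Real.exp ((y₀ + M₀ + s * B) / 2)) / ‖1 - hl t‖ := by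
  unfold PP
  refine (norm_sum_le _ _).trans ?_
  rw [Finset.sum_mul, Finset.sum_div]
  refine Finset.sum_le_sum fun i hi => ?_
  have h1 := pole_le q hB hs ((y₀ - μ i) / s) t
  have h2 : ‖cexp (-(I * (μ i * t)))‖ = 1 := by
    have : -(I * (μ i * t)) = ((-(μ i * t) : ℝ) : ℂ) * I := by push_cast; ring
    rw [this, Complex.norm_exp_ofReal_mul_I]
  rw [norm_mul, norm_mul, h2, mul_one, norm_real, Real.norm_eq_abs]
  have hz0 : 0 < ‖1 - hl t‖ := norm_pos_iff.2 (one_sub_hl_ne t)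
  have h3 : s * ((y₀ - μ i) / s + B) / 2 ≤ (y₀ + M₀ + s * B) / 2 := by
    have : s * ((y₀ - μ i) / s + B) = y₀ - μ i + s * B := by field_simp
    rw [this]
    linarith [hM i hi]
  have h4 : 0 ≤ ∫ y : ℝ, ‖deriv q y‖ := integral_nonneg fun y => norm_nonneg _
  calc |c i| * ‖∫ y : ℝ, sh q ((y₀ - μ i) / s) (y / s) * cexp (y * (1 - hl t))‖ ≤
        |c i| * ((∫ y : ℝ, ‖deriv q y‖) * Real.exp (s * ((y₀ - μ i) / s + B) / 2) / ‖1 - hl t‖) :=
        mul_le_mul_of_nonneg_left h1 (abs_nonneg _)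
    _ ≤ |c i| * ((∫ y : ℝ, ‖deriv q y‖) * Real.exp ((y₀ + M₀ + s * B) / 2) / ‖1 - hl t‖) := by gcongr
    _ = _ := by ring

end

end Pool.Agent.Helper49.HG
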