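import Mathlib

/-! # Hall gaps, NG: two definitions -/

set_option autoImplicit false

namespace Pool.Agent.Helper49.HG

/-- coefficients `β_h β_k (hk)^(-1/2)` of `φ conj(φ)` -/
noncomputable def cA (β : ℕ → ℝ) (x : ℕ × ℕ) : ℝ := β x.1 * β x.2 * ((x.1 : ℝ) * x.2) ^ (-(1 / 2) : ℝ)

/-- frequencies `log (h/k)` -/
noncomputable def mA (x : ℕ × ℕ) : ℝ := Real.log x.1 - Real.log x.2

end Pool.Agent.Helper49.HG
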