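import Pool.Agent.Helper49.HG.Cv
import Pool.Agent.Helper49.HG.NDefs
import Pool.Agent.Helper49.HG.Ex
import Pool.Agent.Helper69.HG.Stm

/-!
# Hall gaps, NG: the two Dirichlet polynomials
-/

set_option autoImplicit false

namespace Pool.Agent.Helper49.HG

open Complex Set MeasureTheory Filter Topology
open scoped FourierTransform SchwartzMap ComplexConjugate
open Pool.Agent.HL9 Pool.Agent.Helper57.ED Pool.Agent.Helper69.HG

noncomputable section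

lemma npow49 {n : ℕ} (hn : 1 ≤ n) (t : ℝ) :
    (n : ℂ) ^ (-(1 / 2 + I * t) : ℂ) = (((n : ℝ) ^ (-(1 / 2) : ℝ) : ℝ) : ℂ) * cexp (-(I * ((Real.log n : ℝ) * t))) := by
  have hn0 : (0 : ℝ) < n := by exact_mod_cast hn
  have hnc : (n : ℂ) ≠ 0 := by exact_mod_cast (show n ≠ 0 by omega)
  rw [Complex.ofReal_cpow hn0.le, Complex.ofReal_natCast, Complex.cpow_def_of_ne_zero hnc,
    Complex.cpow_def_of_ne_zero hnc, ← Complex.exp_add, ← Complex.natCast_log]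
  congr 1
  push_cast
  ring

lemma Mo_ES (X : ℕ) (β : ℕ → ℝ) (t : ℝ) : Mo X β (1 / 2 + I * t) =
    ES (Finset.Icc 1 X) (fun n : ℕ => β n * (n : ℝ) ^ (-(1 / 2) : ℝ)) (fun n : ℕ => Real.log n) t := by
  unfold Mo ES
  refine Finset.sum_congr rfl fun n hn => ?_
  rw [npow49 (Finset.mem_Icc.1 hn).1]
  push_cast
  ring

variable {ι κ : Type*}

lemma ES_mul (J : Finset ι) (c μ : ι → ℝ) (J' : Finset κ) (c' μ' : κ → ℝ) (t : ℝ) :
    ES J c μ t * ES J' c' μ' t = ES (J ×ˢ J') (fun x => c x.1 * c' x.2) (fun x => μ x.1 + μ' x.2) t := by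
  unfold ES
  rw [Finset.sum_mul_sum, Finset.sum_product]
  refine Finset.sum_congr rfl fun i _ => Finset.sum_congr rfl fun j _ => ?_
  have e : cexp (-(I * (((μ i + μ' j : ℝ) : ℂ) * t))) = cexp (-(I * (μ i * t))) * cexp (-(I * (μ' j * t))) := by
    rw [← Complex.exp_add]; congr 1; push_cast; ring
  simp only
  rw [e]
  push_cast
  ring

lemma ES_conj (J : Finset ι) (c μ : ι → ℝ) (t : ℝ) : conj (ES J c μ t) = ES J c (fun i => -μ i) t := by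
  unfold ES
  rw [map_sum]
  refine Finset.sum_congr rfl fun i _ => ?_
  rw [map_mul, Complex.conj_ofReal, ← Complex.exp_conj, map_neg, map_mul, map_mul, Complex.conj_I, Complex.conj_ofReal,
    Complex.conj_ofReal]
  congr 2
  push_cast
  ring

lemma ES_cont (J : Finset ι) (c μ : ι → ℝ) : Continuous (ES J c μ) := by
  unfold ES; fun_prop

lemma normsq_Mo (X : ℕ) (β : ℕ → ℝ) (t : ℝ) : ((‖Mo X β (1 / 2 + I * t)‖ ^ 2 : ℝ) : ℂ) =
    ES (Finset.Icc 1 X ×ˢ Finset.Icc 1 X) (cA β) mA t := by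
  have h : ((‖Mo X β (1 / 2 + I * t)‖ ^ 2 : ℝ) : ℂ) = Mo X β (1 / 2 + I * t) * conj (Mo X β (1 / 2 + I * t)) := by
    rw [Complex.mul_conj, Complex.normSq_eq_norm_sq]
  rw [h, Mo_ES, ES_conj, ES_mul]
  unfold ES
  refine Finset.sum_congr rfl fun x hx => ?_
  obtain ⟨h1, h2⟩ := Finset.mem_product.1 hx
  have h3 : (0 : ℝ) ≤ (x.1 : ℝ) := Nat.cast_nonneg _
  have h4 : (0 : ℝ) ≤ (x.2 : ℝ) := Nat.cast_nonneg _
  unfold cA mA
  rw [Real.mul_rpow h3 h4]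
  have e1 : β x.1 * (x.1 : ℝ) ^ (-(1 / 2) : ℝ) * (β x.2 * (x.2 : ℝ) ^ (-(1 / 2) : ℝ)) =
      β x.1 * β x.2 * ((x.1 : ℝ) ^ (-(1 / 2) : ℝ) * (x.2 : ℝ) ^ (-(1 / 2) : ℝ)) := by ring
  simp only
  rw [e1, ← sub_eq_add_neg]

lemma cconv_sum {X : ℕ} {β : ℕ → ℝ} (hβ : ∀ n, β n ≠ 0 → n ≤ X) (G : ℕ → ℂ) :
    ∑ h ∈ Finset.Icc 1 (X * X), (conv β β h : ℂ) * G h =
      ∑ m ∈ Finset.Icc 1 X, ∑ n ∈ Finset.Icc 1 X, ((β m * β n : ℝ) : ℂ) * G (m * n) := by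
  classical
  set P := ((Finset.Icc 1 X) ×ˢ (Finset.Icc 1 X)) with hP
  have h1 : ∑ m ∈ Finset.Icc 1 X, ∑ n ∈ Finset.Icc 1 X, ((β m * β n : ℝ) : ℂ) * G (m * n) =
      ∑ x ∈ P, ((β x.1 * β x.2 : ℝ) : ℂ) * G (x.1 * x.2) := by rw [hP, Finset.sum_product]
  rw [h1, ← Finset.sum_fiberwise_of_maps_to (s := P) (t := Finset.Icc 1 (X * X)) (g := fun x => x.1 * x.2)
    (fun x hx => by
      rw [hP, Finset.mem_product, Finset.mem_Icc, Finset.mem_Icc] at hx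
      rw [Finset.mem_Icc]
      exact ⟨Nat.mul_pos hx.1.1 hx.2.1, Nat.mul_le_mul hx.1.2 hx.2.2⟩)]
  refine Finset.sum_congr rfl fun h hh => ?_
  rw [Finset.mem_Icc] at hh
  have hh0 : h ≠ 0 := by omega
  have h2 : ∑ x ∈ P with x.1 * x.2 = h, ((β x.1 * β x.2 : ℝ) : ℂ) * G (x.1 * x.2) =
      ∑ x ∈ P with x.1 * x.2 = h, ((β x.1 * β x.2 : ℝ) : ℂ) * G h := by
    refine Finset.sum_congr rfl fun x hx => ?_
    rw [(Finset.mem_filter.1 hx).2]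
  rw [h2, ← Finset.sum_mul]
  congr 1
  rw [← Complex.ofReal_sum]
  congr 1
  unfold conv
  rw [← Nat.sum_divisorsAntidiagonal (fun i j => β i * β j)]
  symm
  apply Finset.sum_subset_zero_on_sdiff
  · intro x hx
    rw [Finset.mem_filter, hP, Finset.mem_product, Finset.mem_Icc, Finset.mem_Icc] at hx
    rw [Nat.mem_divisorsAntidiagonal]
    exact ⟨hx.2, hh0⟩
  · intro x hx
    rw [Finset.mem_sdiff, Nat.mem_divisorsAntidiagonal, Finset.mem_filter, hP, Finset.mem_product, Finset.mem_Icc,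
      Finset.mem_Icc] at hx
    by_contra hcon
    apply hx.2
    have h3 : β x.1 ≠ 0 := left_ne_zero_of_mul hcon
    have h4 : β x.2 ≠ 0 := right_ne_zero_of_mul hcon
    have h5 : x.1 ≠ 0 := fun h0 => hh0 (by rw [← hx.1.1, h0, zero_mul])
    have h6 : x.2 ≠ 0 := fun h0 => hh0 (by rw [← hx.1.1, h0, mul_zero])
    exact ⟨⟨⟨by omega, hβ _ h3⟩, by omega, hβ _ h4⟩, hx.1.1⟩
  · intro x _; rfl

lemma sq_Mo {X : ℕ} {β : ℕ → ℝ} (hβ : ∀ n, β n ≠ 0 → n ≤ X) (t : ℝ) :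
    Mo X β (1 / 2 + I * t) ^ 2 = Mo (X * X) (conv β β) (1 / 2 + I * t) := by
  unfold Mo
  rw [cconv_sum hβ (fun h => (h : ℂ) ^ (-(1 / 2 + I * t) : ℂ)), sq, Finset.sum_mul_sum]
  refine Finset.sum_congr rfl fun m hm => Finset.sum_congr rfl fun n hn => ?_
  have h1 := (Finset.mem_Icc.1 hm).1
  have h2 := (Finset.mem_Icc.1 hn).1
  rw [npow49 h1, npow49 h2, npow49 (Nat.mul_pos h1 h2)]
  have h3 : (0 : ℝ) ≤ (m : ℝ) := Nat.cast_nonneg _
  have h4 : (0 : ℝ) ≤ (n : ℝ) := Nat.cast_nonneg _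
  have h5 : (m : ℝ) ≠ 0 := by positivity
  have h6 : (n : ℝ) ≠ 0 := by positivity
  push_cast
  rw [Real.mul_rpow h3 h4, Real.log_mul h5 h6]
  have e : cexp (-(I * ((((Real.log m + Real.log n : ℝ)) : ℂ) * t))) =
      cexp (-(I * ((Real.log m : ℝ) * t))) * cexp (-(I * ((Real.log n : ℝ) * t))) := by
    rw [← Complex.exp_add]; congr 1; push_cast; ring
  rw [e]
  push_cast
  ring

/-! ### means -/

lemma norm_one_sub_hl (t : ℝ) : ‖1 - hl t‖ ^ 2 = 1 / 4 + t ^ 2 := by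
  rw [← Complex.normSq_eq_norm_sq, Complex.normSq_apply, Complex.sub_re, Complex.sub_im, hl_re, hl_im]
  simp
  ring

lemma PW_le {W : ℝ} (hW : 0 < W) (t : ℝ) : PW W t ≤ 1 / (Real.pi * W) := by
  unfold PW
  have := Real.pi_pos
  rw [div_le_div_iff₀ (by positivity) (by positivity)]
  nlinarith [sq_nonneg t, mul_pos this hW]

lemma PW_cont {W : ℝ} (hW : 0 < W) (τ : ℝ) : Continuous (fun t : ℝ => PW W (t - τ)) := by
  unfold PW
  apply Continuous.div (by fun_prop) (by fun_prop)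
  intro t
  have := Real.pi_pos
  positivity

/-- the mean square of the pole part -/
lemma pp_int {W : ℝ} (hW : 0 < W) (τ A : ℝ) :
    Integrable (fun t : ℝ => PW W (t - τ) * (A / ‖1 - hl t‖) ^ 2) ∧
    ∫ t : ℝ, PW W (t - τ) * (A / ‖1 - hl t‖) ^ 2 ≤ 2 * A ^ 2 / W := by
  have hpi := Real.pi_pos
  have e : ∀ t : ℝ, (A / ‖1 - hl t‖) ^ 2 = 4 * A ^ 2 * (1 + (2 * t) ^ 2)⁻¹ := by
    intro t
    rw [div_pow, norm_one_sub_hl]
    have h1 : (1 : ℝ) / 4 + t ^ 2 ≠ 0 := by positivity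
    have h2 : 1 + (2 * t) ^ 2 ≠ 0 := by positivity
    field_simp
    ring
  have hI : Integrable (fun t : ℝ => (1 + (2 * t) ^ 2)⁻¹) := integrable_inv_one_add_sq.comp_mul_left' (by norm_num)
  have hI2 : Integrable (fun t : ℝ => 1 / (Real.pi * W) * (4 * A ^ 2 * (1 + (2 * t) ^ 2)⁻¹)) := (hI.const_mul _).const_mul _
  have hle : ∀ t : ℝ, PW W (t - τ) * (A / ‖1 - hl t‖) ^ 2 ≤ 1 / (Real.pi * W) * (4 * A ^ 2 * (1 + (2 * t) ^ 2)⁻¹) := by
    intro t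
    rw [e]
    exact mul_le_mul_of_nonneg_right (PW_le hW _) (by positivity)
  have hnn : ∀ t : ℝ, 0 ≤ PW W (t - τ) * (A / ‖1 - hl t‖) ^ 2 := fun t => mul_nonneg (PW_pos hW _).le (by positivity)
  have hmeas : AEStronglyMeasurable (fun t : ℝ => PW W (t - τ) * (A / ‖1 - hl t‖) ^ 2) volume := by
    simp only [e]
    apply Continuous.aestronglyMeasurable
    apply (PW_cont hW τ).mul
    apply Continuous.mul continuous_const
    apply Continuous.inv₀ (by fun_prop)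
    intro t
    positivity
  have hint : Integrable (fun t : ℝ => PW W (t - τ) * (A / ‖1 - hl t‖) ^ 2) := by
    refine hI2.mono' hmeas (Eventually.of_forall fun t => ?_)
    rw [Real.norm_of_nonneg (hnn t)]
    exact hle t
  refine ⟨hint, (integral_mono hint hI2 hle).trans (le_of_eq ?_)⟩
  rw [integral_const_mul, integral_const_mul]
  have h3 : ∫ t : ℝ, (1 + (2 * t) ^ 2)⁻¹ = |(2 : ℝ)⁻¹| • ∫ t : ℝ, (1 + t ^ 2)⁻¹ :=
    Measure.integral_comp_mul_left (fun t : ℝ => (1 + t ^ 2)⁻¹) 2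
  rw [h3, integral_univ_inv_one_add_sq, abs_of_pos (by norm_num), smul_eq_mul]
  field_simp
  ring

/-- mean square of a difference -/
lemma ms_sub {W : ℝ} (hW : 0 < W) (τ : ℝ) {f g h : ℝ → ℂ} (hf : ∀ t, f t = g t - h t) (hfc : AEStronglyMeasurable f volume)
    (hgi : Integrable (fun t : ℝ => PW W (t - τ) * ‖g t‖ ^ 2)) {A : ℝ} (hh : ∀ t, ‖h t‖ ≤ A / ‖1 - hl t‖) :
    Integrable (fun t : ℝ => PW W (t - τ) * ‖f t‖ ^ 2) ∧
    ∫ t : ℝ, PW W (t - τ) * ‖f t‖ ^ 2 ≤ 2 * (∫ t : ℝ, PW W (t - τ) * ‖g t‖ ^ 2) + 4 * A ^ 2 / W := by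
  obtain ⟨p1, p2⟩ := pp_int hW τ A
  have hle : ∀ t : ℝ, PW W (t - τ) * ‖f t‖ ^ 2 ≤ 2 * (PW W (t - τ) * ‖g t‖ ^ 2) + 2 * (PW W (t - τ) * (A / ‖1 - hl t‖) ^ 2) := by
    intro t
    have h1 : ‖f t‖ ≤ ‖g t‖ + A / ‖1 - hl t‖ := by
      rw [hf]; exact (norm_sub_le _ _).trans (add_le_add le_rfl (hh t))
    have h0 : 0 ≤ A / ‖1 - hl t‖ := (norm_nonneg _).trans (hh t)
    have h2 : ‖f t‖ ^ 2 ≤ 2 * ‖g t‖ ^ 2 + 2 * (A / ‖1 - hl t‖) ^ 2 := by
      calc ‖f t‖ ^ 2 ≤ (‖g t‖ + A / ‖1 - hl t‖) ^ 2 := pow_le_pow_left₀ (norm_nonneg _) h1 2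
        _ ≤ _ := by nlinarith [sq_nonneg (‖g t‖ - A / ‖1 - hl t‖)]
    have h3 := mul_le_mul_of_nonneg_left h2 (PW_pos hW (t - τ)).le
    linarith
  have hI := (hgi.const_mul 2).add (p1.const_mul 2)
  have hfi : Integrable (fun t : ℝ => PW W (t - τ) * ‖f t‖ ^ 2) := by
    refine hI.mono' ((PW_cont hW τ).aestronglyMeasurable.mul (hfc.norm.pow 2)) (Eventually.of_forall fun t => ?_)
    rw [Real.norm_of_nonneg (mul_nonneg (PW_pos hW _).le (by positivity))]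
    exact hle t
  refine ⟨hfi, (integral_mono hfi hI hle).trans ?_⟩
  change ∫ t : ℝ, (2 * (PW W (t - τ) * ‖g t‖ ^ 2) + 2 * (PW W (t - τ) * (A / ‖1 - hl t‖) ^ 2)) ≤ _
  rw [integral_add (hgi.const_mul 2) (p1.const_mul 2), integral_const_mul, integral_const_mul]
  have e : 4 * A ^ 2 / W = 2 * (2 * A ^ 2 / W) := by ring
  rw [e]
  linarith

end

end Pool.Agent.Helper49.HG
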