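import Pool.Agent.Helper49.HG.Na
import Pool.Agent.Helper33.HG.N5
import Pool.Agent.Helper44.HL.Ker2

/-!
# Hall gaps, NG: mean square of the smoothed `ζ |φ|²`
-/

set_option autoImplicit false

namespace Pool.Agent.Helper49.HG

open Complex Set MeasureTheory Filter Topology
open scoped FourierTransform SchwartzMap ComplexConjugate
open Pool.Agent.HL9 Pool.Agent.Helper69.HG Pool.Agent.Helper44.HL
open Pool.Agent.Helper57.ED hiding qq

noncomputable section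

lemma log_sep {a b : ℕ} {M : ℝ} (ha : 1 ≤ a) (hb : 1 ≤ b) (haM : (a : ℝ) ≤ M) (hbM : (b : ℝ) ≤ M) (hab : a ≠ b) :
    1 / M ≤ |Real.log a - Real.log b| := by
  have key : ∀ c d : ℕ, 1 ≤ c → (d : ℝ) ≤ M → c < d → 1 / M ≤ Real.log d - Real.log c := by
    intro c d hc hd hcd
    have hc0 : (0 : ℝ) < c := by exact_mod_cast hc
    have hd0 : (0 : ℝ) < d := by exact_mod_cast (show 0 < d by omega)
    have h1 : ((c : ℝ) + 1) ≤ d := by exact_mod_cast hcd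
    have h2 := Real.one_sub_inv_le_log_of_pos (div_pos hd0 hc0)
    rw [Real.log_div hd0.ne' hc0.ne', inv_div] at h2
    have h3 : 1 / M ≤ 1 / d := one_div_le_one_div_of_le hd0 hd
    have h4 : 1 / (d : ℝ) ≤ 1 - c / d := by
      rw [← sub_nonneg]
      have : 1 - (c : ℝ) / d - 1 / d = (d - c - 1) / d := by field_simp
      rw [this]
      apply div_nonneg _ hd0.le
      linarith
    linarith
  rcases lt_or_gt_of_ne hab with h | h
  · rw [abs_sub_comm]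
    exact (key a b ha hbM h).trans (le_abs_self _)
  · exact (key b a hb haM h).trans (le_abs_self _)

lemma mA_sep {X N : ℕ} {x x' : (ℕ × ℕ) × ℕ} (hx : x ∈ (Finset.Icc 1 X ×ˢ Finset.Icc 1 X) ×ˢ Finset.Icc 1 N)
    (hx' : x' ∈ (Finset.Icc 1 X ×ˢ Finset.Icc 1 X) ×ˢ Finset.Icc 1 N) (h : ml mA x ≠ ml mA x') :
    1 / ((N : ℝ) * X ^ 2) ≤ |ml mA x - ml mA x'| := by
  simp only [Finset.mem_product, Finset.mem_Icc] at hx hx'
  obtain ⟨⟨⟨h1, h2⟩, h3, h4⟩, h5, h6⟩ := hx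
  obtain ⟨⟨⟨g1, g2⟩, g3, g4⟩, g5, g6⟩ := hx'
  have p1 : (0 : ℝ) < x.1.1 := by exact_mod_cast h1
  have p2 : (0 : ℝ) < x.1.2 := by exact_mod_cast h3
  have p3 : (0 : ℝ) < x.2 := by exact_mod_cast h5
  have q1 : (0 : ℝ) < x'.1.1 := by exact_mod_cast g1
  have q2 : (0 : ℝ) < x'.1.2 := by exact_mod_cast g3
  have q3 : (0 : ℝ) < x'.2 := by exact_mod_cast g5
  have e : ml mA x - ml mA x' = Real.log ((x.2 * x.1.1 * x'.1.2 : ℕ) : ℝ) - Real.log ((x'.2 * x'.1.1 * x.1.2 : ℕ) : ℝ) := by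
    unfold ml mA
    push_cast
    rw [Real.log_mul (by positivity) (by positivity), Real.log_mul (by positivity) (by positivity),
      Real.log_mul (by positivity) (by positivity), Real.log_mul (by positivity) (by positivity)]
    ring
  rw [e]
  apply log_sep
  · exact Nat.mul_pos (Nat.mul_pos h5 h1) g3
  · exact Nat.mul_pos (Nat.mul_pos g5 g1) h3
  · have : x.2 * x.1.1 * x'.1.2 ≤ N * X * X := Nat.mul_le_mul (Nat.mul_le_mul h6 h2) g4
    calc ((x.2 * x.1.1 * x'.1.2 : ℕ) : ℝ) ≤ ((N * X * X : ℕ) : ℝ) := by exact_mod_cast this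
      _ = (N : ℝ) * X ^ 2 := by push_cast; ring
  · have : x'.2 * x'.1.1 * x.1.2 ≤ N * X * X := Nat.mul_le_mul (Nat.mul_le_mul g6 g2) h4
    calc ((x'.2 * x'.1.1 * x.1.2 : ℕ) : ℝ) ≤ ((N * X * X : ℕ) : ℝ) := by exact_mod_cast this
      _ = (N : ℝ) * X ^ 2 := by push_cast; ring
  · intro h0
    apply h
    have : ml mA x - ml mA x' = 0 := by rw [e, h0, sub_self]
    linarith

lemma rpow_half_le_one {x : ℝ} (hx : 1 ≤ x) : x ^ (-(1 / 2) : ℝ) ≤ 1 :=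
  Real.rpow_le_one_of_one_le_of_nonpos hx (by norm_num)

lemma cA_le {X : ℕ} {β : ℕ → ℝ} (hβ : ∀ n, |β n| ≤ 1) {x : ℕ × ℕ} (hx : x ∈ Finset.Icc 1 X ×ˢ Finset.Icc 1 X) : |cA β x| ≤ 1 := by
  simp only [Finset.mem_product, Finset.mem_Icc] at hx
  have p1 : (1 : ℝ) ≤ x.1 := by exact_mod_cast hx.1.1
  have p2 : (1 : ℝ) ≤ x.2 := by exact_mod_cast hx.2.1
  have p3 : (1 : ℝ) ≤ (x.1 : ℝ) * x.2 := by nlinarith
  have h1 := rpow_half_le_one p3
  have h2 : 0 ≤ ((x.1 : ℝ) * x.2) ^ (-(1 / 2) : ℝ) := by positivity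
  unfold cA
  rw [abs_mul, abs_mul, abs_of_nonneg h2]
  have h3 := mul_le_mul (hβ x.1) (hβ x.2) (abs_nonneg _) zero_le_one
  rw [one_mul] at h3
  calc |β x.1| * |β x.2| * ((x.1 : ℝ) * x.2) ^ (-(1 / 2) : ℝ) ≤ 1 * 1 := mul_le_mul h3 h1 h2 zero_le_one
    _ = 1 := one_mul 1

lemma mc_le {ι : Type*} {J : Finset ι} {N : ℕ} {qr : ℝ → ℝ} (hq : ∀ y, |qr y| ≤ 1) (s y₀ : ℝ) {c μ : ι → ℝ} {x : ι × ℕ}
    (hx : x ∈ J ×ˢ Finset.Icc 1 N) (hc : |c x.1| ≤ 1) : |mc qr s y₀ c μ x| ≤ 1 := by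
  simp only [Finset.mem_product, Finset.mem_Icc] at hx
  have p2 : (1 : ℝ) ≤ x.2 := by exact_mod_cast hx.2.1
  have h1 := rpow_half_le_one p2
  have h2 : 0 ≤ (x.2 : ℝ) ^ (-(1 / 2) : ℝ) := by positivity
  unfold mc
  rw [abs_mul, abs_mul, abs_of_nonneg h2]
  have h3 := mul_le_mul hc h1 h2 zero_le_one
  rw [one_mul] at h3
  calc |c x.1| * (x.2 : ℝ) ^ (-(1 / 2) : ℝ) * |qr ((Real.log x.2 + μ x.1 - y₀) / s)| ≤ 1 * 1 :=
        mul_le_mul h3 (hq _) (abs_nonneg _) zero_le_one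
    _ = 1 := one_mul 1

/-- the smoothed function -/
def fA (s y₀ : ℝ) (X : ℕ) (β : ℕ → ℝ) (t : ℝ) : ℂ :=
  ∫ u : ℝ, KL Qs s u * cexp (-(I * u * y₀)) * (riemannZeta (hl (t - u)) * ((‖Mo X β (1 / 2 + I * ((t - u : ℝ) : ℂ))‖ ^ 2 : ℝ) : ℂ))

lemma Mo_cont (X : ℕ) (β : ℕ → ℝ) : Continuous (fun t : ℝ => Mo X β (1 / 2 + I * t)) := by
  have : (fun t : ℝ => Mo X β (1 / 2 + I * t)) = ES (Finset.Icc 1 X) (fun n : ℕ => β n * (n : ℝ) ^ (-(1 / 2) : ℝ)) (fun n : ℕ => Real.log n) :=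
    funext fun t => Mo_ES X β t
  rw [this]
  exact ES_cont _ _ _

lemma fA_meas (s y₀ : ℝ) (X : ℕ) (β : ℕ → ℝ) : StronglyMeasurable (fA s y₀ X β) := by
  unfold fA
  apply StronglyMeasurable.integral_prod_right
  apply Continuous.stronglyMeasurable
  have h1 : Continuous fun x : ℝ × ℝ => KL Qs s x.2 := (continuous_KL Qs s).comp continuous_snd
  have h2 : Continuous fun x : ℝ × ℝ => riemannZeta (hl (x.1 - x.2)) := continuous_zeta_hl.comp (continuous_fst.sub continuous_snd)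
  have h3 : Continuous fun x : ℝ × ℝ => ((‖Mo X β (1 / 2 + I * ((x.1 - x.2 : ℝ) : ℂ))‖ ^ 2 : ℝ) : ℂ) :=
    Complex.continuous_ofReal.comp (((Mo_cont X β).comp (continuous_fst.sub continuous_snd)).norm.pow 2)
  have h4 : Continuous fun x : ℝ × ℝ => cexp (-(I * (x.2 : ℂ) * y₀)) := by fun_prop
  exact (h1.mul h4).mul (h2.mul h3)

/-- the constant of the kernel -/
def Aq : ℝ := ∫ y : ℝ, ‖deriv Qs y‖

lemma Aq_nonneg : 0 ≤ Aq := integral_nonneg fun _ => norm_nonneg _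

lemma Qs_zero {y : ℝ} (hy : 4 < |y|) : Qs y = 0 := by
  rw [Qs_apply, qq_supp hy.le, Complex.ofReal_zero]

theorem n8a_ineq {T K D ε : ℝ} {b : ℕ} (hT : 1 < T) (hε : 0 < ε) (hθ : ε * (2 * b + 2) ≤ 1 / 80)
    (hK : 4 / (ε * (2 * b + 2)) ≤ K) (hKL : K ≤ Real.log T) (hD : ∀ y, |deriv qq y| ≤ D) (X : ℕ)
    (hX : X = ⌊T ^ (ε * (2 * b + 2))⌋₊) (τ : ℝ) :
    Integrable (fun t : ℝ => PW (T + 1 / 2) (t - τ) * ‖fA (Real.log T / K) (Real.log T / 2) X (bt T ε b) t‖ ^ 2) ∧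
    ∫ t : ℝ, PW (T + 1 / 2) (t - τ) * ‖fA (Real.log T / K) (Real.log T / 2) X (bt T ε b) t‖ ^ 2 ≤
      2 * (Real.log T / K * (∫ y, qq y ^ 2) * Ql (X * X) (conv (bt T ε b) (bt T ε b)) (1 / 2) +
        16 * (1 + 2 * D) * T ^ (-(1 / 4) : ℝ) + 4 * T ^ 2 * Real.exp (-(T ^ (1 / 4 : ℝ) / 2))) + 4 * Aq ^ 2 * T ^ (-(1 / 4) : ℝ) := by
  classical
  set θ : ℝ := ε * (2 * b + 2) with hθd
  set β : ℕ → ℝ := bt T ε b with hβd
  have hT0 : 0 < T := by linarith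
  have hL : 0 < Real.log T := Real.log_pos hT
  set L : ℝ := Real.log T with hLd
  have hb0 : (0 : ℝ) ≤ b := Nat.cast_nonneg _
  have hθ0 : 0 < θ := by positivity
  have hK0 : 0 < K := lt_of_lt_of_le (by positivity) hK
  set s : ℝ := L / K with hs
  have hs1 : 1 ≤ s := by rw [hs, le_div_iff₀ hK0]; linarith
  have hs0 : 0 < s := by linarith
  have hsB : s * 4 ≤ θ * L := by
    have h1 : 4 ≤ K * θ := by rw [div_le_iff₀ hθ0] at hK; exact hK
    rw [hs, div_mul_eq_mul_div, div_le_iff₀ hK0]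
    nlinarith
  have hθL : θ * L ≤ L / 80 := by nlinarith
  have hTexp : ∀ x : ℝ, T ^ x = Real.exp (x * L) := fun x => by rw [Real.rpow_def_of_pos hT0, mul_comm]
  have hX1 : 1 ≤ X := by
    rw [hX]
    apply Nat.le_floor
    rw [Nat.cast_one]
    exact Real.one_le_rpow hT.le hθ0.le
  have hXr : (1 : ℝ) ≤ X := by exact_mod_cast hX1
  have hX0 : (0 : ℝ) < X := by linarith
  have hXT : (X : ℝ) ≤ T ^ θ := by rw [hX]; exact Nat.floor_le (by positivity)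
  have hlogX : Real.log X ≤ θ * L := by
    calc Real.log X ≤ Real.log (T ^ θ) := Real.log_le_log hX0 hXT
      _ = θ * L := Real.log_rpow hT0 θ
  have hlogX0 : 0 ≤ Real.log X := Real.log_nonneg hXr
  -- the length
  set E : ℝ := Real.exp (L / 2 + 2 * Real.log X + s * 4) with hE
  have hE1 : 1 ≤ E := Real.one_le_exp (by positivity)
  set N : ℕ := ⌈E⌉₊ with hN
  have hEN : E ≤ N := Nat.le_ceil E
  have hN1 : 1 ≤ N := by
    have : (1 : ℝ) ≤ N := hE1.trans hEN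
    exact_mod_cast this
  have hNr : (1 : ℝ) ≤ N := by exact_mod_cast hN1
  have hN0 : (0 : ℝ) < N := by linarith
  have hNlog : L / 2 + 2 * Real.log X + s * 4 ≤ Real.log N := by
    rw [Real.le_log_iff_exp_le hN0]; exact hEN
  have hN2 : (N : ℝ) ≤ 2 * T ^ (1 / 2 + 3 * θ) := by
    have h1 : (N : ℝ) < E + 1 := Nat.ceil_lt_add_one (by positivity)
    have h2 : E ≤ T ^ (1 / 2 + 3 * θ) := by
      rw [hTexp, hE]
      apply Real.exp_le_exp.2
      linarith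
    linarith
  have hβ1 : ∀ n, |β n| ≤ 1 := bt_le_one T ε b
  have hc1 : ∀ x ∈ Finset.Icc 1 X ×ˢ Finset.Icc 1 X, |cA β x| ≤ 1 := fun x hx => cA_le hβ1 hx
  have hmA : ∀ x ∈ Finset.Icc 1 X ×ˢ Finset.Icc 1 X, -Real.log X ≤ mA x ∧ mA x ≤ Real.log X := by
    intro x hx
    simp only [Finset.mem_product, Finset.mem_Icc] at hx
    have p1 : (1 : ℝ) ≤ x.1 := by exact_mod_cast hx.1.1
    have p2 : (1 : ℝ) ≤ x.2 := by exact_mod_cast hx.2.1
    have p3 : (x.1 : ℝ) ≤ X := by exact_mod_cast hx.1.2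
    have p4 : (x.2 : ℝ) ≤ X := by exact_mod_cast hx.2.2
    have l1 := Real.log_nonneg p1
    have l2 := Real.log_nonneg p2
    have l3 := Real.log_le_log (by linarith) p3
    have l4 := Real.log_le_log (by linarith) p4
    unfold mA
    constructor <;> linarith
  -- the formula
  have hform : ∀ t : ℝ, fA s (L / 2) X β t =
      ES ((Finset.Icc 1 X ×ˢ Finset.Icc 1 X) ×ˢ Finset.Icc 1 N) (mc qq s (L / 2) (cA β) mA) (ml mA) t -
        PP Qs s (L / 2) (Finset.Icc 1 X ×ˢ Finset.Icc 1 X) (cA β) mA t := by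
    intro t
    rw [← conv_main Qs Qs_apply (fun y hy => qq_supp hy.le) hs0 (L / 2) _ (cA β) mA hN1 (fun x hx => by
      have := (hmA x hx).1
      linarith) t]
    unfold fA
    congr 1
    funext u
    rw [normsq_Mo]
  -- the pole
  set A : ℝ := ((X : ℝ) * X) * (Aq * Real.exp ((L / 2 + Real.log X + s * 4) / 2)) with hA
  have hpole : ∀ t : ℝ, ‖PP Qs s (L / 2) (Finset.Icc 1 X ×ˢ Finset.Icc 1 X) (cA β) mA t‖ ≤ A / ‖1 - hl t‖ := by
    intro t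
    refine (norm_PP_le Qs (fun y hy => Qs_zero hy) hs0 (L / 2) _ (cA β) mA (fun x hx => (hmA x hx).1) t).trans ?_
    have hz0 : 0 < ‖1 - hl t‖ := norm_pos_iff.2 (one_sub_hl_ne t)
    apply div_le_div_of_nonneg_right _ hz0.le
    rw [hA]
    have h1 : ∑ i ∈ Finset.Icc 1 X ×ˢ Finset.Icc 1 X, |cA β i| ≤ (X : ℝ) * X := by
      refine (Finset.sum_le_card_nsmul _ _ 1 hc1).trans (le_of_eq ?_)
      rw [Finset.card_product, Nat.card_Icc, nsmul_eq_mul, mul_one, Nat.add_sub_cancel]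
      push_cast
      ring
    exact mul_le_mul_of_nonneg_right h1 (mul_nonneg Aq_nonneg (Real.exp_nonneg _))
  have hW : 0 < T + 1 / 2 := by linarith
  obtain ⟨i1, i2⟩ := ms_sub hW τ hform (fA_meas s (L / 2) X β).aestronglyMeasurable
    (pw_sq τ hW _ (mc qq s (L / 2) (cA β) mA) (ml mA)).1 hpole
  refine ⟨i1, i2.trans ?_⟩
  -- the diagonal
  have hdiag := pw_le τ hW ((Finset.Icc 1 X ×ˢ Finset.Icc 1 X) ×ˢ Finset.Icc 1 N) (mc qq s (L / 2) (cA β) mA) (ml mA)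
    (δ := 1 / ((N : ℝ) * X ^ 2)) (fun x hx x' hx' h => mA_sep hx hx' h)
  have hβX : ∀ n, β n ≠ 0 → n ≤ X := by
    intro n hn
    rw [hX]
    exact Nat.le_floor (bt_len hT hε b hn).2
  have h5 := Pool.Agent.Helper33.HG.n5 (X := X) (N := N) (β := β) (qr := qq) (B := 4) (D := D) (s := s) (y₀ := L / 2) hβ1
    (qq_cd.of_le (by exact_mod_cast le_top)) qq_abs hD (fun y hy => qq_supp hy) hs1 hX1 hNlog (by linarith) hβX
  -- tiny terms
  have t1 : (X : ℝ) ^ 6 * Real.exp (s * 4 - L / 2) ≤ T ^ (-(1 / 4) : ℝ) := by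
    have h1 : (X : ℝ) ^ 6 ≤ Real.exp (6 * (θ * L)) := by
      calc (X : ℝ) ^ 6 ≤ (T ^ θ) ^ 6 := pow_le_pow_left₀ hX0.le hXT 6
        _ = Real.exp (6 * (θ * L)) := by rw [hTexp, ← Real.exp_nat_mul]; norm_num
    calc (X : ℝ) ^ 6 * Real.exp (s * 4 - L / 2) ≤ Real.exp (6 * (θ * L)) * Real.exp (s * 4 - L / 2) := by gcongr
      _ = Real.exp (6 * (θ * L) + (s * 4 - L / 2)) := by rw [Real.exp_add]
      _ ≤ Real.exp (-(1 / 4) * L) := by
          apply Real.exp_le_exp.2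
          nlinarith
      _ = T ^ (-(1 / 4) : ℝ) := by rw [hTexp]
  have hNX : (N : ℝ) * X ^ 2 ≤ 2 * T ^ (1 / 2 + 5 * θ) := by
    have h1 : (X : ℝ) ^ 2 ≤ T ^ (2 * θ) := by
      calc (X : ℝ) ^ 2 ≤ (T ^ θ) ^ 2 := pow_le_pow_left₀ hX0.le hXT 2
        _ = T ^ (2 * θ) := by rw [hTexp, hTexp, ← Real.exp_nat_mul]; push_cast; ring_nf
    calc (N : ℝ) * X ^ 2 ≤ 2 * T ^ (1 / 2 + 3 * θ) * T ^ (2 * θ) := by gcongr
      _ = 2 * T ^ (1 / 2 + 5 * θ) := by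
          rw [mul_assoc, ← Real.rpow_add hT0]; ring_nf
  have t2 : (∑ x ∈ (Finset.Icc 1 X ×ˢ Finset.Icc 1 X) ×ˢ Finset.Icc 1 N, |mc qq s (L / 2) (cA β) mA x|) ^ 2 ≤ 4 * T ^ 2 := by
    have h1 : ∑ x ∈ (Finset.Icc 1 X ×ˢ Finset.Icc 1 X) ×ˢ Finset.Icc 1 N, |mc qq s (L / 2) (cA β) mA x| ≤ (N : ℝ) * X ^ 2 := by
      refine (Finset.sum_le_card_nsmul _ _ 1 fun x hx => mc_le qq_abs s (L / 2) hx (hc1 _ (Finset.mem_product.1 hx).1)).trans
        (le_of_eq ?_)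
      rw [Finset.card_product, Finset.card_product, Nat.card_Icc, Nat.card_Icc, nsmul_eq_mul, mul_one, Nat.add_sub_cancel,
        Nat.add_sub_cancel]
      push_cast
      ring
    have h2 : (N : ℝ) * X ^ 2 ≤ 2 * T := by
      refine hNX.trans ?_
      have : T ^ (1 / 2 + 5 * θ) ≤ T ^ (1 : ℝ) := Real.rpow_le_rpow_of_exponent_le hT.le (by linarith)
      rw [Real.rpow_one] at this
      linarith
    calc _ ≤ (2 * T) ^ 2 := pow_le_pow_left₀ (Finset.sum_nonneg fun _ _ => abs_nonneg _) (h1.trans h2) 2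
      _ = 4 * T ^ 2 := by ring
  have t3 : Real.exp (-((T + 1 / 2) * (1 / ((N : ℝ) * X ^ 2)))) ≤ Real.exp (-(T ^ (1 / 4 : ℝ) / 2)) := by
    apply Real.exp_le_exp.2
    apply neg_le_neg
    have hNX0 : 0 < (N : ℝ) * X ^ 2 := by positivity
    calc T ^ (1 / 4 : ℝ) / 2 ≤ T ^ (1 / 2 - 5 * θ) / 2 := by
          have : T ^ (1 / 4 : ℝ) ≤ T ^ (1 / 2 - 5 * θ) := Real.rpow_le_rpow_of_exponent_le hT.le (by linarith)
          linarith
      _ = T / (2 * T ^ (1 / 2 + 5 * θ)) := by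
          have h1 : T ^ (1 / 2 + 5 * θ) ≠ 0 := by positivity
          rw [div_eq_div_iff (by norm_num) (by positivity)]
          have h2 : T ^ (1 / 2 - 5 * θ) * T ^ (1 / 2 + 5 * θ) = T := by
            rw [← Real.rpow_add hT0]; norm_num
          calc T ^ (1 / 2 - 5 * θ) * (2 * T ^ (1 / 2 + 5 * θ)) = 2 * (T ^ (1 / 2 - 5 * θ) * T ^ (1 / 2 + 5 * θ)) := by ring
            _ = T * 2 := by rw [h2]; ring
      _ ≤ T / ((N : ℝ) * X ^ 2) := div_le_div_of_nonneg_left hT0.le hNX0 hNX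
      _ ≤ (T + 1 / 2) * (1 / ((N : ℝ) * X ^ 2)) := by
          rw [mul_one_div]
          exact div_le_div_of_nonneg_right (by linarith) hNX0.le
  have t4 : 4 * A ^ 2 / (T + 1 / 2) ≤ 4 * Aq ^ 2 * T ^ (-(1 / 4) : ℝ) := by
    have h1 : A ≤ Aq * Real.exp (L / 4 + 3 * (θ * L)) := by
      rw [hA]
      have h2 : (X : ℝ) * X ≤ Real.exp (2 * (θ * L)) := by
        calc (X : ℝ) * X ≤ T ^ θ * T ^ θ := mul_le_mul hXT hXT hX0.le (by positivity)
          _ = Real.exp (2 * (θ * L)) := by rw [hTexp, ← Real.exp_add]; ring_nf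
      calc (X : ℝ) * X * (Aq * Real.exp ((L / 2 + Real.log X + s * 4) / 2)) ≤
            Real.exp (2 * (θ * L)) * (Aq * Real.exp ((L / 2 + Real.log X + s * 4) / 2)) :=
            mul_le_mul_of_nonneg_right h2 (mul_nonneg Aq_nonneg (Real.exp_nonneg _))
        _ = Aq * Real.exp (2 * (θ * L) + (L / 2 + Real.log X + s * 4) / 2) := by rw [Real.exp_add]; ring
        _ ≤ _ := by
            apply mul_le_mul_of_nonneg_left _ Aq_nonneg
            apply Real.exp_le_exp.2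
            linarith
    have hA0 : 0 ≤ A := by rw [hA]; exact mul_nonneg (by positivity) (mul_nonneg Aq_nonneg (Real.exp_nonneg _))
    have h3 : A ^ 2 ≤ Aq ^ 2 * Real.exp (L / 2 + 6 * (θ * L)) := by
      calc A ^ 2 ≤ (Aq * Real.exp (L / 4 + 3 * (θ * L))) ^ 2 := pow_le_pow_left₀ hA0 h1 2
        _ = Aq ^ 2 * Real.exp (L / 2 + 6 * (θ * L)) := by
            rw [mul_pow, ← Real.exp_nat_mul]; push_cast; ring_nf
    have h4 : Real.exp (L / 2 + 6 * (θ * L)) ≤ T ^ (-(1 / 4) : ℝ) * T := by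
      have hTL : T = Real.exp L := (Real.exp_log hT0).symm
      calc Real.exp (L / 2 + 6 * (θ * L)) ≤ Real.exp (-(1 / 4) * L + L) := by
            apply Real.exp_le_exp.2
            linarith
        _ = T ^ (-(1 / 4) : ℝ) * T := by rw [Real.exp_add, hTexp, ← hTL]
    calc 4 * A ^ 2 / (T + 1 / 2) ≤ 4 * A ^ 2 / T := by
          apply div_le_div_of_nonneg_left (by positivity) hT0 (by linarith)
      _ ≤ 4 * (Aq ^ 2 * (T ^ (-(1 / 4) : ℝ) * T)) / T := by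
          apply div_le_div_of_nonneg_right _ hT0.le
          apply mul_le_mul_of_nonneg_left _ (by norm_num)
          exact h3.trans (mul_le_mul_of_nonneg_left h4 (by positivity))
      _ = 4 * Aq ^ 2 * T ^ (-(1 / 4) : ℝ) := by field_simp
  have hD0 : 0 ≤ D := (abs_nonneg _).trans (hD 0)
  have hfin : ∫ t : ℝ, PW (T + 1 / 2) (t - τ) *
      ‖ES ((Finset.Icc 1 X ×ˢ Finset.Icc 1 X) ×ˢ Finset.Icc 1 N) (mc qq s (L / 2) (cA β) mA) (ml mA) t‖ ^ 2 ≤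
      s * (∫ y, qq y ^ 2) * Ql (X * X) (conv β β) (1 / 2) + 16 * (1 + 2 * D) * T ^ (-(1 / 4) : ℝ) +
        4 * T ^ 2 * Real.exp (-(T ^ (1 / 4 : ℝ) / 2)) := by
    refine hdiag.trans ?_
    have h6 : 16 * (1 + 2 * D) * (X : ℝ) ^ 6 * Real.exp (s * 4 - L / 2) ≤ 16 * (1 + 2 * D) * T ^ (-(1 / 4) : ℝ) := by
      rw [mul_assoc (16 * (1 + 2 * D))]
      exact mul_le_mul_of_nonneg_left t1 (by positivity)
    have h7 := mul_le_mul t2 t3 (Real.exp_nonneg _) (by positivity)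
    linarith
  linarith

end

end Pool.Agent.Helper49.HG
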