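import Pool.Agent.Helper49.HG.Nb
import Pool.Agent.Helper66.HG.Fin

/-!
# Hall gaps, NG: mean square of the smoothed `ζ φ² - 1`
-/

set_option autoImplicit false

namespace Pool.Agent.Helper49.HG

open Complex Set MeasureTheory Filter Topology
open scoped FourierTransform SchwartzMap ComplexConjugate
open Pool.Agent.HL9 Pool.Agent.Helper69.HG Pool.Agent.Helper44.HL
open Pool.Agent.Helper57.ED hiding qq

noncomputable section

/-- grouping by the product -/
lemma lam_sum {Y N : ℕ} {a : ℕ → ℝ} (ha : ∀ n, a n ≠ 0 → n ≤ Y) (F : ℕ → ℂ) (hF : ∀ m, N < m → F m = 0) :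
    ∑ p ∈ Finset.Icc 1 Y, ∑ n ∈ Finset.Icc 1 N, (a p : ℂ) * F (p * n) = ∑ m ∈ Finset.Icc 1 N, (lam a m : ℂ) * F m := by
  classical
  set P := ((Finset.Icc 1 Y) ×ˢ (Finset.Icc 1 N)).filter (fun x : ℕ × ℕ => x.1 * x.2 ≤ N) with hP
  have h1 : ∑ p ∈ Finset.Icc 1 Y, ∑ n ∈ Finset.Icc 1 N, (a p : ℂ) * F (p * n) = ∑ x ∈ P, (a x.1 : ℂ) * F (x.1 * x.2) := by
    rw [← Finset.sum_product', hP, Finset.sum_filter]
    refine Finset.sum_congr rfl fun x _ => ?_
    split_ifs with h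
    · rfl
    · rw [hF _ (not_le.1 h), mul_zero]
  rw [h1, ← Finset.sum_fiberwise_of_maps_to (s := P) (t := Finset.Icc 1 N) (g := fun x => x.1 * x.2)
    (fun x hx => by
      rw [hP, Finset.mem_filter, Finset.mem_product, Finset.mem_Icc, Finset.mem_Icc] at hx
      rw [Finset.mem_Icc]
      exact ⟨Nat.mul_pos hx.1.1.1 hx.1.2.1, hx.2⟩)]
  refine Finset.sum_congr rfl fun h hh => ?_
  rw [Finset.mem_Icc] at hh
  have hh0 : h ≠ 0 := by omega
  have h2 : ∑ x ∈ P with x.1 * x.2 = h, (a x.1 : ℂ) * F (x.1 * x.2) = ∑ x ∈ P with x.1 * x.2 = h, (a x.1 : ℂ) * F h := by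
    refine Finset.sum_congr rfl fun x hx => ?_
    rw [(Finset.mem_filter.1 hx).2]
  rw [h2, ← Finset.sum_mul]
  congr 1
  rw [← Complex.ofReal_sum]
  congr 1
  have h3 : lam a h = ∑ x ∈ h.divisorsAntidiagonal, a x.1 := by
    rw [Nat.sum_divisorsAntidiagonal (fun i _ => a i)]
    rfl
  rw [h3]
  apply Finset.sum_subset_zero_on_sdiff
  · intro x hx
    rw [Finset.mem_filter, hP, Finset.mem_filter, Finset.mem_product, Finset.mem_Icc, Finset.mem_Icc] at hx
    rw [Nat.mem_divisorsAntidiagonal]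
    exact ⟨hx.2, hh0⟩
  · intro x hx
    rw [Finset.mem_sdiff, Nat.mem_divisorsAntidiagonal, Finset.mem_filter, hP, Finset.mem_filter, Finset.mem_product,
      Finset.mem_Icc, Finset.mem_Icc] at hx
    by_contra hcon
    apply hx.2
    have h5 : x.1 ≠ 0 := fun h0 => hh0 (by rw [← hx.1.1, h0, zero_mul])
    have h6 : x.2 ≠ 0 := fun h0 => hh0 (by rw [← hx.1.1, h0, mul_zero])
    have h7 : x.2 ≤ h := by
      rw [← hx.1.1]
      exact Nat.le_mul_of_pos_left _ (by omega)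
    exact ⟨⟨⟨⟨by omega, ha _ hcon⟩, by omega, by omega⟩, by rw [hx.1.1]; exact hh.2⟩, hx.1.1⟩
  · intro x _; rfl

/-- the smoothed function `ζ φ²` minus one -/
def fB (s : ℝ) (X : ℕ) (β : ℕ → ℝ) (t : ℝ) : ℂ :=
  (∫ u : ℝ, KL Qs s u * (riemannZeta (hl (t - u)) * Mo X β (1 / 2 + I * ((t - u : ℝ) : ℂ)) ^ 2)) - 1

lemma fB_meas (s : ℝ) (X : ℕ) (β : ℕ → ℝ) : StronglyMeasurable (fB s X β) := by
  unfold fB
  apply StronglyMeasurable.sub _ stronglyMeasurable_const
  apply StronglyMeasurable.integral_prod_right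
  apply Continuous.stronglyMeasurable
  have h1 : Continuous fun x : ℝ × ℝ => KL Qs s x.2 := (continuous_KL Qs s).comp continuous_snd
  have h2 : Continuous fun x : ℝ × ℝ => riemannZeta (hl (x.1 - x.2)) := continuous_zeta_hl.comp (continuous_fst.sub continuous_snd)
  have h3 : Continuous fun x : ℝ × ℝ => Mo X β (1 / 2 + I * ((x.1 - x.2 : ℝ) : ℂ)) ^ 2 :=
    ((Mo_cont X β).comp (continuous_fst.sub continuous_snd)).pow 2
  exact h1.mul (h2.mul h3)

lemma abs_lam_le {a : ℕ → ℝ} (ha : ∀ n, |a n| ≤ 1) (m : ℕ) : |lam a m| ≤ m := by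
  unfold lam
  refine (Finset.abs_sum_le_sum_abs _ _).trans ?_
  refine (Finset.sum_le_card_nsmul _ _ 1 fun n _ => ha n).trans ?_
  rw [nsmul_eq_mul, mul_one]
  exact_mod_cast Nat.card_divisors_le_self m

theorem n8b_ineq {T K ε : ℝ} {b : ℕ} (hT : 2 ≤ T) (hε : 0 < ε) (hε1 : ε ≤ 1 / 80) (hθ : ε * (2 * b + 2) ≤ 1 / 80)
    (hK : 8 / ε ≤ K) (hKL : K ≤ Real.log T) (X : ℕ)
    (hX : X = ⌊T ^ (ε * (2 * b + 2))⌋₊) (τ : ℝ) (hTε : 2 ≤ T ^ (ε / 2)) :
    Integrable (fun t : ℝ => PW (T + 1 / 2) (t - τ) * ‖fB (Real.log T / K) X (bt T ε b) t‖ ^ 2) ∧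
    ∫ t : ℝ, PW (T + 1 / 2) (t - τ) * ‖fB (Real.log T / K) X (bt T ε b) t‖ ^ 2 ≤
      2 * ((∑ m ∈ Finset.Icc 2 ⌊T ^ ε⌋₊, lam (conv (bt T ε b) (bt T ε b)) m ^ 2 / m) +
        T ^ 4 * Real.exp (-(T ^ (1 / 2 : ℝ)))) + 4 * Aq ^ 2 * T ^ (-(1 / 4) : ℝ) := by
  classical
  set θ : ℝ := ε * (2 * b + 2) with hθd
  set β : ℕ → ℝ := bt T ε b with hβd
  set a : ℕ → ℝ := conv β β with had
  have hT1 : 1 < T := by linarith
  have hT0 : 0 < T := by linarith
  have hCM : IsCM T ε b a := isCM_bt b hT1 hε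
  have hL : 0 < Real.log T := Real.log_pos hT1
  set L : ℝ := Real.log T with hLd
  have hb0 : (0 : ℝ) ≤ b := Nat.cast_nonneg _
  have hθ0 : 0 < θ := by positivity
  have hK0 : 0 < K := lt_of_lt_of_le (by positivity) hK
  set s : ℝ := L / K with hs
  have hs1 : 1 ≤ s := by rw [hs, le_div_iff₀ hK0]; linarith
  have hs0 : 0 < s := by linarith
  have hsB : s * 4 ≤ ε / 2 * L := by
    have h1 : 8 ≤ K * ε := by rw [div_le_iff₀ hε] at hK; exact hK
    rw [hs, div_mul_eq_mul_div, div_le_iff₀ hK0]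
    nlinarith
  have hθL : θ * L ≤ L / 80 := by nlinarith
  have hεL : ε * L ≤ L / 80 := by nlinarith
  have hTexp : ∀ x : ℝ, T ^ x = Real.exp (x * L) := fun x => by rw [Real.rpow_def_of_pos hT0, mul_comm]
  have hX1 : 1 ≤ X := by
    rw [hX]
    apply Nat.le_floor
    rw [Nat.cast_one]
    exact Real.one_le_rpow hT1.le hθ0.le
  have hXr : (1 : ℝ) ≤ X := by exact_mod_cast hX1
  have hX0 : (0 : ℝ) < X := by linarith
  have hXT : (X : ℝ) ≤ T ^ θ := by rw [hX]; exact Nat.floor_le (by positivity)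
  have hβX : ∀ n, β n ≠ 0 → n ≤ X := by
    intro n hn
    rw [hX]
    exact Nat.le_floor (bt_len hT1 hε b hn).2
  set N : ℕ := ⌊T ^ ε⌋₊ with hN
  have hTε2 : T ^ ε = T ^ (ε / 2) * T ^ (ε / 2) := by rw [← Real.rpow_add hT0]; ring_nf
  have hNT : (N : ℝ) ≤ T ^ ε := Nat.floor_le (by positivity)
  have hNlow : T ^ (ε / 2) ≤ N := by
    have h1 : T ^ ε < N + 1 := Nat.lt_floor_add_one _
    nlinarith
  have hN1 : 1 ≤ N := by
    have : (1 : ℝ) ≤ N := by linarith
    exact_mod_cast this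
  have hNr : (1 : ℝ) ≤ N := by exact_mod_cast hN1
  have hN0 : (0 : ℝ) < N := by linarith
  have hNlog : s * 4 ≤ Real.log N := by
    refine hsB.trans ?_
    calc ε / 2 * L = Real.log (T ^ (ε / 2)) := (Real.log_rpow hT0 _).symm
      _ ≤ Real.log N := Real.log_le_log (by positivity) hNlow
  -- supports
  have haX : ∀ n, a n ≠ 0 → n ≤ X * X := by
    intro n hn
    by_contra hcon
    apply hn
    rw [had]
    unfold conv
    refine Finset.sum_eq_zero fun d hd => ?_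
    have hd1 := Nat.mem_divisors.1 hd
    by_contra h2
    have h3 := hβX _ (left_ne_zero_of_mul h2)
    have h4 := hβX _ (right_ne_zero_of_mul h2)
    apply hcon
    calc n = d * (n / d) := (Nat.mul_div_cancel' hd1.1).symm
      _ ≤ X * X := Nat.mul_le_mul h3 h4
  have ha1 : ∀ n, |a n| ≤ 1 := hCM.bd
  set J : Finset ℕ := Finset.Icc 1 (X * X) with hJ
  set c : ℕ → ℝ := fun n => a n * (n : ℝ) ^ (-(1 / 2) : ℝ) with hc
  set μ : ℕ → ℝ := fun n => Real.log n with hμ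
  have hμ0 : ∀ n ∈ J, -(0 : ℝ) ≤ μ n := by
    intro n hn
    rw [hμ, neg_zero]
    exact Real.log_nonneg (by exact_mod_cast (Finset.mem_Icc.1 hn).1)
  have hc1 : ∀ n ∈ J, |c n| ≤ 1 := by
    intro n hn
    have hn1 : (1 : ℝ) ≤ n := by exact_mod_cast (Finset.mem_Icc.1 hn).1
    have h1 := rpow_half_le_one hn1
    have h2 : 0 ≤ (n : ℝ) ^ (-(1 / 2) : ℝ) := by positivity
    rw [hc]
    simp only
    rw [abs_mul, abs_of_nonneg h2]
    calc |a n| * (n : ℝ) ^ (-(1 / 2) : ℝ) ≤ 1 * 1 := mul_le_mul (ha1 n) h1 h2 zero_le_one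
      _ = 1 := one_mul 1
  -- the formula
  set C : ℕ → ℝ := fun m => lam a m * (m : ℝ) ^ (-(1 / 2) : ℝ) * qq (Real.log m / s) with hC
  have hform : ∀ t : ℝ, fB s X β t = ES (Finset.Icc 2 N) C μ t - PP Qs s 0 J c μ t := by
    intro t
    have hcv := conv_main Qs Qs_apply (fun y hy => qq_supp hy.le) hs0 0 J c μ hN1 (fun n hn => by
      have := hμ0 n hn
      linarith) t
    have e1 : ∫ u : ℝ, KL Qs s u * (riemannZeta (hl (t - u)) * Mo X β (1 / 2 + I * ((t - u : ℝ) : ℂ)) ^ 2) =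
        ∫ u : ℝ, KL Qs s u * cexp (-(I * u * (0 : ℝ))) * (riemannZeta (hl (t - u)) * ES J c μ (t - u)) := by
      congr 1
      funext u
      have e0 : cexp (-(I * (u : ℂ) * ((0 : ℝ) : ℂ))) = 1 := by simp
      rw [sq_Mo hβX, Mo_ES, e0, mul_one]
    unfold fB
    rw [e1, hcv]
    set F : ℕ → ℂ := fun m => (((m : ℝ) ^ (-(1 / 2) : ℝ) * qq (Real.log m / s) : ℝ) : ℂ) * cexp (-(I * ((Real.log m : ℝ) * t))) with hF
    have hF0 : ∀ m, N < m → F m = 0 := by
      intro m hm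
      have hmN : (N : ℝ) + 1 ≤ m := by exact_mod_cast hm
      have h1 : T ^ ε < m := (Nat.lt_floor_add_one _).trans_le hmN
      have h2 : ε * L ≤ Real.log m := by
        calc ε * L = Real.log (T ^ ε) := (Real.log_rpow hT0 _).symm
          _ ≤ Real.log m := Real.log_le_log (by positivity) h1.le
      have h3 : 4 ≤ Real.log m / s := by
        rw [le_div_iff₀ hs0]
        have : 0 ≤ ε / 2 * L := by positivity
        linarith
      rw [hF]
      simp only
      rw [qq_supp (h3.trans (le_abs_self _)), mul_zero, Complex.ofReal_zero, zero_mul]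
    have e2 : ES (J ×ˢ Finset.Icc 1 N) (mc qq s 0 c μ) (ml μ) t = ∑ m ∈ Finset.Icc 1 N, (lam a m : ℂ) * F m := by
      rw [← lam_sum haX F hF0]
      unfold ES
      rw [Finset.sum_product]
      refine Finset.sum_congr rfl fun p hp => Finset.sum_congr rfl fun n hn => ?_
      have hp1 : (1 : ℝ) ≤ p := by exact_mod_cast (Finset.mem_Icc.1 hp).1
      have hn1 : (1 : ℝ) ≤ n := by exact_mod_cast (Finset.mem_Icc.1 hn).1
      have hp0 : (p : ℝ) ≠ 0 := by linarith
      have hn0 : (n : ℝ) ≠ 0 := by linarith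
      unfold mc ml
      rw [hF, hc, hμ]
      simp only
      have e3 : (((p * n : ℕ) : ℝ)) = (p : ℝ) * n := by push_cast; ring
      rw [e3, Real.mul_rpow (by linarith) (by linarith), Real.log_mul hp0 hn0]
      have e4 : (Real.log n + Real.log p - 0) / s = (Real.log p + Real.log n) / s := by ring
      rw [e4]
      push_cast
      ring
    have e5 : ∑ m ∈ Finset.Icc 1 N, (lam a m : ℂ) * F m = 1 + ES (Finset.Icc 2 N) C μ t := by
      have hsplit : Finset.Icc 1 N = insert 1 (Finset.Icc 2 N) := by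
        ext m
        rw [Finset.mem_insert, Finset.mem_Icc, Finset.mem_Icc]
        omega
      rw [hsplit, Finset.sum_insert (by rw [Finset.mem_Icc]; omega)]
      have h1 : lam a 1 = 1 := by
        unfold lam
        rw [Nat.divisors_one, Finset.sum_singleton, hCM.one]
      congr 1
      · rw [h1, hF]
        simp [qq_zero]
      · unfold ES
        refine Finset.sum_congr rfl fun m _ => ?_
        rw [hF, hC, hμ]
        simp only
        push_cast
        ring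
    rw [e2, e5]
    ring
  -- the pole
  set A : ℝ := ((X : ℝ) * X) * (Aq * Real.exp ((0 + 0 + s * 4) / 2)) with hA
  have hpole : ∀ t : ℝ, ‖PP Qs s 0 J c μ t‖ ≤ A / ‖1 - hl t‖ := by
    intro t
    refine (norm_PP_le Qs (fun y hy => Qs_zero hy) hs0 0 J c μ hμ0 t).trans ?_
    have hz0 : 0 < ‖1 - hl t‖ := norm_pos_iff.2 (one_sub_hl_ne t)
    apply div_le_div_of_nonneg_right _ hz0.le
    rw [hA]
    have h1 : ∑ i ∈ J, |c i| ≤ (X : ℝ) * X := by
      refine (Finset.sum_le_card_nsmul _ _ 1 hc1).trans (le_of_eq ?_)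
      rw [hJ, Nat.card_Icc, nsmul_eq_mul, mul_one, Nat.add_sub_cancel]
      push_cast
      ring
    exact mul_le_mul_of_nonneg_right h1 (mul_nonneg Aq_nonneg (Real.exp_nonneg _))
  have hW : 0 < T + 1 / 2 := by linarith
  obtain ⟨i1, i2⟩ := ms_sub hW τ hform (fB_meas s X β).aestronglyMeasurable
    (pw_sq τ hW _ C μ).1 hpole
  refine ⟨i1, i2.trans ?_⟩
  have hinj : ∀ m ∈ Finset.Icc 2 N, ∀ m' ∈ Finset.Icc 2 N, μ m = μ m' → m = m' := by
    intro m hm m' hm' h
    have h1 : (0 : ℝ) < m := by exact_mod_cast (show 0 < m by have := (Finset.mem_Icc.1 hm).1; omega)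
    have h2 : (0 : ℝ) < m' := by exact_mod_cast (show 0 < m' by have := (Finset.mem_Icc.1 hm').1; omega)
    exact_mod_cast Real.log_injOn_pos h1 h2 h
  have hdiag := pw_le τ hW (Finset.Icc 2 N) C μ (δ := 1 / (N : ℝ)) (fun m hm m' hm' h => by
    obtain ⟨g1, g2⟩ := Finset.mem_Icc.1 hm
    obtain ⟨g3, g4⟩ := Finset.mem_Icc.1 hm'
    exact log_sep (by omega) (by omega) (by exact_mod_cast g2) (by exact_mod_cast g4) fun h0 => h (by rw [h0]))
  have hCabs : ∀ m ∈ Finset.Icc 2 N, |C m| ≤ N := by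
    intro m hm
    obtain ⟨g1, g2⟩ := Finset.mem_Icc.1 hm
    have g3 : (m : ℝ) ≤ N := by exact_mod_cast g2
    have g4 : (1 : ℝ) ≤ m := by exact_mod_cast (show 1 ≤ m by omega)
    have h1 := rpow_half_le_one g4
    have h2 : 0 ≤ (m : ℝ) ^ (-(1 / 2) : ℝ) := by positivity
    rw [hC]
    simp only
    rw [abs_mul, abs_mul, abs_of_nonneg h2]
    calc |lam a m| * (m : ℝ) ^ (-(1 / 2) : ℝ) * |qq (Real.log m / s)| ≤ (m : ℝ) * 1 * 1 :=
          mul_le_mul (mul_le_mul (abs_lam_le ha1 m) h1 h2 (by linarith)) (qq_abs _) (abs_nonneg _) (by linarith)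
      _ ≤ N := by linarith
  have hd2 : (∑ i ∈ Finset.Icc 2 N, ∑ j ∈ Finset.Icc 2 N, if μ i = μ j then C i * C j else 0) ≤
      ∑ m ∈ Finset.Icc 2 N, lam a m ^ 2 / m := by
    refine Finset.sum_le_sum fun m hm => ?_
    have e : (∑ j ∈ Finset.Icc 2 N, if μ m = μ j then C m * C j else 0) = C m * C m := by
      rw [Finset.sum_eq_single_of_mem m hm]
      · rw [if_pos rfl]
      · intro j hj hjm
        rw [if_neg fun h => hjm (hinj j hj m hm h.symm)]
    rw [e]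
    obtain ⟨g1, g2⟩ := Finset.mem_Icc.1 hm
    have g4 : (0 : ℝ) < m := by exact_mod_cast (show 0 < m by omega)
    have h1 : ((m : ℝ) ^ (-(1 / 2) : ℝ)) * ((m : ℝ) ^ (-(1 / 2) : ℝ)) = 1 / m := by
      rw [← Real.rpow_add g4]
      norm_num
      rw [Real.rpow_neg_one]
    have h2 : qq (Real.log m / s) * qq (Real.log m / s) ≤ 1 := by
      have h3 := qq_abs (Real.log m / s)
      have h4 : qq (Real.log m / s) ^ 2 ≤ 1 := by
        rw [← sq_abs]
        exact pow_le_one₀ (abs_nonneg _) h3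
      nlinarith
    rw [hC]
    simp only
    calc lam a m * (m : ℝ) ^ (-(1 / 2) : ℝ) * qq (Real.log m / s) * (lam a m * (m : ℝ) ^ (-(1 / 2) : ℝ) * qq (Real.log m / s)) =
          lam a m ^ 2 * ((m : ℝ) ^ (-(1 / 2) : ℝ) * (m : ℝ) ^ (-(1 / 2) : ℝ)) * (qq (Real.log m / s) * qq (Real.log m / s)) := by ring
      _ ≤ lam a m ^ 2 * ((m : ℝ) ^ (-(1 / 2) : ℝ) * (m : ℝ) ^ (-(1 / 2) : ℝ)) * 1 := by
          apply mul_le_mul_of_nonneg_left h2
          positivity
      _ = lam a m ^ 2 / m := by rw [h1]; ring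
  have t2 : (∑ m ∈ Finset.Icc 2 N, |C m|) ^ 2 ≤ T ^ 4 := by
    have h1 : ∑ m ∈ Finset.Icc 2 N, |C m| ≤ (N : ℝ) * N := by
      refine (Finset.sum_le_card_nsmul _ _ (N : ℝ) hCabs).trans ?_
      rw [nsmul_eq_mul]
      apply mul_le_mul_of_nonneg_right _ hN0.le
      have : (Finset.Icc 2 N).card ≤ N := by rw [Nat.card_Icc]; omega
      exact_mod_cast this
    have h2 : (N : ℝ) ≤ T := by
      refine hNT.trans ?_
      calc T ^ ε ≤ T ^ (1 : ℝ) := Real.rpow_le_rpow_of_exponent_le hT1.le (by linarith)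
        _ = T := Real.rpow_one T
    calc (∑ m ∈ Finset.Icc 2 N, |C m|) ^ 2 ≤ (T * T) ^ 2 := by
          apply pow_le_pow_left₀ (Finset.sum_nonneg fun _ _ => abs_nonneg _)
          exact h1.trans (mul_le_mul h2 h2 hN0.le hT0.le)
      _ = T ^ 4 := by ring
  have t3 : Real.exp (-((T + 1 / 2) * (1 / (N : ℝ)))) ≤ Real.exp (-(T ^ (1 / 2 : ℝ))) := by
    apply Real.exp_le_exp.2
    apply neg_le_neg
    calc T ^ (1 / 2 : ℝ) ≤ T ^ (1 - ε) := Real.rpow_le_rpow_of_exponent_le hT1.le (by linarith)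
      _ = T / T ^ ε := by rw [Real.rpow_sub hT0, Real.rpow_one]
      _ ≤ T / N := div_le_div_of_nonneg_left hT0.le hN0 hNT
      _ ≤ (T + 1 / 2) * (1 / (N : ℝ)) := by
          have q1 : T ≤ T + 1 / 2 := by linarith
          have q2 : 0 ≤ 1 / (N : ℝ) := by positivity
          have q3 := mul_le_mul_of_nonneg_right q1 q2
          rwa [mul_one_div] at q3
  have t4 : 4 * A ^ 2 / (T + 1 / 2) ≤ 4 * Aq ^ 2 * T ^ (-(1 / 4) : ℝ) := by
    have h1 : A ≤ Aq * Real.exp (L / 4) := by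
      rw [hA]
      have h2 : (X : ℝ) * X ≤ Real.exp (2 * (θ * L)) := by
        calc (X : ℝ) * X ≤ T ^ θ * T ^ θ := mul_le_mul hXT hXT hX0.le (by positivity)
          _ = Real.exp (2 * (θ * L)) := by rw [hTexp, ← Real.exp_add]; ring_nf
      calc (X : ℝ) * X * (Aq * Real.exp ((0 + 0 + s * 4) / 2)) ≤
            Real.exp (2 * (θ * L)) * (Aq * Real.exp ((0 + 0 + s * 4) / 2)) :=
            mul_le_mul_of_nonneg_right h2 (mul_nonneg Aq_nonneg (Real.exp_nonneg _))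
        _ = Aq * Real.exp (2 * (θ * L) + (0 + 0 + s * 4) / 2) := by rw [Real.exp_add]; ring
        _ ≤ _ := by
            apply mul_le_mul_of_nonneg_left _ Aq_nonneg
            apply Real.exp_le_exp.2
            linarith
    have hA0 : 0 ≤ A := by rw [hA]; exact mul_nonneg (by positivity) (mul_nonneg Aq_nonneg (Real.exp_nonneg _))
    have h3 : A ^ 2 ≤ Aq ^ 2 * Real.exp (L / 2) := by
      calc A ^ 2 ≤ (Aq * Real.exp (L / 4)) ^ 2 := pow_le_pow_left₀ hA0 h1 2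
        _ = Aq ^ 2 * Real.exp (L / 2) := by
            rw [mul_pow, ← Real.exp_nat_mul]; push_cast; ring_nf
    have h4 : Real.exp (L / 2) ≤ T ^ (-(1 / 4) : ℝ) * T := by
      have hTL : T = Real.exp L := (Real.exp_log hT0).symm
      calc Real.exp (L / 2) ≤ Real.exp (-(1 / 4) * L + L) := by
            apply Real.exp_le_exp.2
            linarith
        _ = T ^ (-(1 / 4) : ℝ) * T := by rw [Real.exp_add, hTexp, ← hTL]
    calc 4 * A ^ 2 / (T + 1 / 2) ≤ 4 * A ^ 2 / T := by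
          apply div_le_div_of_nonneg_left (by positivity) hT0 (by linarith)
      _ ≤ 4 * (Aq ^ 2 * (T ^ (-(1 / 4) : ℝ) * T)) / T := by
          apply div_le_div_of_nonneg_right _ hT0.le
          apply mul_le_mul_of_nonneg_left _ (by norm_num)
          exact h3.trans (mul_le_mul_of_nonneg_left h4 (by positivity))
      _ = 4 * Aq ^ 2 * T ^ (-(1 / 4) : ℝ) := by field_simp
  have hfin : ∫ t : ℝ, PW (T + 1 / 2) (t - τ) * ‖ES (Finset.Icc 2 N) C μ t‖ ^ 2 ≤
      (∑ m ∈ Finset.Icc 2 N, lam a m ^ 2 / m) + T ^ 4 * Real.exp (-(T ^ (1 / 2 : ℝ))) := by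
    refine hdiag.trans ?_
    have h7 := mul_le_mul t2 t3 (Real.exp_nonneg _) (by positivity)
    linarith
  linarith

end

end Pool.Agent.Helper49.HG
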