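import Pool.Agent.Helper49.HG.Nc
import Pool.Agent.Helper44.HL.N8c
import Pool.Agent.Helper57.HL.N8e

/-!
# Hall gaps, NG: tools of the assembly
-/

set_option autoImplicit false

namespace Pool.Agent.Helper49.HG

open Complex Set MeasureTheory Filter Topology
open scoped FourierTransform SchwartzMap ComplexConjugate
open Pool.Agent.HL9 Pool.Agent.Helper69.HG Pool.Agent.Helper44.HL
open Pool.Agent.Helper57.ED hiding qq

noncomputable section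

/-- bound for the derivative of the multiplier -/
lemma dqq : ∃ D : ℝ, ∀ y, |deriv qq y| ≤ D := by
  have hcs : HasCompactSupport qq := by
    apply HasCompactSupport.intro (isCompact_Icc (a := (-4 : ℝ)) (b := 4))
    intro y hy
    apply qq_supp
    by_contra h
    push Not at h
    exact hy ⟨by linarith [(abs_lt.1 h).1], by linarith [(abs_lt.1 h).2]⟩
  obtain ⟨D, hD⟩ := (qq_cd.continuous_deriv (by exact_mod_cast le_top)).bounded_above_of_compact_support hcs.deriv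
  exact ⟨D, fun y => by rw [← Real.norm_eq_abs]; exact hD y⟩

lemma conv_supp {X : ℕ} {β : ℕ → ℝ} (hβX : ∀ n, β n ≠ 0 → n ≤ X) (n : ℕ) (hn : conv β β n ≠ 0) : n ≤ X * X := by
  by_contra hcon
  apply hn
  unfold conv
  refine Finset.sum_eq_zero fun d hd => ?_
  have hd1 := Nat.mem_divisors.1 hd
  by_contra h2
  have h3 := hβX _ (left_ne_zero_of_mul h2)
  have h4 := hβX _ (right_ne_zero_of_mul h2)
  apply hcon
  calc n = d * (n / d) := (Nat.mul_div_cancel' hd1.1).symm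
    _ ≤ X * X := Nat.mul_le_mul h3 h4

lemma Ql_ext {X Y : ℕ} (hXY : X ≤ Y) {a : ℕ → ℝ} (ha : ∀ n, a n ≠ 0 → n ≤ X) (σ : ℝ) : Ql Y a σ = Ql X a σ := by
  have hsub : Finset.Icc 1 X ⊆ Finset.Icc 1 Y := Finset.Icc_subset_Icc_right hXY
  have hz : ∀ n ∈ Finset.Icc 1 Y, n ∉ Finset.Icc 1 X → a n = 0 := by
    intro n hn hn'
    by_contra h0
    exact hn' (Finset.mem_Icc.2 ⟨(Finset.mem_Icc.1 hn).1, ha n h0⟩)
  unfold Ql
  symm
  calc ∑ h ∈ Finset.Icc 1 X, ∑ k ∈ Finset.Icc 1 X, a h * a k * (Nat.lcm h k : ℝ) ^ (-2 * σ) =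
        ∑ h ∈ Finset.Icc 1 X, ∑ k ∈ Finset.Icc 1 Y, a h * a k * (Nat.lcm h k : ℝ) ^ (-2 * σ) := by
        refine Finset.sum_congr rfl fun h _ => Finset.sum_subset hsub fun k hk hk' => ?_
        rw [hz k hk hk']; ring
    _ = _ := by
        refine Finset.sum_subset hsub fun h hh hh' => Finset.sum_eq_zero fun k _ => ?_
        rw [hz h hh hh']; ring

lemma Mo_ext {X Y : ℕ} (hXY : X ≤ Y) {a : ℕ → ℝ} (ha : ∀ n, a n ≠ 0 → n ≤ X) (z : ℂ) : Mo Y a z = Mo X a z := by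
  have hsub : Finset.Icc 1 X ⊆ Finset.Icc 1 Y := Finset.Icc_subset_Icc_right hXY
  unfold Mo
  symm
  refine Finset.sum_subset hsub fun n hn hn' => ?_
  have : a n = 0 := by
    by_contra h0
    exact hn' (Finset.mem_Icc.2 ⟨(Finset.mem_Icc.1 hn).1, ha n h0⟩)
  rw [this]
  simp

/-- lower bound for the weight -/
lemma PW_low {T t : ℝ} (hT : 2 ≤ T) (ht : t ∈ Icc T (2 * T + 1)) : 1 / (10 * T) ≤ PW (T + 1 / 2) (t - 3 * T / 2) := by
  have hT0 : 0 < T := by linarith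
  unfold PW
  have hv : (t - 3 * T / 2) ^ 2 ≤ (T / 2 + 1) ^ 2 := by
    apply sq_le_sq'
    · linarith [ht.1]
    · linarith [ht.2]
  have h1 : (T + 1 / 2) ^ 2 + (t - 3 * T / 2) ^ 2 ≤ 41 / 16 * T ^ 2 := by nlinarith
  have h2 : Real.pi ≤ 3.15 := Real.pi_lt_d2.le
  have hpos : 0 < (T + 1 / 2) ^ 2 + (t - 3 * T / 2) ^ 2 := by positivity
  rw [div_le_div_iff₀ (by positivity) (by positivity), one_mul]
  calc Real.pi * ((T + 1 / 2) ^ 2 + (t - 3 * T / 2) ^ 2) ≤ 3.15 * (41 / 16 * T ^ 2) :=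
        mul_le_mul h2 h1 hpos.le (by norm_num)
    _ ≤ (T + 1 / 2) * (10 * T) := by nlinarith

/-- Markov's inequality for the weight -/
lemma markov_pw {T : ℝ} (hT : 2 ≤ T) {f : ℝ → ℂ} {I₀ : ℝ}
    (hf : Integrable (fun t : ℝ => PW (T + 1 / 2) (t - 3 * T / 2) * ‖f t‖ ^ 2))
    (hI : ∫ t : ℝ, PW (T + 1 / 2) (t - 3 * T / 2) * ‖f t‖ ^ 2 ≤ I₀) :
    volume {t : ℝ | t ∈ Icc T (2 * T + 1) ∧ 1 / 4 ≤ ‖f t‖} ≤ ENNReal.ofReal (160 * T * I₀) := by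
  have hT0 : 0 < T := by linarith
  have hW : 0 < T + 1 / 2 := by linarith
  set g : ℝ → ℝ := fun t : ℝ => PW (T + 1 / 2) (t - 3 * T / 2) * ‖f t‖ ^ 2 with hg
  have h0 : 0 ≤ᵐ[volume] g := Eventually.of_forall fun t => mul_nonneg (PW_pos hW _).le (by positivity)
  have hε : (0 : ℝ) < 1 / (160 * T) := by positivity
  have h1 := mul_meas_ge_le_integral_of_nonneg h0 hf (1 / (160 * T))
  have h2 : {t : ℝ | t ∈ Icc T (2 * T + 1) ∧ 1 / 4 ≤ ‖f t‖} ⊆ {t | 1 / (160 * T) ≤ g t} := by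
    rintro t ⟨ht, ht2⟩
    show 1 / (160 * T) ≤ PW (T + 1 / 2) (t - 3 * T / 2) * ‖f t‖ ^ 2
    have h3 : (1 / 16 : ℝ) ≤ ‖f t‖ ^ 2 := by nlinarith
    calc 1 / (160 * T) = 1 / (10 * T) * (1 / 16) := by field_simp; norm_num
      _ ≤ _ := mul_le_mul (PW_low hT ht) h3 (by norm_num) (PW_pos hW _).le
  refine (measure_mono h2).trans ?_
  have hfin : volume {t | 1 / (160 * T) ≤ g t} < ⊤ := hf.measure_ge_lt_top hε
  rw [← ENNReal.ofReal_toReal hfin.ne]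
  apply ENNReal.ofReal_le_ofReal
  have h4 : 1 / (160 * T) * (volume {t | 1 / (160 * T) ≤ g t}).toReal ≤ I₀ := h1.trans hI
  rw [div_mul_eq_mul_div, one_mul, div_le_iff₀ (by positivity)] at h4
  linarith

/-- the tiny terms go to zero -/
lemma tiny_lim (D : ℝ) : Tendsto (fun T : ℝ => 2 * (16 * (1 + 2 * D) * T ^ (-(1 / 4) : ℝ) +
      4 * T ^ 2 * Real.exp (-(T ^ (1 / 4 : ℝ) / 2))) + 4 * Aq ^ 2 * T ^ (-(1 / 4) : ℝ)) atTop (𝓝 0) ∧
    Tendsto (fun T : ℝ => 2 * (T ^ 4 * Real.exp (-(T ^ (1 / 2 : ℝ)))) + 4 * Aq ^ 2 * T ^ (-(1 / 4) : ℝ)) atTop (𝓝 0) := by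
  have h1 : Tendsto (fun T : ℝ => T ^ (-(1 / 4) : ℝ)) atTop (𝓝 0) := tendsto_rpow_neg_atTop (by norm_num)
  have h2 : Tendsto (fun T : ℝ => T ^ 2 * Real.exp (-(T ^ (1 / 4 : ℝ) / 2))) atTop (𝓝 0) := by
    have h3 : Tendsto (fun T : ℝ => T ^ (1 / 4 : ℝ) / 2) atTop atTop :=
      (tendsto_rpow_atTop (by norm_num : (0:ℝ) < 1 / 4)).atTop_div_const (by norm_num)
    have h4 := ((Real.tendsto_pow_mul_exp_neg_atTop_nhds_zero 8).comp h3).const_mul 256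
    rw [mul_zero] at h4
    refine h4.congr' ?_
    filter_upwards [eventually_gt_atTop 0] with T hT
    simp only [Function.comp]
    have h5 : (T ^ (1 / 4 : ℝ)) ^ 8 = T ^ 2 := by
      rw [← Real.rpow_natCast, ← Real.rpow_mul hT.le]
      norm_num
    rw [div_pow, h5]
    ring
  have h3 : Tendsto (fun T : ℝ => T ^ 4 * Real.exp (-(T ^ (1 / 2 : ℝ)))) atTop (𝓝 0) := by
    have h4 := (Real.tendsto_pow_mul_exp_neg_atTop_nhds_zero 8).comp (tendsto_rpow_atTop (by norm_num : (0:ℝ) < 1 / 2))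
    refine h4.congr' ?_
    filter_upwards [eventually_gt_atTop 0] with T hT
    simp only [Function.comp]
    have h5 : (T ^ (1 / 2 : ℝ)) ^ 8 = T ^ 4 := by
      rw [← Real.rpow_natCast, ← Real.rpow_mul hT.le]
      norm_num
    rw [h5]
  constructor
  · have h4 := (((h1.const_mul (16 * (1 + 2 * D))).add (h2.const_mul 4)).const_mul 2).add (h1.const_mul (4 * Aq ^ 2))
    simp only [mul_zero, add_zero] at h4
    refine h4.congr fun T => ?_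
    ring
  · have h4 := (h3.const_mul 2).add (h1.const_mul (4 * Aq ^ 2))
    simp only [mul_zero, add_zero] at h4
    exact h4

/-- the sup of the polynomial -/
lemma Mo_bdd (X : ℕ) (β : ℕ → ℝ) : ∃ M : ℝ, ∀ u : ℝ, ‖Mo X β (1 / 2 + I * u)‖ ≤ M := by
  refine ⟨∑ n ∈ Finset.Icc 1 X, |β n * (n : ℝ) ^ (-(1 / 2) : ℝ)|, fun u => ?_⟩
  rw [Mo_ES]
  unfold ES
  refine (norm_sum_le _ _).trans (Finset.sum_le_sum fun n _ => ?_)
  rw [norm_mul, Complex.norm_real, Real.norm_eq_abs]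
  have e : ‖cexp (-(I * (((Real.log n : ℝ) : ℂ) * u)))‖ = 1 := by
    have : -(I * (((Real.log n : ℝ) : ℂ) * u)) = ((-(Real.log n * u) : ℝ) : ℂ) * I := by push_cast; ring
    rw [this, Complex.norm_exp_ofReal_mul_I]
  rw [e, mul_one]

/-- pointwise inequality on a long gap -/
lemma point_ineq {s H L₀ t : ℝ} (X : ℕ) (β : ℕ → ℝ) (hs : 0 < s) (hH : 0 < H) (ht : 0 < t)
    (hz : ∀ u ∈ Set.Ioo (t - H) (t + H), ze u ≠ 0) :
    1 ≤ ‖fA s (L₀ / 2) X β t‖ +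
      2 * (∫ u in {u : ℝ | H ≤ |u|}, s * kk (s * u) * (‖ze (t - u)‖ * ‖Mo X β (1 / 2 + I * ((t - u : ℝ) : ℂ))‖ ^ 2)) +
      (∫ u : ℝ, s * kk (s * u) * (13 * (1 + u ^ 2) / t + |u| * |Real.log (t / (2 * Real.pi)) - L₀| / 2) *
        (‖ze (t - u)‖ * ‖Mo X β (1 / 2 + I * ((t - u : ℝ) : ℂ))‖ ^ 2)) + ‖fB s X β t‖ := by
  obtain ⟨M, hM⟩ := Mo_bdd X β
  have h1 := n8c (s := s) (H := H) (L₀ := L₀) (t := t) (M := M) hs hH ht (P := fun u : ℝ => Mo X β (1 / 2 + I * u)) (Mo_cont X β) hM hz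
  have h2 : ‖(1 : ℂ) + fB s X β t‖ ≤ ∫ u : ℝ, s * kk (s * u) * (‖ze (t - u)‖ * ‖Mo X β (1 / 2 + I * ((t - u : ℝ) : ℂ))‖ ^ 2) := by
    have e : (1 : ℂ) + fB s X β t = ∫ u : ℝ, KL Qs s u * (riemannZeta (hl (t - u)) * Mo X β (1 / 2 + I * ((t - u : ℝ) : ℂ)) ^ 2) := by
      unfold fB; ring
    rw [e]
    refine (norm_integral_le_integral_norm _).trans (le_of_eq ?_)
    congr 1
    funext u
    have hk : ‖KL Qs s u‖ = s * kk (s * u) := by
      unfold KL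
      rw [Kq_Qs, norm_mul, Complex.norm_real, Complex.norm_real, Real.norm_of_nonneg hs.le, Real.norm_of_nonneg (kk_nonneg _)]
    rw [norm_mul, norm_mul, norm_pow, hk]
    rfl
  have h3 : 1 ≤ ‖(1 : ℂ) + fB s X β t‖ + ‖fB s X β t‖ := by
    calc (1 : ℝ) = ‖(1 : ℂ)‖ := norm_one.symm
      _ = ‖(1 + fB s X β t) - fB s X β t‖ := by rw [add_sub_cancel_right]
      _ ≤ _ := norm_sub_le _ _
  have h4 : fA s (L₀ / 2) X β t = ∫ u : ℝ, KL Qs s u * cexp (-(I * u * (L₀ / 2 : ℝ))) *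
      (riemannZeta (hl (t - u)) * ((‖Mo X β (1 / 2 + I * ((t - u : ℝ) : ℂ))‖ ^ 2 : ℝ) : ℂ)) := rfl
  rw [h4]
  linarith

end

end Pool.Agent.Helper49.HG
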