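import Pool.Agent.Helper49.HG.Nd
import Pool.Agent.Helper33.HG.N7

/-!
# Hall gaps, NG: the measure of the exceptional sets
-/

set_option autoImplicit false

namespace Pool.Agent.Helper49.HG

open Complex Set MeasureTheory Filter Topology
open scoped FourierTransform SchwartzMap ComplexConjugate
open Pool.Agent.HL9 Pool.Agent.Helper69.HG Pool.Agent.Helper44.HL
open Pool.Agent.Helper57.ED hiding qq

noncomputable section

lemma scale_integral {s : ℝ} (hs : 0 < s) (g : ℝ → ℝ) : ∫ u : ℝ, s * g (s * u) = ∫ v : ℝ, g v := by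
  rw [integral_const_mul, Measure.integral_comp_mul_left, smul_eq_mul, abs_of_pos (inv_pos.2 hs), ← mul_assoc,
    mul_inv_cancel₀ hs.ne', one_mul]

lemma scale_integrable {s : ℝ} (hs : 0 < s) {g : ℝ → ℝ} (hg : Integrable g) : Integrable (fun u : ℝ => s * g (s * u)) :=
  (hg.comp_mul_left' hs.ne').const_mul s

/-- moments of the kernel -/
def MK (m : ℕ) : ℝ := ∫ v : ℝ, (1 + |v|) ^ m * kk v

lemma MK_nonneg (m : ℕ) : 0 ≤ MK m := integral_nonneg fun v => mul_nonneg (by positivity) (kk_nonneg v)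

lemma one_abs_scale {s : ℝ} (hs : 1 ≤ s) (u : ℝ) (m : ℕ) : (1 + |u|) ^ m ≤ (1 + |s * u|) ^ m := by
  apply pow_le_pow_left₀ (by positivity)
  rw [abs_mul, abs_of_pos (show (0 : ℝ) < s by linarith)]
  nlinarith [abs_nonneg u]

/-- the tail kernel -/
def K1 (s A u : ℝ) : ℝ := {u : ℝ | A / s ≤ |u|}.indicator (fun u => s * kk (s * u)) u

lemma K1_set_meas (s A : ℝ) : MeasurableSet {u : ℝ | A / s ≤ |u|} := (isClosed_le continuous_const continuous_abs).measurableSet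

lemma K1_nonneg {s : ℝ} (hs : 0 < s) (A u : ℝ) : 0 ≤ K1 s A u :=
  indicator_nonneg (fun _ _ => mul_nonneg hs.le (kk_nonneg _)) u

lemma K1_le {s : ℝ} (hs : 0 < s) (A u : ℝ) : K1 s A u ≤ s * kk (s * u) :=
  indicator_le_self' (fun _ _ => mul_nonneg hs.le (kk_nonneg _)) u

lemma K1_meas (s A : ℝ) : Measurable (K1 s A) :=
  (continuous_const.mul (kk_cont.comp (continuous_const.mul continuous_id))).measurable.indicator (K1_set_meas s A)

lemma K1_int {s : ℝ} (hs : 0 < s) (A : ℝ) : ∫ u, K1 s A u = ∫ v in {v : ℝ | A ≤ |v|}, kk v := by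
  have e : ∀ u, K1 s A u = s * ({v : ℝ | A ≤ |v|}.indicator kk (s * u)) := by
    intro u
    unfold K1
    by_cases h : A / s ≤ |u|
    · have h2 : A ≤ |s * u| := by
        rw [abs_mul, abs_of_pos hs]
        rw [div_le_iff₀ hs] at h
        linarith
      rw [indicator_of_mem (show u ∈ {u : ℝ | A / s ≤ |u|} from h), indicator_of_mem (show s * u ∈ {v : ℝ | A ≤ |v|} from h2)]
    · have h2 : ¬ A ≤ |s * u| := by
        rw [abs_mul, abs_of_pos hs]
        rw [div_le_iff₀ hs] at h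
        intro h3; exact h (by linarith)
      rw [indicator_of_notMem (show u ∉ {u : ℝ | A / s ≤ |u|} from h), indicator_of_notMem (show s * u ∉ {v : ℝ | A ≤ |v|} from h2),
        mul_zero]
  simp only [e]
  rw [scale_integral hs, integral_indicator (isClosed_le continuous_const continuous_abs).measurableSet]

lemma K1_mom {s : ℝ} (hs : 1 ≤ s) (A : ℝ) : Integrable (fun u => K1 s A u * (1 + |u|) ^ 2) ∧
    ∫ u, K1 s A u * (1 + |u|) ^ 2 ≤ MK 2 := by
  have hs0 : 0 < s := by linarith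
  have hI : Integrable (fun u : ℝ => s * ((1 + |s * u|) ^ 2 * kk (s * u))) := scale_integrable hs0 (kk_int 2)
  have hle : ∀ u, K1 s A u * (1 + |u|) ^ 2 ≤ s * ((1 + |s * u|) ^ 2 * kk (s * u)) := by
    intro u
    have hk := kk_nonneg (s * u)
    calc K1 s A u * (1 + |u|) ^ 2 ≤ (s * kk (s * u)) * (1 + |s * u|) ^ 2 :=
          mul_le_mul (K1_le hs0 A u) (one_abs_scale hs u 2) (by positivity) (by positivity)
      _ = _ := by ring
  have h1 : Integrable (fun u => K1 s A u * (1 + |u|) ^ 2) := by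
    refine hI.mono' ((K1_meas s A).mul (by fun_prop)).aestronglyMeasurable (Eventually.of_forall fun u => ?_)
    rw [Real.norm_of_nonneg (mul_nonneg (K1_nonneg hs0 A u) (by positivity))]
    exact hle u
  refine ⟨h1, (integral_mono h1 hI hle).trans (le_of_eq ?_)⟩
  exact scale_integral hs0 (fun v => (1 + |v|) ^ 2 * kk v)

/-- the kernel of the phase error -/
def K2 (s T u : ℝ) : ℝ := s * kk (s * u) * (13 * (1 + u ^ 2) / T + |u|)

lemma K2_nonneg {s T : ℝ} (hs : 0 < s) (hT : 0 < T) (u : ℝ) : 0 ≤ K2 s T u := by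
  unfold K2
  have := kk_nonneg (s * u)
  positivity

lemma K2_cont {s T : ℝ} : Continuous (K2 s T) := by
  unfold K2
  have h1 : Continuous fun u : ℝ => s * kk (s * u) := continuous_const.mul (kk_cont.comp (continuous_const.mul continuous_id))
  have h2 : Continuous fun u : ℝ => 13 * (1 + u ^ 2) / T + |u| := by fun_prop
  exact h1.mul h2

lemma K2_le {s T : ℝ} (hs : 1 ≤ s) (hT : 0 < T) (u : ℝ) :
    K2 s T u ≤ (13 / T + 1 / s) * (s * ((1 + |s * u|) ^ 2 * kk (s * u))) := by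
  have hs0 : 0 < s := by linarith
  have hk := kk_nonneg (s * u)
  have ha := abs_nonneg u
  have h1 : 13 * (1 + u ^ 2) / T ≤ 13 / T * (1 + |s * u|) ^ 2 := by
    have h2 : 1 + u ^ 2 ≤ (1 + |s * u|) ^ 2 := by
      refine le_trans ?_ (one_abs_scale hs u 2)
      nlinarith [sq_abs u]
    calc 13 * (1 + u ^ 2) / T = 13 / T * (1 + u ^ 2) := by ring
      _ ≤ _ := mul_le_mul_of_nonneg_left h2 (by positivity)
  have h2 : |u| ≤ 1 / s * (1 + |s * u|) ^ 2 := by
    rw [abs_mul, abs_of_pos hs0, div_mul_eq_mul_div, one_mul, le_div_iff₀ hs0]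
    nlinarith [mul_nonneg hs0.le ha, mul_nonneg (mul_nonneg hs0.le ha) (mul_nonneg hs0.le ha)]
  unfold K2
  calc s * kk (s * u) * (13 * (1 + u ^ 2) / T + |u|) ≤ s * kk (s * u) * (13 / T * (1 + |s * u|) ^ 2 + 1 / s * (1 + |s * u|) ^ 2) :=
        mul_le_mul_of_nonneg_left (add_le_add h1 h2) (by positivity)
    _ = _ := by ring

lemma K2_int {s T : ℝ} (hs : 1 ≤ s) (hT : 0 < T) : Integrable (K2 s T) ∧ ∫ u, K2 s T u ≤ (13 / T + 1 / s) * MK 2 := by
  have hs0 : 0 < s := by linarith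
  have hI : Integrable (fun u : ℝ => (13 / T + 1 / s) * (s * ((1 + |s * u|) ^ 2 * kk (s * u)))) :=
    (scale_integrable hs0 (kk_int 2)).const_mul _
  have h1 : Integrable (K2 s T) := by
    refine hI.mono' K2_cont.aestronglyMeasurable (Eventually.of_forall fun u => ?_)
    rw [Real.norm_of_nonneg (K2_nonneg hs0 hT u)]
    exact K2_le hs hT u
  refine ⟨h1, (integral_mono h1 hI (K2_le hs hT)).trans (le_of_eq ?_)⟩
  rw [integral_const_mul]
  congr 1
  exact scale_integral hs0 (fun v => (1 + |v|) ^ 2 * kk v)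

lemma K2_mom {s T : ℝ} (hs : 1 ≤ s) (hT : 0 < T) : Integrable (fun u => K2 s T u * (1 + |u|) ^ 2) ∧
    ∫ u, K2 s T u * (1 + |u|) ^ 2 ≤ (13 / T + 1 / s) * MK 4 := by
  have hs0 : 0 < s := by linarith
  have hI : Integrable (fun u : ℝ => (13 / T + 1 / s) * (s * ((1 + |s * u|) ^ 4 * kk (s * u)))) :=
    (scale_integrable hs0 (kk_int 4)).const_mul _
  have hle : ∀ u, K2 s T u * (1 + |u|) ^ 2 ≤ (13 / T + 1 / s) * (s * ((1 + |s * u|) ^ 4 * kk (s * u))) := by
    intro u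
    have hk := kk_nonneg (s * u)
    calc K2 s T u * (1 + |u|) ^ 2 ≤ ((13 / T + 1 / s) * (s * ((1 + |s * u|) ^ 2 * kk (s * u)))) * (1 + |s * u|) ^ 2 :=
          mul_le_mul (K2_le hs hT u) (one_abs_scale hs u 2) (by positivity) (by positivity)
      _ = _ := by ring
  have h1 : Integrable (fun u => K2 s T u * (1 + |u|) ^ 2) := by
    refine hI.mono' (K2_cont.mul (by fun_prop)).aestronglyMeasurable (Eventually.of_forall fun u => ?_)
    rw [Real.norm_of_nonneg (mul_nonneg (K2_nonneg hs0 hT u) (by positivity))]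
    exact hle u
  refine ⟨h1, (integral_mono h1 hI hle).trans (le_of_eq ?_)⟩
  rw [integral_const_mul]
  congr 1
  exact scale_integral hs0 (fun v => (1 + |v|) ^ 4 * kk v)

section meas
variable {T s I₇ : ℝ} {F : ℝ → ℝ}

lemma meas_tail (hT : 2 ≤ T) (hs : 1 ≤ s) (A : ℝ) (hF0 : ∀ t, 0 ≤ F t) (hF : Measurable F)
    (hFi : Integrable (fun t => PW (T + 1 / 2) (t - 3 * T / 2) * F t ^ 2))
    (hI : ∫ t, PW (T + 1 / 2) (t - 3 * T / 2) * F t ^ 2 ≤ I₇) :
    volume {t : ℝ | t ∈ Icc T (2 * T + 1) ∧ 1 / 8 ≤ ∫ u, K1 s A u * F (t - u)} ≤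
      ENNReal.ofReal (640 * T * ((∫ v in {v : ℝ | A ≤ |v|}, kk v) * MK 2 * I₇)) := by
  have hT0 : 0 < T := by linarith
  have hs0 : 0 < s := by linarith
  have hW : 0 < T + 1 / 2 := by linarith
  obtain ⟨m1, m2⟩ := K1_mom hs A
  have h := Pool.Agent.Helper57.HL.n8e (W := T + 1 / 2) (τ := 3 * T / 2) (c := 1 / (10 * T)) (lam := 1 / 8) (by linarith)
    hF0 hF hFi (K1_nonneg hs0 A) (K1_meas s A) m1 (by positivity) (by norm_num)
    (S := {t : ℝ | t ∈ Icc T (2 * T + 1) ∧ 1 / 8 ≤ ∫ u, K1 s A u * F (t - u)}) (fun t ht => PW_low hT ht.1) (fun t ht => ht.2)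
  refine h.trans (ENNReal.ofReal_le_ofReal ?_)
  have i0 : 0 ≤ ∫ v in {v : ℝ | A ≤ |v|}, kk v := integral_nonneg fun v => kk_nonneg v
  have j0 : 0 ≤ ∫ t, PW (T + 1 / 2) (t - 3 * T / 2) * F t ^ 2 :=
    integral_nonneg fun t => mul_nonneg (PW_pos hW _).le (by positivity)
  rw [K1_int hs0]
  have h2 : (∫ v in {v : ℝ | A ≤ |v|}, kk v) * (∫ u, K1 s A u * (1 + |u|) ^ 2) * (∫ t, PW (T + 1 / 2) (t - 3 * T / 2) * F t ^ 2) ≤
      (∫ v in {v : ℝ | A ≤ |v|}, kk v) * MK 2 * I₇ :=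
    mul_le_mul (mul_le_mul_of_nonneg_left m2 i0) hI j0 (mul_nonneg i0 (MK_nonneg 2))
  have e : 1 / (10 * T) * (1 / 8) ^ 2 = 1 / (640 * T) := by field_simp; norm_num
  rw [e, div_div_eq_mul_div, div_one, mul_comm]
  exact mul_le_mul_of_nonneg_left h2 (by positivity)

lemma meas_err (hT : 2 ≤ T) (hs : 1 ≤ s) (hF0 : ∀ t, 0 ≤ F t) (hF : Measurable F)
    (hFi : Integrable (fun t => PW (T + 1 / 2) (t - 3 * T / 2) * F t ^ 2))
    (hI : ∫ t, PW (T + 1 / 2) (t - 3 * T / 2) * F t ^ 2 ≤ I₇) :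
    volume {t : ℝ | t ∈ Icc T (2 * T + 1) ∧ 1 / 4 ≤ ∫ u, K2 s T u * F (t - u)} ≤
      ENNReal.ofReal (160 * T * (((13 / T + 1 / s) * MK 2) * ((13 / T + 1 / s) * MK 4) * I₇)) := by
  have hT0 : 0 < T := by linarith
  have hs0 : 0 < s := by linarith
  have hW : 0 < T + 1 / 2 := by linarith
  obtain ⟨m1, m2⟩ := K2_mom hs hT0
  obtain ⟨n1, n2⟩ := K2_int hs hT0
  have h := Pool.Agent.Helper57.HL.n8e (W := T + 1 / 2) (τ := 3 * T / 2) (c := 1 / (10 * T)) (lam := 1 / 4) (by linarith)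
    hF0 hF hFi (K2_nonneg hs0 hT0) K2_cont.measurable m1 (by positivity) (by norm_num)
    (S := {t : ℝ | t ∈ Icc T (2 * T + 1) ∧ 1 / 4 ≤ ∫ u, K2 s T u * F (t - u)}) (fun t ht => PW_low hT ht.1) (fun t ht => ht.2)
  refine h.trans (ENNReal.ofReal_le_ofReal ?_)
  have i0 : 0 ≤ ∫ u, K2 s T u * (1 + |u|) ^ 2 := integral_nonneg fun v => mul_nonneg (K2_nonneg hs0 hT0 v) (by positivity)
  have j0 : 0 ≤ ∫ t, PW (T + 1 / 2) (t - 3 * T / 2) * F t ^ 2 :=
    integral_nonneg fun t => mul_nonneg (PW_pos hW _).le (by positivity)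
  have k0 : 0 ≤ (13 / T + 1 / s) * MK 2 := mul_nonneg (by positivity) (MK_nonneg 2)
  have k1 : 0 ≤ (13 / T + 1 / s) * MK 4 := mul_nonneg (by positivity) (MK_nonneg 4)
  have h2 : (∫ u, K2 s T u) * (∫ u, K2 s T u * (1 + |u|) ^ 2) * (∫ t, PW (T + 1 / 2) (t - 3 * T / 2) * F t ^ 2) ≤
      ((13 / T + 1 / s) * MK 2) * ((13 / T + 1 / s) * MK 4) * I₇ :=
    mul_le_mul (mul_le_mul n2 m2 i0 k0) hI j0 (mul_nonneg k0 k1)
  have e : 1 / (10 * T) * (1 / 4) ^ 2 = 1 / (160 * T) := by field_simp; norm_num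
  rw [e, div_div_eq_mul_div, div_one, mul_comm]
  exact mul_le_mul_of_nonneg_left h2 (by positivity)

end meas

/-- the tail of the kernel goes to zero -/
lemma tail_kk {δ : ℝ} (hδ : 0 < δ) : ∃ A : ℝ, 0 < A ∧ ∫ v in {v : ℝ | A ≤ |v|}, kk v ≤ δ := by
  have h1 : ∀ A : ℝ, 0 < A → ∫ v in {v : ℝ | A ≤ |v|}, kk v ≤ MK 1 / A := by
    intro A hA
    have hm : MeasurableSet {v : ℝ | A ≤ |v|} := (isClosed_le continuous_const continuous_abs).measurableSet
    rw [← integral_indicator hm]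
    have hI : Integrable (fun v : ℝ => (1 / A) * ((1 + |v|) ^ 1 * kk v)) := (kk_int 1).const_mul _
    have h2 : ∫ v, {v : ℝ | A ≤ |v|}.indicator kk v ≤ ∫ v, (1 / A) * ((1 + |v|) ^ 1 * kk v) := by
      refine integral_mono (kk_integrable.indicator hm) hI fun v => ?_
      have hk := kk_nonneg v
      by_cases h : A ≤ |v|
      · rw [indicator_of_mem (show v ∈ {v : ℝ | A ≤ |v|} from h), pow_one]
        have h3 : 1 ≤ 1 / A * (1 + |v|) := by
          rw [div_mul_eq_mul_div, one_mul, le_div_iff₀ hA]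
          linarith
        calc kk v = 1 * kk v := (one_mul _).symm
          _ ≤ (1 / A * (1 + |v|)) * kk v := mul_le_mul_of_nonneg_right h3 hk
          _ = _ := by ring
      · rw [indicator_of_notMem (show v ∉ {v : ℝ | A ≤ |v|} from h)]
        positivity
    rw [integral_const_mul] at h2
    calc _ ≤ _ := h2
      _ = MK 1 / A := by unfold MK; ring
  refine ⟨(MK 1 + 1) / δ, div_pos (by linarith [MK_nonneg 1]) hδ, (h1 _ (div_pos (by linarith [MK_nonneg 1]) hδ)).trans ?_⟩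
  have h2 : 0 < MK 1 + 1 := by linarith [MK_nonneg 1]
  rw [div_div_eq_mul_div, div_le_iff₀ h2]
  nlinarith

end

end Pool.Agent.Helper49.HG
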